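import Pool.Agent.MP_cff99f_al.Sites

/-!
The action of the diagram group on the universal covering of the Squier complex.
-/

namespace Pool.Agent.DG

universe u v w

variable {α : Type u} {ι : Type v} {P : Pres α ι} {x : List α}

instance : MulAction (DiagramGroup P x) (Vert P x) where
  smul g v := ⟨v.1, Hpt.comp g v.2⟩
  one_smul v := by
    change (⟨v.1, Hpt.comp (Hpt.id P x) v.2⟩ : Vert P x) = v
    rw [Hpt.id_comp]
    rfl
  mul_smul g h v := by
    change (⟨v.1, Hpt.comp (Hpt.comp g h) v.2⟩ : Vert P x) = ⟨v.1, Hpt.comp g (Hpt.comp h v.2)⟩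
    rw [Hpt.comp_assoc]

theorem smul_fst (g : DiagramGroup P x) (v : Vert P x) : (g • v).1 = v.1 := rfl

theorem mk_smul_mk {y : List α} {k l : List (SEdge α ι)} (hk : IsPath P x k x)
    (hl : IsPath P x l y) :
    (Hpt.mk P k hk : DiagramGroup P x) • Vert.mk P l hl = Vert.mk P (k ++ l)
      (isPath_append P hk hl) := rfl

theorem Vert.mv_of_ne (v : Vert P x) (s : SEdge α ι) (h : s.src P ≠ v.1) : v.mv s = v := by
  unfold Vert.mv
  exact dif_neg (fun e => h e.symm)

theorem smul_mv (g : DiagramGroup P x) (v : Vert P x) (s : SEdge α ι) :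
    (g • v).mv s = g • v.mv s := by
  induction g using Hpt.ind with
  | _ k hk =>
  induction v using Vert.ind with
  | _ y l hl =>
    by_cases h : s.src P = y
    · rw [mk_smul_mk, Vert.mk_mv _ _ h, Vert.mk_mv _ _ h, mk_smul_mk]
      exact Vert.mk_congr _ (by simp) rfl
    · rw [Vert.mv_of_ne _ s h, Vert.mv_of_ne _ s h]

theorem Vert.free (g : DiagramGroup P x) (v : Vert P x) (h : g • v = v) : g = 1 := by
  obtain ⟨y, a⟩ := v
  have h1 : (⟨y, Hpt.comp g a⟩ : Vert P x) = ⟨y, a⟩ := h
  have h2 : Hpt.comp g a = a := by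
    have := Sigma.mk.inj h1
    simpa using this
  calc g = Hpt.comp g (Hpt.comp a a.inv) := by rw [Hpt.comp_inv, Hpt.comp_id]
    _ = Hpt.comp (Hpt.comp g a) a.inv := by rw [Hpt.comp_assoc]
    _ = Hpt.id P x := by rw [h2, Hpt.comp_inv]

theorem Vert.trans (v v' : Vert P x) (h : v.1 = v'.1) : ∃ g : DiagramGroup P x, g • v = v' := by
  obtain ⟨y, a⟩ := v
  obtain ⟨y', a'⟩ := v'
  change y = y' at h
  subst h
  refine ⟨Hpt.comp a' a.inv, ?_⟩
  change (⟨y, Hpt.comp (Hpt.comp a' a.inv) a⟩ : Vert P x) = ⟨y, a'⟩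
  rw [Hpt.comp_assoc, Hpt.inv_comp, Hpt.comp_id]

instance : MulAction (DiagramGroup P x) (univCov P x).E :=
  inferInstanceAs (MulAction (DiagramGroup P x) (Vert P x))

theorem univ_lab_smul (g : DiagramGroup P x) (v : (univCov P x).E) :
    (univCov P x).lab (g • v) = (univCov P x).lab v := rfl

theorem univ_mv_smul (g : DiagramGroup P x) (v : (univCov P x).E) (s : SEdge α ι) :
    (univCov P x).mv (g • v) s = g • (univCov P x).mv v s := smul_mv g v s

instance : MulAction (DiagramGroup P x) (univCov P x).Cell where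
  smul g c := ⟨(g • c.1.1, c.1.2), c.2⟩
  one_smul c := by
    apply Subtype.ext
    exact Prod.ext (one_smul _ c.1.1) rfl
  mul_smul g h c := by
    apply Subtype.ext
    exact Prod.ext (mul_smul g h c.1.1) rfl

theorem smul_cell_fst (g : DiagramGroup P x) (c : (univCov P x).Cell) :
    (g • c).1.1 = g • c.1.1 := rfl

theorem smul_cell_snd (g : DiagramGroup P x) (c : (univCov P x).Cell) :
    (g • c).1.2 = c.1.2 := rfl

theorem cell_free (g : DiagramGroup P x) (c : (univCov P x).Cell) (h : g • c = c) : g = 1 := by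
  apply Vert.free g (c.1.1 : Vert P x)
  exact congrArg (fun c : (univCov P x).Cell => c.1.1) h

theorem cell_trans (c c' : (univCov P x).Cell) (h : c.1.2 = c'.1.2) :
    ∃ g : DiagramGroup P x, g • c = c' := by
  have h1 : (c.1.1 : Vert P x).1 = (c'.1.1 : Vert P x).1 := by
    have e1 := c.2
    have e2 := c'.2
    change (c.1.1 : Vert P x).1 = _ at e1
    change (c'.1.1 : Vert P x).1 = _ at e2
    rw [e1, e2, h]
  obtain ⟨g, hg⟩ := Vert.trans _ _ h1
  refine ⟨g, Subtype.ext (Prod.ext hg h)⟩

theorem bd_smul_apply (g : DiagramGroup P x) (c c' : (univCov P x).Cell) :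
    (univCov P x).bd (Finsupp.single (g • c) 1) (g • c') =
      (univCov P x).bd (Finsupp.single c 1) c' := by
  classical
  rw [Cov.bd_single, Cov.bd_single, rawBd_apply, rawBd_apply]
  congr 1
  apply List.map_congr_left
  intro s _
  congr 2
  · apply if_congr _ rfl rfl
    simp only [Cov.lface, Prod.ext_iff, smul_cell_fst, smul_cell_snd]
    refine and_congr ?_ Iff.rfl
    exact ⟨fun h => MulAction.injective g h, fun h => congrArg (g • ·) h⟩
  · apply if_congr _ rfl rfl
    simp only [Cov.rface, Prod.ext_iff, smul_cell_fst, smul_cell_snd]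
    refine and_congr ?_ Iff.rfl
    rw [univ_mv_smul]
    exact ⟨fun h => MulAction.injective g h, fun h => congrArg (g • ·) h⟩

theorem bd_smul (g : DiagramGroup P x) (z : (univCov P x).Cell →₀ ℤ) :
    (univCov P x).bd (z.mapDomain (g • ·)) = ((univCov P x).bd z).mapDomain (g • ·) := by
  induction z using Finsupp.induction_linear with
  | zero => simp
  | add z z' h h' => rw [Finsupp.mapDomain_add, map_add, h, h', map_add, Finsupp.mapDomain_add]
  | single c n =>
    rw [Finsupp.mapDomain_single]
    have e1 : Finsupp.single (g • c) n = n • Finsupp.single (g • c) (1 : ℤ) := by simp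
    have e2 : Finsupp.single c n = n • Finsupp.single c (1 : ℤ) := by simp
    rw [e1, e2, map_smul, map_smul, Finsupp.mapDomain_smul]
    congr 1
    ext c'
    have hc' : c' = g • (g⁻¹ • c') := (smul_inv_smul g c').symm
    conv_lhs => rw [hc']
    conv_rhs => rw [hc']
    rw [bd_smul_apply, Finsupp.mapDomain_apply (MulAction.injective g)]

theorem rho_smul (g : DiagramGroup P x) (z : (univCov P x).Cell →₀ ℤ) :
    (univCov P x).rho (z.mapDomain (g • ·)) = (univCov P x).rho z := by
  unfold Cov.rho
  rw [Finsupp.linearCombination_mapDomain]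
  rfl

theorem aug_smul (g : DiagramGroup P x) (z : (univCov P x).Cell →₀ ℤ) :
    (univCov P x).aug (z.mapDomain (g • ·)) = (univCov P x).aug z := by
  unfold Cov.aug
  rw [Finsupp.linearCombination_mapDomain]
  rfl

end Pool.Agent.DG
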