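import Pool.Agent.MP_cff99f_al.Cov

/-! Block B: the boundary map squares to zero. -/

namespace Pool.Agent.DG

universe u v w

variable {α : Type u} {ι : Type v} {P : Pres α ι}

/-- The two ways to enumerate the pairs of relations of a cube. -/
theorem sum_double_splits {M : Type*} [AddCommMonoid M] (q : Cube α ι)
    (F : Cube α ι → ι → Cube α ι → ι → Cube α ι → M) :
    ((splits q).map fun s => ((splits s.1).map fun s' =>
      F s'.1 s'.2.1 s'.2.2 s.2.1 s.2.2).sum).sum =
    ((splits q).map fun s => ((splits s.2.2).map fun s' =>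
      F s.1 s.2.1 s'.1 s'.2.1 s'.2.2).sum).sum := by
  induction q generalizing F with
  | nil => simp [splits]
  | cons c q ih =>
    rcases c with x | i
    · simp only [splits, List.map_map, Function.comp_def]
      exact ih (fun a i b j c => F (Sum.inl x :: a) i b j c)
    · simp only [splits, List.map_map, Function.comp_def, List.map_cons, List.sum_cons,
        List.map_nil, List.sum_nil, zero_add]
      rw [List.sum_map_add]
      congr 1
      exact ih (fun a i' b j c => F (Sum.inr i :: a) i' b j c)

theorem splits_append (q q' : Cube α ι) :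
    splits (q ++ q') = (splits q).map (fun s => (s.1, s.2.1, s.2.2 ++ q')) ++
      (splits q').map (fun s => (q ++ s.1, s.2.1, s.2.2)) := by
  induction q with
  | nil => simp [splits]
  | cons c q ih =>
    rcases c with x | i
    · simp [splits, ih, Function.comp_def]
    · simp [splits, ih, Function.comp_def]

theorem splits_letters (x : List α) : splits (letters x : Cube α ι) = [] := by
  induction x with
  | nil => rfl
  | cons a x ih => simp [splits, ih]

/-- The contribution of a split to the boundary. -/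
noncomputable def Cov.face (X : Cov.{u, v, w} P) (v : X.E) (s : Cube α ι × ι × Cube α ι) :
    X.E × Cube α ι →₀ ℤ :=
  (-1 : ℤ) ^ dim s.1 •
    (Finsupp.single (X.lface v s) (1 : ℤ) - Finsupp.single (X.rface v s) (1 : ℤ))

theorem Cov.rawBd_eq (X : Cov.{u, v, w} P) (v : X.E) (q : Cube α ι) :
    X.rawBd (v, q) = ((splits q).map (X.face v)).sum := rfl

theorem Cov.rawBd_mid (X : Cov.{u, v, w} P) (v : X.E) (a b : Cube α ι) (x : List α) :
    X.rawBd (v, a ++ letters x ++ b) =
      ((splits a).map fun s => X.face v (s.1, s.2.1, s.2.2 ++ letters x ++ b)).sum +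
      ((splits b).map fun s => X.face v (a ++ letters x ++ s.1, s.2.1, s.2.2)).sum := by
  rw [Cov.rawBd_eq, splits_append, splits_append, splits_letters]
  simp [Function.comp_def]

/-- The boundary extended to all chains on pairs. -/
noncomputable def Cov.rawD (X : Cov.{u, v, w} P) :
    (X.E × Cube α ι →₀ ℤ) →ₗ[ℤ] (X.E × Cube α ι →₀ ℤ) :=
  Finsupp.linearCombination ℤ X.rawBd

theorem Cov.rawD_face (X : Cov.{u, v, w} P) (v : X.E) (s : Cube α ι × ι × Cube α ι) :
    X.rawD (X.face v s) = (-1 : ℤ) ^ dim s.1 •
      (X.rawBd (X.lface v s) - X.rawBd (X.rface v s)) := by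
  unfold Cov.rawD Cov.face
  simp

/-- The double face with the left relation taken first. -/
noncomputable def Cov.dface (X : Cov.{u, v, w} P) (v : X.E) (a : Cube α ι) (i : ι) (b : Cube α ι)
    (j : ι) (c : Cube α ι) : X.E × Cube α ι →₀ ℤ :=
  (-1 : ℤ) ^ dim b •
    ((Finsupp.single (v, a ++ letters (P.lhs i) ++ b ++ letters (P.lhs j) ++ c) (1 : ℤ)
      - Finsupp.single (X.mv v ⟨P.top a ++ P.lhs i ++ P.top b, j, P.top c, true⟩,
          a ++ letters (P.lhs i) ++ b ++ letters (P.rhs j) ++ c) (1 : ℤ))
    - (Finsupp.single (X.mv v ⟨P.top a, i, P.top b ++ P.lhs j ++ P.top c, true⟩,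
          a ++ letters (P.rhs i) ++ b ++ letters (P.lhs j) ++ c) (1 : ℤ)
      - Finsupp.single (X.mv (X.mv v ⟨P.top a, i, P.top b ++ P.lhs j ++ P.top c, true⟩)
          ⟨P.top a ++ P.rhs i ++ P.top b, j, P.top c, true⟩,
          a ++ letters (P.rhs i) ++ b ++ letters (P.rhs j) ++ c) (1 : ℤ)))

theorem neg_one_pow_mul_self (n m : ℕ) : (-1 : ℤ) ^ n * (-1 : ℤ) ^ (n + m) = (-1) ^ m := by
  rw [pow_add, ← mul_assoc, ← pow_add, ← two_mul, pow_mul]; simp

/-- Left relation first. -/
theorem Cov.dface_left (X : Cov.{u, v, w} P) (v : X.E) (a : Cube α ι) (i : ι) (b : Cube α ι)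
    (j : ι) (c : Cube α ι) :
    (-1 : ℤ) ^ dim a • (X.face v (a ++ letters (P.lhs i) ++ b, j, c) -
      X.face (X.mv v ⟨P.top a, i, P.top (b ++ Sum.inr j :: c), true⟩)
        (a ++ letters (P.rhs i) ++ b, j, c)) = X.dface v a i b j c := by
  unfold Cov.face Cov.dface Cov.lface Cov.rface
  simp only [dim_append, dim_letters, add_zero, top_append, top_inr, top_letters]
  rw [← smul_sub, smul_smul, neg_one_pow_mul_self]
  simp only [List.append_assoc]

/-- Right relation first. -/
theorem Cov.dface_right (X : Cov.{u, v, w} P) (v : X.E) (a : Cube α ι) (i : ι) (b : Cube α ι)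
    (j : ι) (c : Cube α ι)
    (h : X.lab v = P.top a ++ P.lhs i ++ P.top b ++ P.lhs j ++ P.top c) :
    (-1 : ℤ) ^ dim (a ++ Sum.inr i :: b) • (X.face v (a, i, b ++ letters (P.lhs j) ++ c) -
      X.face (X.mv v ⟨P.top (a ++ Sum.inr i :: b), j, P.top c, true⟩)
        (a, i, b ++ letters (P.rhs j) ++ c)) = - X.dface v a i b j c := by
  have hsq := X.mv_sq v (P.top a) (P.top b) (P.top c) i j true true h
  simp only [Pres.side_true, Bool.not_true, Pres.side_false] at hsq
  unfold Cov.face Cov.dface Cov.lface Cov.rface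
  rw [hsq]
  simp only [dim_append, top_append, top_inr, top_letters, dim_inr]
  rw [← smul_sub, smul_smul, mul_comm, neg_one_pow_mul_self, pow_succ, ← smul_neg]
  simp only [List.append_assoc, mul_neg, mul_one, neg_smul, ← smul_neg]
  congr 1
  abel

theorem list_sum_map_sub {β M : Type*} [AddCommGroup M] (l : List β) (f g : β → M) :
    (l.map fun b => f b - g b).sum = (l.map f).sum - (l.map g).sum := by
  induction l with
  | nil => simp
  | cons b l ih => simp only [List.map_cons, List.sum_cons, ih]; abel

theorem rawD_rawBd (X : Cov.{u, v, w} P) (v : X.E) (q : Cube α ι) (h : X.lab v = P.top q) :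
    X.rawD (X.rawBd (v, q)) = 0 := by
  rw [Cov.rawBd_eq, map_list_sum, List.map_map]
  have h1 : ∀ s ∈ splits q, (X.rawD ∘ X.face v) s =
      ((splits s.1).map fun s' => - X.dface v s'.1 s'.2.1 s'.2.2 s.2.1 s.2.2).sum +
      ((splits s.2.2).map fun s' => X.dface v s.1 s.2.1 s'.1 s'.2.1 s'.2.2).sum := by
    rintro ⟨a, i, b⟩ hs
    have hq := mem_splits.1 hs
    simp only at hq
    rw [Function.comp_apply, Cov.rawD_face]
    unfold Cov.lface Cov.rface
    simp only
    rw [Cov.rawBd_mid, Cov.rawBd_mid, add_sub_add_comm, smul_add]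
    congr 1
    · rw [← list_sum_map_sub, List.smul_sum, List.map_map]
      congr 1
      apply List.map_congr_left
      rintro ⟨a', i', b'⟩ hs'
      have ha := mem_splits.1 hs'
      simp only at ha
      subst ha
      exact X.dface_right v a' i' b' i b (by rw [h, hq]; simp)
    · rw [← list_sum_map_sub, List.smul_sum, List.map_map]
      congr 1
      apply List.map_congr_left
      rintro ⟨a', i', b'⟩ hs'
      have hb := mem_splits.1 hs'
      simp only at hb
      subst hb
      exact X.dface_left v a i a' i' b'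
  rw [List.map_congr_left h1, List.sum_map_add,
    sum_double_splits q (fun a i b j c => - X.dface v a i b j c), ← List.sum_map_add]
  apply List.sum_eq_zero
  intro t ht
  obtain ⟨s, -, rfl⟩ := List.mem_map.1 ht
  rw [← List.sum_map_add]
  apply List.sum_eq_zero
  intro t ht
  obtain ⟨s', -, rfl⟩ := List.mem_map.1 ht
  simp

/-- The cell as a pair. -/
def Cov.val (X : Cov.{u, v, w} P) (c : X.Cell) : X.E × Cube α ι := c.1

theorem Cov.val_injective (X : Cov.{u, v, w} P) : Function.Injective X.val :=
  Subtype.val_injective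

theorem val_bdCell (X : Cov.{u, v, w} P) (c : X.Cell) :
    Finsupp.mapDomain X.val (X.bdCell c) = X.rawBd c.1 := by
  ext y
  by_cases hy : X.lab y.1 = P.top y.2
  · obtain ⟨c', rfl⟩ : ∃ c' : X.Cell, X.val c' = y := ⟨⟨y, hy⟩, rfl⟩
    rw [Finsupp.mapDomain_apply X.val_injective]
    rfl
  · rw [Finsupp.mapDomain_of_notMem_range]
    · by_contra hne
      obtain ⟨s, hs, h⟩ := exists_split_of_rawBd_ne X (fun e => hne e.symm)
      rcases h with rfl | rfl
      · exact hy (X.lface_valid c.2 hs)
      · exact hy (X.rface_valid c.2 hs)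
    · rintro ⟨c', rfl⟩
      exact hy c'.2

theorem val_bd (X : Cov.{u, v, w} P) (z : X.Cell →₀ ℤ) :
    Finsupp.mapDomain X.val (X.bd z) = X.rawD (Finsupp.mapDomain X.val z) := by
  induction z using Finsupp.induction_linear with
  | zero => simp
  | add f g hf hg => rw [map_add, Finsupp.mapDomain_add, hf, hg, Finsupp.mapDomain_add, map_add]
  | single c n =>
    unfold Cov.bd Cov.rawD
    rw [Finsupp.linearCombination_single, Finsupp.mapDomain_single,
      Finsupp.linearCombination_single, Finsupp.mapDomain_smul, val_bdCell]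
    rfl

theorem bd_bd (X : Cov.{u, v, w} P) (z : X.Cell →₀ ℤ) : X.bd (X.bd z) = 0 := by
  apply Finsupp.mapDomain_injective X.val_injective
  rw [val_bd, val_bd, Finsupp.mapDomain_zero]
  induction z using Finsupp.induction_linear with
  | zero => simp
  | add f g hf hg => rw [Finsupp.mapDomain_add, map_add, map_add, hf, hg, add_zero]
  | single c n =>
    rw [Finsupp.mapDomain_single]
    have : X.rawD (Finsupp.single (X.val c) n) = n • X.rawBd (X.val c) := by
      unfold Cov.rawD
      rw [Finsupp.linearCombination_single]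
    have h0 : X.rawD (X.rawBd (X.val c)) = 0 := rawD_rawBd X _ _ c.2
    rw [this, map_smul, h0, smul_zero]

/-- The augmentation on pairs. -/
noncomputable def Cov.rawAug (X : Cov.{u, v, w} P) : (X.E × Cube α ι →₀ ℤ) →ₗ[ℤ] ℤ :=
  Finsupp.linearCombination ℤ fun c : X.E × Cube α ι => if dim c.2 = 0 then 1 else 0

theorem rawAug_val (X : Cov.{u, v, w} P) (z : X.Cell →₀ ℤ) :
    X.rawAug (Finsupp.mapDomain X.val z) = X.aug z := by
  unfold Cov.rawAug Cov.aug
  rw [Finsupp.linearCombination_mapDomain]
  rfl

theorem rawAug_rawBd (X : Cov.{u, v, w} P) (c : X.E × Cube α ι) : X.rawAug (X.rawBd c) = 0 := by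
  unfold Cov.rawBd
  rw [map_list_sum, List.map_map]
  apply List.sum_eq_zero
  intro t ht
  obtain ⟨s, hs, rfl⟩ := List.mem_map.1 ht
  have h1 := dim_lface X (c := c) hs
  have h2 := dim_rface X (c := c) hs
  have h3 : dim (X.lface c.1 s).2 = dim (X.rface c.1 s).2 := by omega
  unfold Cov.rawAug
  simp [h3]

theorem aug_bd (X : Cov.{u, v, w} P) (z : X.Cell →₀ ℤ) : X.aug (X.bd z) = 0 := by
  rw [← rawAug_val, val_bd]
  induction z using Finsupp.induction_linear with
  | zero => simp
  | add f g hf hg => rw [Finsupp.mapDomain_add, map_add, map_add, hf, hg, add_zero]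
  | single c n =>
    rw [Finsupp.mapDomain_single]
    have : X.rawD (Finsupp.single (X.val c) n) = n • X.rawBd (X.val c) := by
      unfold Cov.rawD
      rw [Finsupp.linearCombination_single]
    rw [this, map_smul, rawAug_rawBd, smul_zero]

end Pool.Agent.DG
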