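import Pool.Agent.MP_cff99f_al.Words

/-! Block I: the combinatorics of sites. -/

namespace Pool.Agent.DG

universe u v

variable {α : Type u} {ι : Type v} {P : Pres α ι}

namespace Comb

theorem cong_refl (x : List α) : Cong P x x := Relation.EqvGen.refl _

theorem cong_symm {x y : List α} (h : Cong P x y) : Cong P y x := Relation.EqvGen.symm _ _ h

theorem cong_trans {x y z : List α} (h : Cong P x y) (h' : Cong P y z) : Cong P x z :=
  Relation.EqvGen.trans _ _ _ h h'

theorem irr_right {a x : List α} (h : Irr P (a ++ x)) : Irr P x := by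
  have : Irr P (a ++ x ++ []) := by simpa using h
  exact irr_of_append this

theorem irr_left {x b : List α} (h : Irr P (x ++ b)) : Irr P x := by
  have : Irr P ([] ++ x ++ b) := by simpa using h
  exact irr_of_append this

theorem not_irr_mid (a : List α) (i : ι) (b : List α) : ¬ Irr P (a ++ P.lhs i ++ b) := by
  intro h
  exact (irr_iff.1 h) a i b rfl

/-- Unfolding of principality for the reversed presentation. -/
theorem prin_rev {t : List α} {e : ι} (h : Prin P.rev t.reverse e) :
    Irr P (P.lhs e ++ t).tail ∧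
      pick P.rev (P.lhs e ++ t).reverse = some (t.reverse, e) := by
  obtain ⟨h1, h2⟩ := h
  have e1 : t.reverse ++ P.rev.lhs e = (P.lhs e ++ t).reverse := by
    simp [Pres.rev]
  rw [e1] at h1 h2
  refine ⟨?_, h2⟩
  rw [List.dropLast_reverse] at h1
  exact irr_rev.1 h1

theorem f2core {u : List α} {e : ι} (h : MSite P u e) :
    ∃ (u1 : List α) (e' : ι) (l2 : List α), u1 ++ P.lhs e' ++ l2 = u ++ P.lhs e ∧
      ∀ t, Irr P t → MSite P.rev t.reverse e ∨ MSite P.rev (l2 ++ t).reverse e' := by
  classical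
  set x := u ++ P.lhs e with hx
  have hex : ∃ k, ¬ Irr P (x.take k) := by
    refine ⟨x.length, ?_⟩
    rw [List.take_length, hx]
    have := not_irr_mid (P := P) u e []
    simpa using this
  have hk : ¬ Irr P (x.take (Nat.find hex)) := Nat.find_spec hex
  set k := Nat.find hex with hkdef
  have hku : u.length < k := by
    by_contra hle
    push Not at hle
    apply hk
    have : x.take k = u.take k := by
      rw [hx, List.take_append_of_le_length hle]
    rw [this]
    have h2 : Irr P (u.take k ++ u.drop k) := by simpa using h.1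
    exact irr_left h2
  have hkx : k ≤ x.length := by
    by_contra hlt
    push Not at hlt
    have : ¬ ¬ Irr P (x.take x.length) := Nat.find_min hex hlt
    apply this
    have e1 : x.take x.length = x.take k := by
      rw [List.take_length, List.take_of_length_le hlt.le]
    rw [e1]; exact hk
  obtain ⟨j, hj⟩ : ∃ j, k = j + 1 := ⟨k - 1, by omega⟩
  have hjx : j < x.length := by omega
  have hirr : Irr P (x.take j) := by
    have : ¬ ¬ Irr P (x.take j) := Nat.find_min hex (by omega)
    exact not_not.1 this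
  have htake : x.take k = x.take j ++ [x[j]] := by
    rw [hj]; exact (List.take_append_getElem hjx).symm
  have hnot : ¬ Irr P (x.take j ++ [x[j]]) := by rw [← htake]; exact hk
  obtain ⟨u1, e', -, hdec, hprin⟩ := exists_prin hirr hnot
  rw [← htake] at hdec
  have hsplit : u1 ++ P.lhs e' ++ x.drop k = u ++ P.lhs e := by
    rw [← hdec, List.take_append_drop]
  refine ⟨u1, e', x.drop k, hsplit, ?_⟩
  set l2 := x.drop k with hl2
  -- `lhs e = d ++ l2` with `d` nonempty
  obtain ⟨d, hd, hd0⟩ : ∃ d, P.lhs e = d ++ l2 ∧ d ≠ [] := by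
    have h3 : u ++ P.lhs e = x.take k ++ l2 := by rw [hl2, List.take_append_drop]
    rcases List.append_eq_append_iff.1 h3 with ⟨d, h4, h5⟩ | ⟨c, h4, h5⟩
    · refine ⟨d, h5, ?_⟩
      rintro rfl
      have : (x.take k).length = u.length := by rw [h4]; simp
      rw [List.length_take, min_eq_left hkx] at this
      omega
    · exfalso
      have : u.length = (x.take k).length + c.length := by rw [h4]; simp
      rw [List.length_take, min_eq_left hkx] at this
      omega
  intro t ht
  by_cases hp : Prin P.rev t.reverse e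
  swap
  · exact Or.inl ⟨irr_rev.2 ht, hp⟩
  right
  obtain ⟨hA, hpick⟩ := prin_rev hp
  have hirr2 : Irr P (l2 ++ t) := by
    obtain ⟨a, d', rfl⟩ := List.exists_cons_of_ne_nil hd0
    rw [hd] at hA
    have : (a :: d' ++ l2 ++ t).tail = d' ++ (l2 ++ t) := by simp
    rw [this] at hA
    exact irr_right hA
  refine ⟨irr_rev.2 hirr2, ?_⟩
  intro hq
  obtain ⟨hB, hpick'⟩ := prin_rev hq
  have hsame : P.lhs e ++ t = P.lhs e' ++ (l2 ++ t) → u1 = u → False := by
    intro h5 h6
    rw [h5, hpick'] at hpick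
    simp only [Option.some.injEq, Prod.mk.injEq] at hpick
    obtain ⟨h7, h8⟩ := hpick
    apply h.2
    rw [← h6, ← h8]
    exact hprin
  have heq : u ++ (P.lhs e ++ t) = u1 ++ (P.lhs e' ++ (l2 ++ t)) := by
    have := congrArg (fun z => z ++ t) hsplit
    simpa [List.append_assoc] using this.symm
  rcases List.append_eq_append_iff.1 heq with ⟨c, h4, h5⟩ | ⟨c, h4, h5⟩
  · cases c with
    | nil => exact hsame (by simpa using h5) (by simpa using h4)
    | cons a c' =>
      rw [h5] at hA
      have h6 : (a :: c' ++ (P.lhs e' ++ (l2 ++ t))).tail = c' ++ P.lhs e' ++ (l2 ++ t) := by simp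
      rw [h6] at hA
      exact not_irr_mid _ _ _ hA
  · cases c with
    | nil => exact hsame (by simpa using h5.symm) (by simpa using h4.symm)
    | cons a c' =>
      rw [h5] at hB
      have h6 : (a :: c' ++ (P.lhs e ++ t)).tail = c' ++ P.lhs e ++ t := by simp
      rw [h6] at hB
      exact not_irr_mid _ _ _ hB

/-- Critical data of degree one, as triples. -/
def C1 (P : Pres α ι) (s : List α) : Set (List α × ι × List α) :=
  {x | MSite P x.1 x.2.1 ∧ Irr P x.2.2 ∧ Cong P (x.1 ++ P.lhs x.2.1 ++ x.2.2) s}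

/-- Mirrored critical data of degree one, as triples. -/
def C1' (P : Pres α ι) (s : List α) : Set (List α × ι × List α) :=
  {x | Irr P x.1 ∧ MSite P.rev x.2.2.reverse x.2.1 ∧ Cong P (x.1 ++ P.lhs x.2.1 ++ x.2.2) s}

theorem crit_one_iff (P : Pres α ι) (s : List α) : (Crit P 1 s).Finite ↔ (C1 P s).Finite := by
  have himg : Crit P 1 s = (fun x : List α × ι × List α => ([(x.1, x.2.1)], x.2.2)) '' C1 P s := by
    ext ⟨L, t⟩
    simp only [Crit, C1, Set.mem_ofPred_eq, Set.mem_image, Prod.exists, Prod.mk.injEq]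
    constructor
    · rintro ⟨h1, h2, h3, h4⟩
      obtain ⟨⟨u, e⟩, rfl⟩ := List.length_eq_one_iff.1 h1
      refine ⟨u, e, t, ⟨h2 (u, e) (by simp), h3, ?_⟩, rfl, rfl⟩
      simpa [siteWord] using h4
    · rintro ⟨u, e, t', ⟨h1, h2, h3⟩, rfl, rfl⟩
      refine ⟨rfl, ?_, h2, by simpa [siteWord] using h3⟩
      intro p hp
      simp only [List.mem_singleton] at hp
      subst hp; exact h1
  rw [himg, Set.finite_image_iff]
  rintro ⟨a, b, c⟩ - ⟨a', b', c'⟩ - h
  simp only [Prod.mk.injEq, List.cons.injEq, and_true] at h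
  obtain ⟨⟨rfl, rfl⟩, rfl⟩ := h
  rfl

theorem crit_rev_iff (P : Pres α ι) (s : List α) :
    (Crit P.rev 1 s.reverse).Finite ↔ (C1' P s).Finite := by
  rw [crit_one_iff]
  have himg : C1 P.rev s.reverse =
      (fun x : List α × ι × List α => (x.2.2.reverse, x.2.1, x.1.reverse)) '' C1' P s := by
    ext ⟨a, e, b⟩
    simp only [C1, C1', Set.mem_ofPred_eq, Set.mem_image, Prod.exists, Prod.mk.injEq]
    constructor
    · rintro ⟨h1, h2, h3⟩
      refine ⟨b.reverse, e, a.reverse, ⟨?_, ?_, ?_⟩, by simp, rfl, by simp⟩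
      · have : Irr P.rev b.reverse.reverse := by simpa using h2
        exact irr_rev.1 this
      · simpa using h1
      · apply cong_rev.1
        have e1 : (b.reverse ++ P.lhs e ++ a.reverse).reverse = a ++ P.rev.lhs e ++ b := by
          simp [Pres.rev]
        rw [e1]; exact h3
    · rintro ⟨y, e2, t, ⟨h1, h2, h3⟩, rfl, rfl, rfl⟩
      refine ⟨h2, irr_rev.2 h1, ?_⟩
      have e1 : t.reverse ++ P.rev.lhs e2 ++ y.reverse = (y ++ P.lhs e2 ++ t).reverse := by
        simp [Pres.rev]
      rw [e1]; exact cong_rev.2 h3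
  rw [himg, Set.finite_image_iff]
  rintro ⟨a, b, c⟩ - ⟨a', b', c'⟩ - h
  simp only [Prod.mk.injEq, List.reverse_inj] at h
  obtain ⟨rfl, rfl, rfl⟩ := h
  rfl

theorem C1_congr {s s' : List α} (h : Cong P s s') : C1 P s = C1 P s' := by
  ext x
  exact ⟨fun hx => ⟨hx.1, hx.2.1, cong_trans hx.2.2 h⟩,
    fun hx => ⟨hx.1, hx.2.1, cong_trans hx.2.2 (cong_symm h)⟩⟩

theorem C1'_congr {s s' : List α} (h : Cong P s s') : C1' P s = C1' P s' := by
  ext x
  exact ⟨fun hx => ⟨hx.1, hx.2.1, cong_trans hx.2.2 h⟩,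
    fun hx => ⟨hx.1, hx.2.1, cong_trans hx.2.2 (cong_symm h)⟩⟩

/-- The interpolation property of finiteness. -/
theorem f2 (hP : Complete P) (hF : ∀ s, (C1 P s).Finite ↔ (C1' P s).Finite)
    (a b g : List α) (hab : (C1 P (a ++ b)).Finite) (hbg : (C1 P (b ++ g)).Finite) :
    (C1 P b).Finite := by
  classical
  by_contra hinf
  -- one `(u, e)` occurs infinitely often
  have hmaps : Set.MapsTo (fun x : List α × ι × List α => (x.1, x.2.1)) (C1 P b)
      ((fun x : List α × ι × List α => (x.1, x.2.1)) '' (C1 P (b ++ g))) := by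
    rintro ⟨u, e, t⟩ ⟨h1, h2, h3⟩
    refine ⟨(u, e, nf P (t ++ g)), ⟨h1, irr_nf hP _, ?_⟩, rfl⟩
    have h4 : Cong P (u ++ P.lhs e ++ (t ++ g)) (b ++ g) := by
      have := cong_append h3 (cong_refl g)
      simpa [List.append_assoc] using this
    exact cong_trans (cong_append (cong_refl _) (cong_symm (cong_nf hP _))) h4
  obtain ⟨⟨u, e⟩, -, hue⟩ :
      ∃ y ∈ (fun x : List α × ι × List α => (x.1, x.2.1)) '' (C1 P (b ++ g)),
        ((C1 P b) ∩ (fun x : List α × ι × List α => (x.1, x.2.1)) ⁻¹' {y}).Infinite := by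
    by_contra hcon
    push Not at hcon
    apply hinf
    have hfin : (⋃ y ∈ (fun x : List α × ι × List α => (x.1, x.2.1)) '' (C1 P (b ++ g)),
        ((C1 P b) ∩ (fun x : List α × ι × List α => (x.1, x.2.1)) ⁻¹' {y})).Finite := by
      refine Set.Finite.biUnion (hbg.image _) ?_
      intro y hy
      exact hcon y hy
    refine hfin.subset ?_
    intro x hx
    simp only [Set.mem_iUnion]
    exact ⟨_, hmaps hx, hx, rfl⟩
  -- the set of third components
  set T : Set (List α) := {t | Irr P t ∧ Cong P (u ++ P.lhs e ++ t) b} with hT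
  have hsub : ((C1 P b) ∩ (fun x : List α × ι × List α => (x.1, x.2.1)) ⁻¹' {(u, e)}) ⊆
      (fun t => (u, e, t)) '' T := by
    rintro ⟨u', e', t⟩ ⟨⟨-, h2, h3⟩, h4⟩
    simp only [Set.mem_preimage, Set.mem_singleton_iff, Prod.mk.injEq] at h4
    obtain ⟨rfl, rfl⟩ := h4
    exact ⟨t, ⟨h2, h3⟩, rfl⟩
  have hTinf : T.Infinite := by
    intro hfin
    exact hue ((hfin.image _).subset hsub)
  have hms : MSite P u e := by
    obtain ⟨⟨u', e', t⟩, ⟨h1, -, -⟩, h4⟩ := hue.nonempty
    simp only [Set.mem_preimage, Set.mem_singleton_iff, Prod.mk.injEq] at h4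
    obtain ⟨rfl, rfl⟩ := h4
    exact h1
  obtain ⟨u1, e', l2, hdec, halt⟩ := f2core hms
  have hab' : (C1' P (a ++ b)).Finite := (hF _).1 hab
  -- split T according to the alternatives
  have hTsplit : T ⊆ {t ∈ T | MSite P.rev t.reverse e} ∪
      {t ∈ T | MSite P.rev (l2 ++ t).reverse e'} := by
    intro t ht
    rcases halt t ht.1 with h | h
    · exact Or.inl ⟨ht, h⟩
    · exact Or.inr ⟨ht, h⟩
  have hcases := hTinf.mono hTsplit
  rw [Set.infinite_union] at hcases
  rcases hcases with h | h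
  · apply h
    have : Set.MapsTo (fun t => (nf P (a ++ u), e, t)) {t ∈ T | MSite P.rev t.reverse e}
        (C1' P (a ++ b)) := by
      rintro t ⟨⟨h1, h2⟩, h3⟩
      refine ⟨irr_nf hP _, h3, ?_⟩
      have h4 : Cong P (nf P (a ++ u) ++ (P.lhs e ++ t)) ((a ++ u) ++ (P.lhs e ++ t)) :=
        cong_append (cong_symm (cong_nf hP _)) (cong_refl _)
      have h5 : Cong P (a ++ (u ++ P.lhs e ++ t)) (a ++ b) := cong_append (cong_refl a) h2
      have := cong_trans h4 (by simpa [List.append_assoc] using h5)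
      simpa [List.append_assoc] using this
    exact Set.Finite.of_finite_image (hab'.subset this.image_subset)
      (fun x _ y _ hxy => by simpa using hxy)
  · apply h
    have : Set.MapsTo (fun t => (nf P (a ++ u1), e', l2 ++ t))
        {t ∈ T | MSite P.rev (l2 ++ t).reverse e'} (C1' P (a ++ b)) := by
      rintro t ⟨⟨h1, h2⟩, h3⟩
      refine ⟨irr_nf hP _, h3, ?_⟩
      have h4 : Cong P (nf P (a ++ u1) ++ (P.lhs e' ++ (l2 ++ t)))
          ((a ++ u1) ++ (P.lhs e' ++ (l2 ++ t))) :=
        cong_append (cong_symm (cong_nf hP _)) (cong_refl _)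
      have h5 : Cong P (a ++ (u ++ P.lhs e ++ t)) (a ++ b) := cong_append (cong_refl a) h2
      rw [← hdec] at h5
      have := cong_trans h4 (by simpa [List.append_assoc] using h5)
      simpa [List.append_assoc] using this
    exact Set.Finite.of_finite_image (hab'.subset this.image_subset)
      (fun x _ y _ hxy => by simpa using hxy)

/-- Sequences of `n` sites followed by an irreducible word and a mirrored site. -/
def X (P : Pres α ι) (w : List α) (n : ℕ) :
    Set (List (List α × ι) × List α × ι × List α) :=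
  {x | x.1.length = n ∧ (∀ p ∈ x.1, MSite P p.1 p.2) ∧ Irr P x.2.1 ∧
    MSite P.rev x.2.2.2.reverse x.2.2.1 ∧
    Cong P (siteWord P x.1 x.2.1 ++ (P.lhs x.2.2.1 ++ x.2.2.2)) w}

theorem siteWord_append (L : List (List α × ι)) (s t : List α) :
    siteWord P L (s ++ t) = siteWord P L s ++ t := by
  simp [siteWord]

theorem siteWord_snoc (L : List (List α × ι)) (u : List α) (e : ι) (t : List α) :
    siteWord P (L ++ [(u, e)]) t = siteWord P L (u ++ P.lhs e ++ t) := by
  simp [siteWord]

theorem siteWord_cong (L : List (List α × ι)) {s t : List α} (h : Cong P s t) :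
    Cong P (siteWord P L s) (siteWord P L t) :=
  cong_append (cong_refl _) h

/-- (D1), finiteness downwards. -/
theorem d1_down {w : List α} {n : ℕ} (h : (Crit P (n + 1) w).Finite)
    {L : List (List α × ι)} {y : List α} (hy : (L, y) ∈ Crit P n w) : (C1 P y).Finite := by
  have : Set.MapsTo (fun x : List α × ι × List α => (L ++ [(x.1, x.2.1)], x.2.2)) (C1 P y)
      (Crit P (n + 1) w) := by
    rintro ⟨u, e, t⟩ ⟨h1, h2, h3⟩
    obtain ⟨g1, g2, g3, g4⟩ := hy
    refine ⟨by simpa using g1, ?_, h2, ?_⟩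
    · intro p hp
      rcases List.mem_append.1 hp with hp | hp
      · exact g2 p hp
      · simp only [List.mem_singleton] at hp
        subst hp; exact h1
    · change Cong P (siteWord P (L ++ [(u, e)]) t) w
      rw [siteWord_snoc]
      exact cong_trans (siteWord_cong L h3) g4
  refine Set.Finite.of_finite_image (h.subset this.image_subset) ?_
  rintro ⟨a, b, c⟩ - ⟨a', b', c'⟩ - hxy
  simp only [Prod.mk.injEq, List.append_cancel_left_eq, List.cons.injEq, and_true] at hxy
  obtain ⟨⟨rfl, rfl⟩, rfl⟩ := hxy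
  rfl

/-- (D1), finiteness upwards. -/
theorem d1_up (hP : Complete P) {w : List α} {n : ℕ} (h : (Crit P n w).Finite)
    (hc : ∀ x ∈ Crit P n w, (C1 P x.2).Finite) : (Crit P (n + 1) w).Finite := by
  have hfin : (⋃ x ∈ Crit P n w, (fun z : List α × ι × List α =>
      (x.1 ++ [(z.1, z.2.1)], z.2.2)) '' (C1 P x.2)).Finite :=
    Set.Finite.biUnion h fun x hx => (hc x hx).image _
  refine hfin.subset ?_
  rintro ⟨L, t⟩ ⟨h1, h2, h3, h4⟩
  have h1' : L.length = n + 1 := h1
  obtain ⟨L0, ⟨u, e⟩, rfl⟩ : ∃ L0 p, L = L0 ++ [p] := by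
    have hne : L ≠ [] := by
      rintro rfl; simp at h1'
    exact ⟨L.dropLast, L.getLast hne, (List.dropLast_append_getLast hne).symm⟩
  simp only [List.length_append, List.length_singleton, Nat.add_right_cancel_iff] at h1'
  have h4' : Cong P (siteWord P L0 (u ++ P.lhs e ++ t)) w := by
    rw [← siteWord_snoc]; exact h4
  simp only [Set.mem_iUnion]
  refine ⟨(L0, nf P (u ++ P.lhs e ++ t)), ⟨h1', fun p hp => h2 p (by simp [hp]), irr_nf hP _, ?_⟩,
    (u, e, t), ⟨h2 (u, e) (by simp), h3, cong_nf hP _⟩, rfl⟩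
  exact cong_trans (siteWord_cong L0 (cong_symm (cong_nf hP _))) h4'

/-- (D2), upwards. -/
theorem d2_up (hP : Complete P) {w : List α} {n : ℕ} (h : (Crit P n w).Finite)
    (hc : ∀ x ∈ Crit P n w, (C1' P x.2).Finite) : (X P w n).Finite := by
  have hfin : (⋃ x ∈ Crit P n w, (fun z : List α × ι × List α =>
      (x.1, z.1, z.2.1, z.2.2)) '' (C1' P x.2)).Finite :=
    Set.Finite.biUnion h fun x hx => (hc x hx).image _
  refine hfin.subset ?_
  rintro ⟨L, y, e, t⟩ ⟨h1, h2, h3, h4, h5⟩
  simp only [Set.mem_iUnion]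
  refine ⟨(L, nf P (y ++ P.lhs e ++ t)), ⟨h1, h2, irr_nf hP _, ?_⟩,
    (y, e, t), ⟨h3, h4, cong_nf hP _⟩, rfl⟩
  refine cong_trans (siteWord_cong L (cong_symm (cong_nf hP _))) ?_
  have h5' : Cong P (siteWord P L y ++ (P.lhs e ++ t)) w := h5
  rw [← siteWord_append] at h5'
  simpa [List.append_assoc] using h5'

/-- (D2), downwards. -/
theorem d2_down {w : List α} {n : ℕ} (h : (X P w n).Finite)
    {L : List (List α × ι)} {y : List α} (hy : (L, y) ∈ Crit P n w) : (C1' P y).Finite := by
  have : Set.MapsTo (fun x : List α × ι × List α => (L, x.1, x.2.1, x.2.2)) (C1' P y)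
      (X P w n) := by
    rintro ⟨z, e, t⟩ ⟨h1, h2, h3⟩
    obtain ⟨g1, g2, g3, g4⟩ := hy
    refine ⟨g1, g2, h1, h2, ?_⟩
    change Cong P (siteWord P L z ++ (P.lhs e ++ t)) w
    rw [← siteWord_append]
    refine cong_trans (siteWord_cong L ?_) g4
    simpa [List.append_assoc] using h3
  refine Set.Finite.of_finite_image (h.subset this.image_subset) ?_
  rintro ⟨a, b, c⟩ - ⟨a', b', c'⟩ - hxy
  simpa using hxy

/-- (D3), downwards. -/
theorem d3_down {w : List α} {n : ℕ} (h : (X P w (n + 1)).Finite)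
    {L : List (List α × ι)} {y : List α} {e : ι} {t : List α}
    (hy : (L, y, e, t) ∈ X P w n) : (C1 P y).Finite := by
  have : Set.MapsTo (fun x : List α × ι × List α => (L ++ [(x.1, x.2.1)], x.2.2, e, t)) (C1 P y)
      (X P w (n + 1)) := by
    rintro ⟨u, e', s⟩ ⟨h1, h2, h3⟩
    obtain ⟨g1, g2, g3, g4, g5⟩ := hy
    refine ⟨by simpa using g1, ?_, h2, g4, ?_⟩
    · intro p hp
      rcases List.mem_append.1 hp with hp | hp
      · exact g2 p hp
      · simp only [List.mem_singleton] at hp
        subst hp; exact h1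
    · change Cong P (siteWord P (L ++ [(u, e')]) s ++ (P.lhs e ++ t)) w
      rw [siteWord_snoc]
      exact cong_trans (cong_append (siteWord_cong L h3) (cong_refl _)) g5
  refine Set.Finite.of_finite_image (h.subset this.image_subset) ?_
  rintro ⟨a, b, c⟩ - ⟨a', b', c'⟩ - hxy
  simp only [Prod.mk.injEq, List.append_cancel_left_eq, List.cons.injEq, and_true] at hxy
  obtain ⟨⟨rfl, rfl⟩, rfl⟩ := hxy
  rfl

/-- (D3), upwards. -/
theorem d3_up (hP : Complete P) {w : List α} {n : ℕ} (h : (X P w n).Finite)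
    (hc : ∀ x ∈ X P w n, (C1 P x.2.1).Finite) : (X P w (n + 1)).Finite := by
  have hfin : (⋃ x ∈ X P w n, (fun z : List α × ι × List α =>
      (x.1 ++ [(z.1, z.2.1)], z.2.2, x.2.2.1, x.2.2.2)) '' (C1 P x.2.1)).Finite :=
    Set.Finite.biUnion h fun x hx => (hc x hx).image _
  refine hfin.subset ?_
  rintro ⟨L, y, e, t⟩ ⟨h1, h2, h3, h4, h5⟩
  have h1' : L.length = n + 1 := h1
  obtain ⟨L0, ⟨u, e1⟩, rfl⟩ : ∃ L0 p, L = L0 ++ [p] := by
    have hne : L ≠ [] := by
      rintro rfl; simp at h1'
    exact ⟨L.dropLast, L.getLast hne, (List.dropLast_append_getLast hne).symm⟩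
  simp only [List.length_append, List.length_singleton, Nat.add_right_cancel_iff] at h1'
  have h5' : Cong P (siteWord P L0 (u ++ P.lhs e1 ++ y) ++ (P.lhs e ++ t)) w := by
    rw [← siteWord_snoc]; exact h5
  simp only [Set.mem_iUnion]
  refine ⟨(L0, nf P (u ++ P.lhs e1 ++ y), e, t),
    ⟨h1', fun p hp => h2 p (by simp [hp]), irr_nf hP _, h4, ?_⟩,
    (u, e1, y), ⟨h2 (u, e1) (by simp), h3, cong_nf hP _⟩, rfl⟩
  exact cong_trans (cong_append (siteWord_cong L0 (cong_symm (cong_nf hP _))) (cong_refl _)) h5'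

theorem step (hP : Complete P) (hF : ∀ s, (C1 P s).Finite ↔ (C1' P s).Finite)
    {w : List α} {n : ℕ} (h1 : (Crit P (n + 1) w).Finite) (h2 : (Crit P (n + 2) w).Finite) :
    (Crit P (n + 3) w).Finite := by
  -- `X (n+1)` is finite
  have hX1 : (X P w (n + 1)).Finite :=
    d2_up hP h1 fun x hx => (hF _).1 (d1_down h2 (L := x.1) (y := x.2) hx)
  -- all middle parts of `X (n+1)` have finite `C1`
  have hmid : ∀ x ∈ X P w (n + 1), (C1 P x.2.1).Finite := by
    rintro ⟨L, y, e, t⟩ hx
    have hx' := hx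
    obtain ⟨g1, g2, g3, g4, g5⟩ := hx
    have g1' : L.length = n + 1 := g1
    obtain ⟨L0, ⟨u, e1⟩, rfl⟩ : ∃ L0 p, L = L0 ++ [p] := by
      have hne : L ≠ [] := by
        rintro rfl; simp at g1'
      exact ⟨L.dropLast, L.getLast hne, (List.dropLast_append_getLast hne).symm⟩
    simp only [List.length_append, List.length_singleton, Nat.add_right_cancel_iff] at g1'
    refine f2 hP hF (u ++ P.lhs e1) y (P.lhs e ++ t) ?_ ?_
    · have g5' : Cong P (siteWord P L0 (u ++ P.lhs e1 ++ y) ++ (P.lhs e ++ t)) w := by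
        rw [← siteWord_snoc]; exact g5
      have hmem : (L0, nf P (u ++ P.lhs e1 ++ y), e, t) ∈ X P w n :=
        ⟨g1', fun p hp => g2 p (by simp [hp]), irr_nf hP _, g4,
          cong_trans (cong_append (siteWord_cong L0 (cong_symm (cong_nf hP _))) (cong_refl _)) g5'⟩
      have := d3_down hX1 hmem
      rwa [C1_congr (cong_symm (cong_nf hP _))] at this
    · have hmem : (L0 ++ [(u, e1)], nf P (y ++ (P.lhs e ++ t))) ∈ Crit P (n + 1) w := by
        refine ⟨by simpa using g1', g2, irr_nf hP _, ?_⟩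
        refine cong_trans (siteWord_cong _ (cong_symm (cong_nf hP _))) ?_
        change Cong P (siteWord P (L0 ++ [(u, e1)]) (y ++ (P.lhs e ++ t))) w
        rw [siteWord_append]; exact g5
      have := d1_down h2 hmem
      rwa [C1_congr (cong_symm (cong_nf hP _))] at this
  have hX2 : (X P w (n + 2)).Finite := d3_up hP hX1 hmid
  exact d1_up hP h2 fun x hx => (hF _).2 (d2_down hX2 (L := x.1) (y := x.2) hx)

end Comb

theorem crit_finite (hP : Complete P)
    (hF : ∀ s, (Crit P 1 s).Finite ↔ (Crit P.rev 1 s.reverse).Finite)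
    (w : List α) (h1 : (Crit P 1 w).Finite) (h2 : (Crit P 2 w).Finite) (n : ℕ) :
    (Crit P n w).Finite := by
  have hF' : ∀ s, (Comb.C1 P s).Finite ↔ (Comb.C1' P s).Finite := by
    intro s
    rw [← Comb.crit_one_iff, ← Comb.crit_rev_iff]
    exact hF s
  have key : ∀ n, (Crit P (n + 1) w).Finite ∧ (Crit P (n + 2) w).Finite := by
    intro n
    induction n with
    | zero => exact ⟨h1, h2⟩
    | succ n ih => exact ⟨ih.2, Comb.step hP hF' ih.1 ih.2⟩
  cases n with
  | succ n => exact (key n).1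
  | zero =>
    refine (Set.finite_singleton (([], nf P w) : List (List α × ι) × List α)).subset ?_
    rintro ⟨L, t⟩ ⟨g1, -, g3, g4⟩
    have g1' : L = [] := List.length_eq_zero_iff.1 g1
    subst g1'
    have : t = nf P w := by
      have g4' : Cong P t w := by simpa [siteWord] using g4
      rw [← (cong_iff hP).1 g4', nf_of_irr hP g3]
    simp [this]

end Pool.Agent.DG
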