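import Pool.Agent.MP_cff99f_al.Defs

/-!
Coverings of the Squier complex and their cubical chain complexes.
-/

namespace Pool.Agent.DG

universe u v w

variable {α : Type u} {ι : Type v}

/-- A covering of the Squier complex of `P`: a set of vertices `E` lying over words, with unique
lifting of edges, compatible with inverses and squares. (The value `mv v s` is only meaningful
when the edge `s` starts at the word `lab v`.) -/
structure Cov (P : Pres α ι) where
  E : Type w
  lab : E → List α
  mv : E → SEdge α ι → E
  lab_mv : ∀ v s, s.src P = lab v → lab (mv v s) = s.tgt P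
  mv_inv : ∀ v s, s.src P = lab v → mv (mv v s) s.inv = v
  mv_sq : ∀ v (a b c : List α) (i j : ι) (p q : Bool),
    lab v = a ++ P.side i p ++ b ++ P.side j q ++ c →
    mv (mv v ⟨a, i, b ++ P.side j q ++ c, p⟩) ⟨a ++ P.side i (!p) ++ b, j, c, q⟩ =
    mv (mv v ⟨a ++ P.side i p ++ b, j, c, q⟩) ⟨a, i, b ++ P.side j (!q) ++ c, p⟩

/-- A cube of the Squier complex: a word in letters and relations (an entry `inr i` stands for
the application of the relation `i`). -/
abbrev Cube (α : Type u) (ι : Type v) : Type (max u v) := List (α ⊕ ι)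

/-- The cube (of dimension 0) given by a word. -/
def letters (x : List α) : Cube α ι := x.map Sum.inl

/-- The vertex of a cube at which all relations are replaced by their left-hand sides. -/
def Pres.top (P : Pres α ι) : Cube α ι → List α
  | [] => []
  | Sum.inl x :: q => x :: P.top q
  | Sum.inr i :: q => P.lhs i ++ P.top q

/-- The dimension of a cube. -/
def dim : Cube α ι → ℕ
  | [] => 0
  | Sum.inl _ :: q => dim q
  | Sum.inr _ :: q => dim q + 1

/-- All the ways to write a cube as `a ++ inr i :: b`. -/
def splits : Cube α ι → List (Cube α ι × ι × Cube α ι)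
  | [] => []
  | Sum.inl x :: q => (splits q).map fun s => (Sum.inl x :: s.1, s.2.1, s.2.2)
  | Sum.inr i :: q => ([], i, q) :: (splits q).map fun s => (Sum.inr i :: s.1, s.2.1, s.2.2)

variable (P : Pres α ι)

@[simp] theorem top_nil : P.top [] = [] := rfl
@[simp] theorem top_inl (x : α) (q : Cube α ι) : P.top (Sum.inl x :: q) = x :: P.top q := rfl
@[simp] theorem top_inr (i : ι) (q : Cube α ι) : P.top (Sum.inr i :: q) = P.lhs i ++ P.top q := rfl

@[simp] theorem top_append (q q' : Cube α ι) : P.top (q ++ q') = P.top q ++ P.top q' := by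
  induction q with
  | nil => rfl
  | cons c q ih => rcases c with x | i <;> simp [ih]

@[simp] theorem top_letters (x : List α) : P.top (letters x : Cube α ι) = x := by
  induction x with
  | nil => rfl
  | cons a x ih => simpa [letters] using ih

@[simp] theorem dim_nil : dim ([] : Cube α ι) = 0 := rfl
@[simp] theorem dim_inl (x : α) (q : Cube α ι) : dim (Sum.inl x :: q) = dim q := rfl
@[simp] theorem dim_inr (i : ι) (q : Cube α ι) : dim (Sum.inr i :: q) = dim q + 1 := rfl

@[simp] theorem dim_append (q q' : Cube α ι) : dim (q ++ q') = dim q + dim q' := by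
  induction q with
  | nil => simp
  | cons c q ih => rcases c with x | i <;> simp [ih]; omega

@[simp] theorem dim_letters (x : List α) : dim (letters x : Cube α ι) = 0 := by
  induction x with
  | nil => rfl
  | cons a x ih => simpa [letters] using ih

@[simp] theorem letters_nil : (letters [] : Cube α ι) = [] := rfl
@[simp] theorem letters_cons (a : α) (x : List α) :
    (letters (a :: x) : Cube α ι) = Sum.inl a :: letters x := rfl
@[simp] theorem letters_append (x y : List α) :
    (letters (x ++ y) : Cube α ι) = letters x ++ letters y := by simp [letters]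

theorem letters_injective : Function.Injective (letters : List α → Cube α ι) :=
  List.map_injective_iff.2 Sum.inl_injective

theorem mem_splits {q : Cube α ι} {s : Cube α ι × ι × Cube α ι} :
    s ∈ splits q ↔ q = s.1 ++ Sum.inr s.2.1 :: s.2.2 := by
  induction q generalizing s with
  | nil => simp [splits]
  | cons c q ih =>
    obtain ⟨a, i, b⟩ := s
    rcases c with x | j
    · simp only [splits, List.mem_map, Prod.mk.injEq]
      constructor
      · rintro ⟨⟨a', i', b'⟩, h, rfl, rfl, rfl⟩
        simpa using ih.1 h
      · intro h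
        rcases a with _ | ⟨c, a⟩
        · simp at h
        · simp only [List.cons_append, List.cons.injEq] at h
          exact ⟨(a, i, b), ih.2 h.2, by rw [h.1], rfl, rfl⟩
    · simp only [splits, List.mem_cons, List.mem_map, Prod.mk.injEq]
      constructor
      · rintro (⟨rfl, rfl, rfl⟩ | ⟨⟨a', i', b'⟩, h, rfl, rfl, rfl⟩)
        · simp
        · simpa using ih.1 h
      · intro h
        rcases a with _ | ⟨c, a⟩
        · left; simp at h; exact ⟨rfl, h.1.symm, h.2.symm⟩
        · right
          simp only [List.cons_append, List.cons.injEq] at h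
          exact ⟨(a, i, b), ih.2 h.2, by rw [h.1], rfl, rfl⟩

theorem splits_nodup (q : Cube α ι) : (splits q).Nodup := by
  induction q with
  | nil => simp [splits]
  | cons c q ih =>
    rcases c with x | j
    · refine ih.map ?_
      rintro ⟨a, i, b⟩ ⟨a', i', b'⟩ h
      simp only [Prod.mk.injEq, List.cons.injEq, true_and] at h
      simp [h]
    · refine List.nodup_cons.2 ⟨?_, ih.map ?_⟩
      · simp
      · rintro ⟨a, i, b⟩ ⟨a', i', b'⟩ h
        simp only [Prod.mk.injEq, List.cons.injEq, true_and] at h
        simp [h]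

variable {P}

/-- The cells of the covering: pairs `(v, q)` with `v` a vertex above the top word of `q`. -/
def Cov.Cell (X : Cov.{u, v, w} P) : Type (max u v w) := {c : X.E × Cube α ι // X.lab c.1 = P.top c.2}

/-- The left-hand face of `(v, a ++ inr i :: b)` at the relation `i`. -/
def Cov.lface (X : Cov.{u, v, w} P) (v : X.E) (s : Cube α ι × ι × Cube α ι) : X.E × Cube α ι :=
  (v, s.1 ++ letters (P.lhs s.2.1) ++ s.2.2)

/-- The right-hand face of `(v, a ++ inr i :: b)` at the relation `i`. -/
def Cov.rface (X : Cov.{u, v, w} P) (v : X.E) (s : Cube α ι × ι × Cube α ι) : X.E × Cube α ι :=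
  (X.mv v ⟨P.top s.1, s.2.1, P.top s.2.2, true⟩, s.1 ++ letters (P.rhs s.2.1) ++ s.2.2)

/-- The boundary of a cell, as a chain on all pairs. -/
noncomputable def Cov.rawBd (X : Cov.{u, v, w} P) (c : X.E × Cube α ι) : X.E × Cube α ι →₀ ℤ :=
  ((splits c.2).map fun s => (-1 : ℤ) ^ dim s.1 •
    (Finsupp.single (X.lface c.1 s) (1 : ℤ) - Finsupp.single (X.rface c.1 s) (1 : ℤ))).sum

/-- The boundary of a cell. -/
noncomputable def Cov.bdCell (X : Cov.{u, v, w} P) (c : X.Cell) : X.Cell →₀ ℤ :=
  (X.rawBd c.1).subtypeDomain (fun c' : X.E × Cube α ι => X.lab c'.1 = P.top c'.2)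

/-- The boundary map of the cubical chain complex of the covering `X`. -/
noncomputable def Cov.bd (X : Cov.{u, v, w} P) : (X.Cell →₀ ℤ) →ₗ[ℤ] (X.Cell →₀ ℤ) :=
  Finsupp.linearCombination ℤ X.bdCell

/-- The augmentation: the sum of the coefficients of the cells of dimension `0`. -/
noncomputable def Cov.aug (X : Cov.{u, v, w} P) : (X.Cell →₀ ℤ) →ₗ[ℤ] ℤ :=
  Finsupp.linearCombination ℤ fun c : X.Cell => if dim c.1.2 = 0 then 1 else 0

theorem Cov.bd_single (X : Cov.{u, v, w} P) (c c' : X.Cell) :
    X.bd (Finsupp.single c 1) c' = X.rawBd c.1 c'.1 := by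
  rw [Cov.bd, Finsupp.linearCombination_single, one_smul]
  rfl

open Classical in
theorem rawBd_apply (X : Cov.{u, v, w} P) (c y : X.E × Cube α ι) :
    X.rawBd c y = ((splits c.2).map fun s => (-1 : ℤ) ^ dim s.1 *
    ((if X.lface c.1 s = y then 1 else 0) - (if X.rface c.1 s = y then 1 else 0))).sum := by
  unfold Cov.rawBd
  generalize splits c.2 = l
  induction l with
  | nil => simp
  | cons s l ih =>
    simp only [List.map_cons, List.sum_cons, Finsupp.add_apply, ih, Finsupp.smul_apply,
      Finsupp.sub_apply, Finsupp.single_apply, smul_eq_mul]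

/-- Only faces occur in the boundary. -/
theorem exists_split_of_rawBd_ne (X : Cov.{u, v, w} P) {c y : X.E × Cube α ι}
    (h : X.rawBd c y ≠ 0) : ∃ s ∈ splits c.2, y = X.lface c.1 s ∨ y = X.rface c.1 s := by
  classical
  rw [rawBd_apply] at h
  by_contra hcon
  push Not at hcon
  apply h
  apply List.sum_eq_zero
  intro t ht
  obtain ⟨s, hs, rfl⟩ := List.mem_map.1 ht
  have := hcon s hs
  rw [if_neg (fun e => this.1 e.symm), if_neg (fun e => this.2 e.symm)]
  simp

/-- If a face occurs only once, its coefficient is `1` or `-1`. -/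
theorem isUnit_rawBd_of_lface (X : Cov.{u, v, w} P) {c y : X.E × Cube α ι}
    {s : Cube α ι × ι × Cube α ι} (hs : s ∈ splits c.2) (hy : y = X.lface c.1 s)
    (h1 : ∀ s' ∈ splits c.2, s' ≠ s → y ≠ X.lface c.1 s')
    (h2 : ∀ s' ∈ splits c.2, y ≠ X.rface c.1 s') : IsUnit (X.rawBd c y) := by
  classical
  have key : X.rawBd c y = (-1 : ℤ) ^ dim s.1 := by
    rw [rawBd_apply]
    have hn := splits_nodup c.2
    generalize splits c.2 = l at hs h1 h2 hn
    induction l with
    | nil => simp at hs
    | cons s' l ih =>
      rw [List.map_cons, List.sum_cons]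
      rw [List.nodup_cons] at hn
      by_cases e : s' = s
      · subst e
        have hrest : (l.map fun s'' => (-1 : ℤ) ^ dim s''.1 *
            ((if X.lface c.1 s'' = y then 1 else 0) - (if X.rface c.1 s'' = y then 1 else 0))).sum
            = 0 := by
          apply List.sum_eq_zero
          intro t ht
          obtain ⟨s'', hs'', rfl⟩ := List.mem_map.1 ht
          have hne : s'' ≠ s' := fun e => hn.1 (e ▸ hs'')
          rw [if_neg (fun e => h1 s'' (List.mem_cons_of_mem _ hs'') hne e.symm),
            if_neg (fun e => h2 s'' (List.mem_cons_of_mem _ hs'') e.symm)]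
          simp
        rw [hrest, if_pos hy.symm, if_neg (fun e => h2 s' List.mem_cons_self e.symm)]
        simp
      · have hs2 : s ∈ l := by
          rcases List.mem_cons.1 hs with h | h
          · exact absurd h.symm e
          · exact h
        rw [ih hs2 (fun s'' h => h1 s'' (List.mem_cons_of_mem _ h))
          (fun s'' h => h2 s'' (List.mem_cons_of_mem _ h)) hn.2,
          if_neg (fun e' => h1 s' List.mem_cons_self e e'.symm),
          if_neg (fun e' => h2 s' List.mem_cons_self e'.symm)]
        simp
  rw [key]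
  exact (isUnit_one.neg).pow _

theorem isUnit_rawBd_of_rface (X : Cov.{u, v, w} P) {c y : X.E × Cube α ι}
    {s : Cube α ι × ι × Cube α ι} (hs : s ∈ splits c.2) (hy : y = X.rface c.1 s)
    (h1 : ∀ s' ∈ splits c.2, s' ≠ s → y ≠ X.rface c.1 s')
    (h2 : ∀ s' ∈ splits c.2, y ≠ X.lface c.1 s') : IsUnit (X.rawBd c y) := by
  classical
  have key : X.rawBd c y = -(-1 : ℤ) ^ dim s.1 := by
    rw [rawBd_apply]
    have hn := splits_nodup c.2
    generalize splits c.2 = l at hs h1 h2 hn
    induction l with
    | nil => simp at hs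
    | cons s' l ih =>
      rw [List.map_cons, List.sum_cons]
      rw [List.nodup_cons] at hn
      by_cases e : s' = s
      · subst e
        have hrest : (l.map fun s'' => (-1 : ℤ) ^ dim s''.1 *
            ((if X.lface c.1 s'' = y then 1 else 0) - (if X.rface c.1 s'' = y then 1 else 0))).sum
            = 0 := by
          apply List.sum_eq_zero
          intro t ht
          obtain ⟨s'', hs'', rfl⟩ := List.mem_map.1 ht
          have hne : s'' ≠ s' := fun e => hn.1 (e ▸ hs'')
          rw [if_neg (fun e => h2 s'' (List.mem_cons_of_mem _ hs'') e.symm),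
            if_neg (fun e => h1 s'' (List.mem_cons_of_mem _ hs'') hne e.symm)]
          simp
        rw [hrest, if_pos hy.symm, if_neg (fun e => h2 s' List.mem_cons_self e.symm)]
        simp
      · have hs2 : s ∈ l := by
          rcases List.mem_cons.1 hs with h | h
          · exact absurd h.symm e
          · exact h
        rw [ih hs2 (fun s'' h => h1 s'' (List.mem_cons_of_mem _ h))
          (fun s'' h => h2 s'' (List.mem_cons_of_mem _ h)) hn.2,
          if_neg (fun e' => h2 s' List.mem_cons_self e'.symm),
          if_neg (fun e' => h1 s' List.mem_cons_self e e'.symm)]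
        simp
  rw [key]
  exact ((isUnit_one.neg).pow _).neg

/-- Faces of cells are cells. -/
theorem Cov.lface_valid (X : Cov.{u, v, w} P) {c : X.E × Cube α ι} (hc : X.lab c.1 = P.top c.2)
    {s : Cube α ι × ι × Cube α ι} (hs : s ∈ splits c.2) :
    X.lab (X.lface c.1 s).1 = P.top (X.lface c.1 s).2 := by
  rw [mem_splits] at hs
  simp [Cov.lface, hc, hs]

theorem Cov.rface_valid (X : Cov.{u, v, w} P) {c : X.E × Cube α ι} (hc : X.lab c.1 = P.top c.2)
    {s : Cube α ι × ι × Cube α ι} (hs : s ∈ splits c.2) :
    X.lab (X.rface c.1 s).1 = P.top (X.rface c.1 s).2 := by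
  rw [mem_splits] at hs
  have : (⟨P.top s.1, s.2.1, P.top s.2.2, true⟩ : SEdge α ι).src P = X.lab c.1 := by
    simp [SEdge.src, hc, hs]
  simp [Cov.rface, X.lab_mv _ _ this, SEdge.tgt]

theorem dim_lface (X : Cov.{u, v, w} P) {c : X.E × Cube α ι} {s : Cube α ι × ι × Cube α ι}
    (hs : s ∈ splits c.2) : dim (X.lface c.1 s).2 + 1 = dim c.2 := by
  rw [mem_splits] at hs
  simp [Cov.lface, hs]; omega

theorem dim_rface (X : Cov.{u, v, w} P) {c : X.E × Cube α ι} {s : Cube α ι × ι × Cube α ι}
    (hs : s ∈ splits c.2) : dim (X.rface c.1 s).2 + 1 = dim c.2 := by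
  rw [mem_splits] at hs
  simp [Cov.rface, hs]; omega

/-! ### Two coverings -/

variable (P)

open Classical in
/-- Moving a word along an edge. -/
noncomputable def wordMv (x : List α) (s : SEdge α ι) : List α := if s.src P = x then s.tgt P else x

theorem wordMv_of (x : List α) (s : SEdge α ι) (h : s.src P = x) : wordMv P x s = s.tgt P := by
  simp [wordMv, h]

/-- The trivial covering: the Squier complex itself. -/
noncomputable def wordCov : Cov.{u, v, u} P where
  E := List α
  lab := fun x => x
  mv := wordMv P
  lab_mv := by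
    intro x s h
    exact wordMv_of P x s h
  mv_inv := by
    intro x s h
    have h' : s.src P = x := h
    rw [wordMv_of P x s h', wordMv_of P _ s.inv (by simp)]
    simpa using h'
  mv_sq := by
    intro x a b c i j p q h
    have h' : x = a ++ P.side i p ++ b ++ P.side j q ++ c := h
    rw [wordMv_of P x _ (by simp [SEdge.src, h']), wordMv_of P x _ (by simp [SEdge.src, h']),
      wordMv_of P _ _ (by simp [SEdge.src, SEdge.tgt]),
      wordMv_of P _ _ (by simp [SEdge.src, SEdge.tgt])]
    simp [SEdge.tgt]

/-- The vertices of the universal covering of the component of the word `x`. -/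
def Vert (x : List α) : Type (max u v) := Σ y : List α, Hpt P x y

variable {P}

/-- The class of a single edge. -/
def Hpt.edge (P : Pres α ι) (s : SEdge α ι) : Hpt P (s.src P) (s.tgt P) :=
  Hpt.mk P [s] ⟨rfl, rfl⟩

/-- Transport of a homotopy class along an equality of end points. -/
def Hpt.cast {x y y' : List α} (h : y = y') (a : Hpt P x y) : Hpt P x y' := h ▸ a

theorem Hpt.cast_mk {x y y' : List α} (h : y = y') {l : List (SEdge α ι)} (hl : IsPath P x l y) :
    Hpt.cast h (Hpt.mk P l hl) = Hpt.mk P l (h ▸ hl) := by
  subst h; rfl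

/-- Moving a vertex of the universal covering along an edge. -/
noncomputable def Vert.mv {x : List α} (v : Vert P x) (s : SEdge α ι) : Vert P x := by
  classical
  exact if h : v.1 = s.src P then ⟨s.tgt P, (Hpt.cast h v.2).comp (Hpt.edge P s)⟩ else v

/-- The vertex given by a path. -/
def Vert.mk (P : Pres α ι) {x y : List α} (l : List (SEdge α ι)) (h : IsPath P x l y) : Vert P x :=
  ⟨y, Hpt.mk P l h⟩

theorem Vert.ind {x : List α} {M : Vert P x → Prop}
    (h : ∀ y l (hl : IsPath P x l y), M (Vert.mk P l hl)) (a : Vert P x) : M a := by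
  obtain ⟨y, a⟩ := a
  induction a using Hpt.ind with
  | _ l hl => exact h y l hl

theorem Vert.sound {x y : List α} {l l' : List (SEdge α ι)}
    (hl : IsPath P x l y) (hl' : IsPath P x l' y) (h : Elem P l l') :
    Vert.mk P l hl = Vert.mk P l' hl' := by
  unfold Vert.mk
  rw [Hpt.sound hl hl' h]

theorem Vert.mk_mv {x y : List α} {l : List (SEdge α ι)} (hl : IsPath P x l y) (s : SEdge α ι)
    (h : s.src P = y) :
    (Vert.mk P l hl).mv s = Vert.mk P (l ++ [s]) (isPath_append P hl ⟨h, rfl⟩) := by
  subst h
  unfold Vert.mv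
  exact (dif_pos (rfl : (Vert.mk P l hl).1 = s.src P)).trans rfl

theorem Vert.mk_congr {x y y' : List α} {l l' : List (SEdge α ι)} (hl : IsPath P x l y)
    (e : l = l') (e' : y = y') : Vert.mk P l hl = Vert.mk P l' (e ▸ e' ▸ hl) := by
  subst e; subst e'; rfl

variable (P)

/-- The universal covering of the component of the word `x`. -/
noncomputable def univCov (x : List α) : Cov.{u, v, max u v} P where
  E := Vert P x
  lab v := v.1
  mv v s := v.mv s
  lab_mv := by
    intro v s h
    induction v using Vert.ind with
    | _ y l hl => rw [Vert.mk_mv hl s h]; rfl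
  mv_inv := by
    intro v s h
    induction v using Vert.ind with
    | _ y l hl =>
      rw [Vert.mk_mv hl s h, Vert.mk_mv _ s.inv (by simp)]
      have h' : s.src P = y := h
      subst h'
      have e := Elem.cancel (P := P) l [] s
      have := Vert.sound (P := P) (x := x) (y := s.src P)
        (l := l ++ s :: s.inv :: []) (l' := l ++ [])
        (by
          refine isPath_append P hl ⟨rfl, by simp, ?_⟩
          simp [IsPath]) (by simpa using hl) e
      simp only [List.append_nil] at this
      rw [← this]
      refine (Vert.mk_congr _ (by simp) (by simp)).trans rfl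
  mv_sq := by
    intro v a b c i j p q h
    induction v using Vert.ind with
    | _ y l hl =>
      have h' : y = a ++ P.side i p ++ b ++ P.side j q ++ c := h
      subst h'
      rw [Vert.mk_mv hl ⟨a, i, b ++ P.side j q ++ c, p⟩ (by simp [SEdge.src]),
        Vert.mk_mv _ _ (by simp [SEdge.src, SEdge.tgt]),
        Vert.mk_mv hl ⟨a ++ P.side i p ++ b, j, c, q⟩ (by simp [SEdge.src]),
        Vert.mk_mv _ _ (by simp [SEdge.src, SEdge.tgt])]
      have e := Elem.square (P := P) l [] a b c i j p q
      have hy : (⟨a ++ P.side i (!p) ++ b, j, c, q⟩ : SEdge α ι).tgt P =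
        (⟨a, i, b ++ P.side j (!q) ++ c, p⟩ : SEdge α ι).tgt P := by simp [SEdge.tgt]
      refine (Vert.mk_congr _ (l' := l ++ ⟨a, i, b ++ P.side j q ++ c, p⟩ ::
        ⟨a ++ P.side i (!p) ++ b, j, c, q⟩ :: []) (by simp) hy).trans ?_
      refine (Vert.sound _ ?_ e).trans ?_
      · refine isPath_append P hl ⟨by simp [SEdge.src], ?_⟩
        refine ⟨by simp [SEdge.src, SEdge.tgt], rfl⟩
      · exact Vert.mk_congr _ (by simp) rfl

end Pool.Agent.DG
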