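import Pool.Agent.MP_cff99f_al.Words

/-! Block F: the matching of the cubes of a complete presentation. -/

namespace Pool.Agent.DG

universe u v

variable {α : Type u} {ι : Type v} {P : Pres α ι}

/-- The part of a critical cube coming from the sites. -/
def siteCube (L : List (List α × ι)) : Cube α ι := L.flatMap (fun p => letters p.1 ++ [Sum.inr p.2])

theorem siteCube_nil : siteCube ([] : List (List α × ι)) = [] := rfl

theorem siteCube_append (L L' : List (List α × ι)) :
    siteCube (L ++ L') = siteCube L ++ siteCube L' := by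
  simp [siteCube]

theorem siteCube_cons (p : List α × ι) (L : List (List α × ι)) :
    siteCube (p :: L) = letters p.1 ++ [Sum.inr p.2] ++ siteCube L := by
  simp [siteCube]

theorem siteCube_single (p : List α × ι) :
    siteCube [p] = letters p.1 ++ [Sum.inr p.2] := by
  simp [siteCube]

theorem critCube_eq (L : List (List α × ι)) (t : List α) :
    critCube L t = siteCube L ++ letters t := rfl

/-- All members of the list are sites. -/
def AllSites (P : Pres α ι) (L : List (List α × ι)) : Prop := ∀ p ∈ L, MSite P p.1 p.2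

/-- The possible results of scanning a cube. -/
abbrev ScanRes (α : Type u) (ι : Type v) : Type (max u v) :=
  Option ((List (List α × ι) × List α × α × Cube α ι) ⊕ (List (List α × ι) × List α × ι × Cube α ι))

open Classical in
/-- Scanning a cube from the left, looking for the first trigger. -/
noncomputable def scan (P : Pres α ι) : List (List α × ι) → List α → Cube α ι → ScanRes α ι
  | _, _, [] => none
  | L, u, Sum.inl x :: q =>
    if Irr P (u ++ [x]) then scan P L (u ++ [x]) q else some (Sum.inl (L, u, x, q))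
  | L, u, Sum.inr e :: q =>
    if Prin P u e then some (Sum.inr (L, u, e, q)) else scan P (L ++ [(u, e)]) [] q

/-- The meaning of the result of the scan. -/
def Spec (P : Pres α ι) (q : Cube α ι) : ScanRes α ι → Prop
  | none => ∃ L t, AllSites P L ∧ Irr P t ∧ q = siteCube L ++ letters t
  | some (Sum.inl (L, v, x, rest)) => AllSites P L ∧ Irr P v ∧ ¬ Irr P (v ++ [x]) ∧
      q = siteCube L ++ letters (v ++ [x]) ++ rest
  | some (Sum.inr (L, v, e, rest)) => AllSites P L ∧ Prin P v e ∧
      q = siteCube L ++ letters v ++ Sum.inr e :: rest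

theorem irr_nil' : Irr P [] := by
  rw [irr_iff]
  intro a i b h
  have h1 := congrArg List.length h
  simp only [List.length_nil, List.length_append] at h1
  exact P.lhs_ne i (List.length_eq_zero_iff.1 (by omega))

theorem irr_pre {x y : List α} (h : Irr P (x ++ y)) : Irr P x :=
  irr_of_append (a := []) (b := y) (by simpa using h)

theorem not_irr_lhs (u : List α) (i : ι) (w : List α) : ¬ Irr P (u ++ P.lhs i ++ w) := by
  rw [irr_iff]
  intro h
  exact h u i w rfl

theorem AllSites.snoc {L : List (List α × ι)} (hL : AllSites P L) {u : List α} {e : ι}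
    (h : MSite P u e) : AllSites P (L ++ [(u, e)]) := by
  intro p hp
  rcases List.mem_append.1 hp with hp | hp
  · exact hL p hp
  · rw [List.mem_singleton] at hp
    subst hp
    exact h

theorem scan_spec (q : Cube α ι) : ∀ (L : List (List α × ι)) (u : List α), AllSites P L → Irr P u →
    Spec P (siteCube L ++ letters u ++ q) (scan P L u q) := by
  induction q with
  | nil =>
    intro L u hL hu
    rw [scan]
    exact ⟨L, u, hL, hu, by simp⟩
  | cons c q ih =>
    intro L u hL hu
    rcases c with x | e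
    · rw [scan]
      by_cases h : Irr P (u ++ [x])
      · rw [if_pos h]
        have := ih L (u ++ [x]) hL h
        simpa using this
      · rw [if_neg h]
        exact ⟨hL, hu, h, by simp⟩
    · rw [scan]
      by_cases h : Prin P u e
      · rw [if_pos h]
        exact ⟨hL, h, rfl⟩
      · rw [if_neg h]
        have := ih (L ++ [(u, e)]) [] (hL.snoc ⟨hu, h⟩) irr_nil'
        simpa [siteCube_append, siteCube_single] using this

theorem scan_letters (w : List α) : ∀ (L : List (List α × ι)) (u : List α) (q : Cube α ι),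
    Irr P (u ++ w) → scan P L u (letters w ++ q) = scan P L (u ++ w) q := by
  induction w with
  | nil => intro L u q _; simp
  | cons x w ih =>
    intro L u q h
    have h1 : Irr P (u ++ [x] ++ w) := by simpa using h
    rw [letters_cons, List.cons_append, scan, if_pos (irr_pre h1), ih L (u ++ [x]) q h1]
    simp

theorem scan_sites (L' : List (List α × ι)) : ∀ (L : List (List α × ι)) (q : Cube α ι),
    AllSites P L' → scan P L [] (siteCube L' ++ q) = scan P (L ++ L') [] q := by
  induction L' with
  | nil => intro L q _; simp [siteCube_nil]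
  | cons p L' ih =>
    intro L q h
    have hp : MSite P p.1 p.2 := h p List.mem_cons_self
    have hL' : AllSites P L' := fun p' hp' => h p' (List.mem_cons_of_mem _ hp')
    have e1 : siteCube (p :: L') ++ q = letters p.1 ++ (Sum.inr p.2 :: (siteCube L' ++ q)) := by
      simp [siteCube_cons]
    rw [e1, scan_letters p.1 L [] _ (by simpa using hp.1), scan, if_neg (by simpa using hp.2),
      ih _ q hL']
    simp

theorem spec_scan {q : Cube α ι} {r : ScanRes α ι} (h : Spec P q r) : scan P [] [] q = r := by
  rcases r with _ | (⟨L, v, x, rest⟩ | ⟨L, v, e, rest⟩)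
  · obtain ⟨L, t, hL, ht, rfl⟩ := h
    have := scan_letters t L [] [] (P := P) (by simpa using ht)
    rw [scan_sites L [] _ hL]
    simp only [List.nil_append, List.append_nil] at this ⊢
    rw [this, scan]
  · obtain ⟨hL, hv, hx, rfl⟩ := h
    have e1 : siteCube L ++ letters (v ++ [x]) ++ rest =
        siteCube L ++ (letters v ++ (Sum.inl x :: rest)) := by simp
    rw [e1, scan_sites L [] _ hL, scan_letters v _ [] _ (by simpa using hv), scan,
      if_neg (by simpa using hx)]
    simp
  · obtain ⟨hL, hv, rfl⟩ := h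
    have e1 : siteCube L ++ letters v ++ Sum.inr e :: rest =
        siteCube L ++ (letters v ++ (Sum.inr e :: rest)) := by simp
    rw [e1, scan_sites L [] _ hL, scan_letters v _ [] _ (by simpa using hv.irr), scan,
      if_pos (by simpa using hv)]
    simp

theorem spec_iff {q : Cube α ι} {r : ScanRes α ι} : Spec P q r ↔ scan P [] [] q = r := by
  constructor
  · exact spec_scan
  · rintro rfl
    have := scan_spec (P := P) q [] [] (by intro p hp; simp at hp) irr_nil'
    simpa [siteCube_nil] using this

/-- The cubes whose first trigger is a letter. -/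
def Uc (P : Pres α ι) : Set (Cube α ι) := {q | ∃ a, scan P [] [] q = some (Sum.inl a)}

/-- The cubes whose first trigger is a relation. -/
def Dc (P : Pres α ι) : Set (Cube α ι) := {q | ∃ a, scan P [] [] q = some (Sum.inr a)}

/-- The partner of a cube. -/
noncomputable def mu (P : Pres α ι) (q : Cube α ι) : Cube α ι :=
  match scan P [] [] q with
  | some (Sum.inl (L, v, x, rest)) =>
    match pick P (v ++ [x]) with
    | some (u', e) => siteCube L ++ letters u' ++ Sum.inr e :: rest
    | none => q
  | _ => q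

/-- The position of the trigger. -/
noncomputable def trig (P : Pres α ι) (q : Cube α ι) : ℕ :=
  match scan P [] [] q with
  | some (Sum.inl (L, v, _, _)) => (P.top (siteCube L)).length + v.length + 1
  | _ => 0

/-- The order of the matching. -/
def rel (P : Pres α ι) (y q : Cube α ι) : Prop :=
  Relation.TransGen (Step P) (P.top q) (P.top y) ∨ (P.top y = P.top q ∧ trig P y < trig P q)

theorem rel_wf (hP : Complete P) : WellFounded (rel P) := by
  have h1 := wf_transGen hP
  have h2 : WellFounded (fun (a b : ℕ) => a < b) := wellFounded_lt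
  have h3 := (h1.prod_lex h2)
  have h4 : WellFounded (InvImage (Prod.Lex (fun y x => Relation.TransGen (Step P) x y)
    (fun (a b : ℕ) => a < b)) (fun q : Cube α ι => (P.top q, trig P q))) := InvImage.wf _ h3
  refine Subrelation.wf ?_ h4
  intro y q h
  rcases h with h | ⟨h, h'⟩
  · exact Prod.Lex.left _ _ h
  · change Prod.Lex _ _ (P.top y, trig P y) (P.top q, trig P q)
    rw [h]
    exact Prod.Lex.right _ h'

/-- The first trigger inside a reducible word. -/
theorem first_trigger (w : List α) : ∀ (u : List α), Irr P u → ¬ Irr P (u ++ w) →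
    ∃ v x w₂, u ++ w = v ++ [x] ++ w₂ ∧ Irr P v ∧ ¬ Irr P (v ++ [x]) := by
  induction w with
  | nil => intro u hu h; simp at h; exact absurd hu h
  | cons y w ih =>
    intro u hu h
    by_cases h1 : Irr P (u ++ [y])
    · obtain ⟨v, x, w₂, h2, h3⟩ := ih (u ++ [y]) h1 (by simpa using h)
      exact ⟨v, x, w₂, by simpa using h2, h3⟩
    · exact ⟨u, y, w, by simp, hu, h1⟩

/-- Everything about a cube in `Uc`. -/
theorem mem_Uc {q : Cube α ι} (hq : q ∈ Uc P) : ∃ L v x rest u' e,
    AllSites P L ∧ Irr P v ∧ ¬ Irr P (v ++ [x]) ∧ q = siteCube L ++ letters (v ++ [x]) ++ rest ∧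
    pick P (v ++ [x]) = some (u', e) ∧ v ++ [x] = u' ++ P.lhs e ∧ Prin P u' e ∧
    mu P q = siteCube L ++ letters u' ++ Sum.inr e :: rest ∧
    trig P q = (P.top (siteCube L)).length + v.length + 1 := by
  obtain ⟨⟨L, v, x, rest⟩, h⟩ := hq
  have hs := spec_iff.2 h
  obtain ⟨hL, hv, hx, hq⟩ := hs
  obtain ⟨u', e, h1, h2, h3⟩ := exists_prin hv hx
  refine ⟨L, v, x, rest, u', e, hL, hv, hx, hq, h1, h2, h3, ?_, ?_⟩
  · simp only [mu, h, h1]
  · simp only [trig, h]

theorem mem_Uc_of {L : List (List α × ι)} {v : List α} {x : α} {rest : Cube α ι}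
    (hL : AllSites P L) (hv : Irr P v) (hx : ¬ Irr P (v ++ [x])) :
    siteCube L ++ letters (v ++ [x]) ++ rest ∈ Uc P ∧
    trig P (siteCube L ++ letters (v ++ [x]) ++ rest) =
      (P.top (siteCube L)).length + v.length + 1 := by
  have h := spec_scan (P := P) (q := siteCube L ++ letters (v ++ [x]) ++ rest)
    (r := some (Sum.inl (L, v, x, rest))) ⟨hL, hv, hx, rfl⟩
  refine ⟨⟨_, h⟩, ?_⟩
  simp only [trig, h]

theorem mem_Dc_of {L : List (List α × ι)} {v : List α} {e : ι} {rest : Cube α ι}
    (hL : AllSites P L) (hv : Prin P v e) :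
    siteCube L ++ letters v ++ Sum.inr e :: rest ∈ Dc P :=
  ⟨_, spec_scan (P := P) (r := some (Sum.inr (L, v, e, rest))) ⟨hL, hv, rfl⟩⟩

theorem disj_UD : Disjoint (Uc P) (Dc P) := by
  rw [Set.disjoint_left]
  rintro q ⟨a, ha⟩ ⟨b, hb⟩
  rw [ha] at hb
  simp at hb

theorem mu_bij : Set.BijOn (mu P) (Uc P) (Dc P) := by
  refine ⟨?_, ?_, ?_⟩
  · intro q hq
    obtain ⟨L, v, x, rest, u', e, hL, hv, hx, hq', h1, h2, h3, h4, h5⟩ := mem_Uc hq
    rw [h4]
    exact mem_Dc_of hL h3
  · intro q₁ hq₁ q₂ hq₂ heq
    obtain ⟨L, v, x, rest, u', e, hL, hv, hx, hq', h1, h2, h3, h4, h5⟩ := mem_Uc hq₁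
    obtain ⟨L', v', x', rest', u'', e', hL', hv', hx', hq'', h1', h2', h3', h4', h5'⟩ := mem_Uc hq₂
    rw [h4, h4'] at heq
    have s1 := spec_scan (P := P) (q := siteCube L ++ letters u' ++ Sum.inr e :: rest)
      (r := some (Sum.inr (L, u', e, rest))) ⟨hL, h3, rfl⟩
    have s2 := spec_scan (P := P) (q := siteCube L' ++ letters u'' ++ Sum.inr e' :: rest')
      (r := some (Sum.inr (L', u'', e', rest'))) ⟨hL', h3', rfl⟩
    rw [heq, s2] at s1
    simp only [Option.some.injEq, Sum.inr.injEq, Prod.mk.injEq] at s1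
    obtain ⟨rfl, rfl, rfl, rfl⟩ := s1
    rw [hq', hq'', h2, h2']
  · intro q hq
    obtain ⟨⟨L, u', e, rest⟩, h⟩ := hq
    obtain ⟨hL, hv, hq⟩ := spec_iff.2 h
    have hne : u' ++ P.lhs e ≠ [] := by
      intro h0
      have := congrArg List.length h0
      simp at this
      exact P.lhs_ne e this.2
    obtain ⟨v, x, hvx⟩ : ∃ v x, u' ++ P.lhs e = v ++ [x] :=
      ⟨_, _, (List.dropLast_append_getLast hne).symm⟩
    have hv1 : Irr P v := by
      have := hv.1
      rw [hvx] at this
      simpa using this
    have hx1 : ¬ Irr P (v ++ [x]) := by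
      rw [← hvx]
      have := not_irr_lhs (P := P) u' e []
      simpa using this
    have hU := mem_Uc_of (P := P) (rest := rest) hL hv1 hx1
    refine ⟨_, hU.1, ?_⟩
    have hs := spec_scan (P := P) (q := siteCube L ++ letters (v ++ [x]) ++ rest)
      (r := some (Sum.inl (L, v, x, rest))) ⟨hL, hv1, hx1, rfl⟩
    have hp : pick P (v ++ [x]) = some (u', e) := by
      rw [← hvx]; exact hv.2
    simp only [mu, hs, hp]
    exact hq.symm

/-- Splittings of a sequence of sites. -/
theorem siteCube_split (L : List (List α × ι)) : ∀ {a : Cube α ι} {i : ι} {b : Cube α ι},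
    siteCube L = a ++ Sum.inr i :: b →
    ∃ L₁ u₁ L₂, L = L₁ ++ (u₁, i) :: L₂ ∧ a = siteCube L₁ ++ letters u₁ ∧ b = siteCube L₂ := by
  induction L with
  | nil =>
    intro a i b h
    simp [siteCube_nil] at h
  | cons p L ih =>
    intro a i b h
    obtain ⟨u, e⟩ := p
    rw [siteCube_cons] at h
    have h' : letters u ++ (Sum.inr e :: siteCube L) = a ++ Sum.inr i :: b := by simpa using h
    rcases List.append_eq_append_iff.1 h' with ⟨c, h1, h2⟩ | ⟨c, h1, h2⟩
    · rcases c with _ | ⟨c, c'⟩
      · simp only [List.append_nil, List.nil_append, List.cons.injEq, Sum.inr.injEq] at h1 h2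
        obtain ⟨rfl, rfl⟩ := h2
        exact ⟨[], u, L, by simp, by simp [siteCube_nil, h1], rfl⟩
      · simp only [List.cons_append, List.cons.injEq] at h2
        obtain ⟨rfl, h2⟩ := h2
        obtain ⟨L₁, u₁, L₂, e1, e2, e3⟩ := ih h2
        exact ⟨(u, e) :: L₁, u₁, L₂, by simp [e1], by simp [h1, e2, siteCube_cons], e3⟩
    · rcases c with _ | ⟨c, c'⟩
      · simp only [List.append_nil, List.nil_append, List.cons.injEq, Sum.inr.injEq] at h1 h2
        obtain ⟨rfl, rfl⟩ := h2
        exact ⟨[], u, L, by simp, by simp [siteCube_nil, h1], rfl⟩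
      · exfalso
        simp only [List.cons_append, List.cons.injEq] at h2
        obtain ⟨rfl, h2⟩ := h2
        have : (Sum.inr i : α ⊕ ι) ∈ (letters u : Cube α ι) := by
          rw [h1]; simp
        simp [letters] at this

/-- The splittings of the partner of a cube. -/
theorem split_cases {L : List (List α × ι)} {u : List α} {e : ι} {rest a b : Cube α ι} {i : ι}
    (h : siteCube L ++ letters u ++ Sum.inr e :: rest = a ++ Sum.inr i :: b) :
    (∃ b', siteCube L = a ++ Sum.inr i :: b' ∧ b = b' ++ letters u ++ Sum.inr e :: rest) ∨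
    (a = siteCube L ++ letters u ∧ i = e ∧ b = rest) ∨
    (∃ b'', a = siteCube L ++ letters u ++ Sum.inr e :: b'' ∧ rest = b'' ++ Sum.inr i :: b) := by
  rcases List.append_eq_append_iff.1 h with ⟨c, h1, h2⟩ | ⟨c, h1, h2⟩
  · rcases c with _ | ⟨c, c'⟩
    · simp only [List.append_nil, List.nil_append, List.cons.injEq, Sum.inr.injEq] at h1 h2
      obtain ⟨rfl, rfl⟩ := h2
      exact Or.inr (Or.inl ⟨h1, rfl, rfl⟩)
    · simp only [List.cons_append, List.cons.injEq] at h2
      obtain ⟨rfl, h2⟩ := h2
      exact Or.inr (Or.inr ⟨c', h1, h2⟩)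
  · rcases c with _ | ⟨c, c'⟩
    · simp only [List.append_nil, List.nil_append, List.cons.injEq, Sum.inr.injEq] at h1 h2
      obtain ⟨rfl, rfl⟩ := h2
      exact Or.inr (Or.inl ⟨h1.symm, rfl, rfl⟩)
    · simp only [List.cons_append, List.cons.injEq] at h2
      obtain ⟨rfl, h2⟩ := h2
      left
      rcases List.append_eq_append_iff.1 h1 with ⟨d, h3, h4⟩ | ⟨d, h3, h4⟩
      · exfalso
        have : (Sum.inr i : α ⊕ ι) ∈ (letters u : Cube α ι) := by
          rw [h4]; simp
        simp [letters] at this
      · rcases d with _ | ⟨d, d'⟩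
        · exfalso
          simp only [List.nil_append] at h4
          have : (Sum.inr i : α ⊕ ι) ∈ (letters u : Cube α ι) := by
            rw [← h4]; simp
          simp [letters] at this
        · simp only [List.cons_append, List.cons.injEq] at h4
          obtain ⟨rfl, h4⟩ := h4
          exact ⟨d', h3, by rw [h2, h4]⟩

/-- A left-hand face at a site is in `Uc`, with an earlier trigger. -/
theorem face_at_site {L₁ L₂ : List (List α × ι)} {u₁ : List α} {i : ι} (rest : Cube α ι)
    (hL : AllSites P (L₁ ++ (u₁, i) :: L₂)) :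
    trig P (siteCube L₁ ++ letters u₁ ++ letters (P.lhs i) ++ rest) ≤
      (P.top (siteCube (L₁ ++ (u₁, i) :: L₂))).length := by
  have hL₁ : AllSites P L₁ := fun p hp => hL p (List.mem_append_left _ hp)
  have hu₁ : MSite P u₁ i := hL (u₁, i) (by simp)
  have hnot : ¬ Irr P (u₁ ++ P.lhs i) := by
    have := not_irr_lhs (P := P) u₁ i []
    simpa using this
  obtain ⟨v, x, w₂, h1, h2, h3⟩ := first_trigger (P.lhs i) u₁ hu₁.1 hnot
  have e1 : siteCube L₁ ++ letters u₁ ++ letters (P.lhs i) ++ rest =
      siteCube L₁ ++ letters (v ++ [x]) ++ (letters w₂ ++ rest) := by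
    have : (letters u₁ ++ letters (P.lhs i) : Cube α ι) = letters (v ++ [x]) ++ letters w₂ := by
      rw [← letters_append, h1, letters_append]
    calc siteCube L₁ ++ letters u₁ ++ letters (P.lhs i) ++ rest
        = siteCube L₁ ++ (letters u₁ ++ letters (P.lhs i)) ++ rest := by
          simp only [List.append_assoc]
      _ = _ := by rw [this]; simp only [List.append_assoc]
  rw [e1, (mem_Uc_of hL₁ h2 h3).2]
  have hlen := congrArg List.length h1
  simp only [List.length_append, List.length_cons, List.length_nil] at hlen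
  simp only [siteCube_append, siteCube_cons, top_append, List.length_append, top_letters, top_inr,
    top_nil, List.append_nil]
  omega

/-- The matching on cubes. `Uc` are the cubes whose first trigger is a letter completing a
left-hand side, `Dc` those whose first trigger is a principal relation; `mu` replaces the
triggered left-hand side by the relation. -/
theorem cube_matching (hP : Complete P) :
    ∃ (Uc Dc : Set (Cube α ι)) (mu : Cube α ι → Cube α ι) (r : Cube α ι → Cube α ι → Prop),
      Disjoint Uc Dc ∧ Set.BijOn mu Uc Dc ∧ WellFounded r ∧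
      (∀ q, (q ∉ Uc ∧ q ∉ Dc) ↔ IsCrit P q) ∧
      (∀ q ∈ Dc, ∃ (p q' : Cube α ι) (u : List α) (e : ι),
        q = p ++ letters u ++ Sum.inr e :: q' ∧ Prin P u e ∧
        (p = [] ∨ ∃ p' e', p = p' ++ [Sum.inr e'])) ∧
      (∀ q ∈ Uc, ∃ s : Cube α ι × ι × Cube α ι,
        q = s.1 ++ letters (P.lhs s.2.1) ++ s.2.2 ∧ mu q = s.1 ++ Sum.inr s.2.1 :: s.2.2 ∧
        (∀ s' ∈ splits (mu q), s' ≠ s → s'.1 ++ letters (P.lhs s'.2.1) ++ s'.2.2 ≠ q) ∧
        (∀ s' ∈ splits (mu q), s' ≠ s → s'.1 ++ letters (P.lhs s'.2.1) ++ s'.2.2 ∈ Uc →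
          r (s'.1 ++ letters (P.lhs s'.2.1) ++ s'.2.2) q) ∧
        (∀ s' ∈ splits (mu q), s'.1 ++ letters (P.rhs s'.2.1) ++ s'.2.2 ≠ q) ∧
        (∀ s' ∈ splits (mu q), s'.1 ++ letters (P.rhs s'.2.1) ++ s'.2.2 ∈ Uc →
          r (s'.1 ++ letters (P.rhs s'.2.1) ++ s'.2.2) q)) := by
  refine ⟨Uc P, Dc P, mu P, rel P, disj_UD, mu_bij, rel_wf hP, ?_, ?_, ?_⟩
  · intro q
    constructor
    · rintro ⟨h1, h2⟩
      rcases h : scan P [] [] q with _ | (a | a)
      · obtain ⟨L, t, hL, ht, hq⟩ := spec_iff.2 h
        exact ⟨L, t, hL, ht, hq⟩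
      · exact absurd ⟨a, h⟩ h1
      · exact absurd ⟨a, h⟩ h2
    · rintro ⟨L, t, hL, ht, hq⟩
      have h : scan P [] [] q = none := spec_iff.1 ⟨L, t, hL, ht, hq⟩
      constructor
      · rintro ⟨a, ha⟩
        rw [h] at ha
        simp at ha
      · rintro ⟨a, ha⟩
        rw [h] at ha
        simp at ha
  · rintro q ⟨⟨L, u, e, rest⟩, h⟩
    obtain ⟨hL, hv, hq⟩ := spec_iff.2 h
    refine ⟨siteCube L, rest, u, e, hq, hv, ?_⟩
    rcases List.eq_nil_or_concat L with rfl | ⟨L', p, rfl⟩
    · left; rfl
    · right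
      refine ⟨siteCube L' ++ letters p.1, p.2, ?_⟩
      simp [siteCube_append, siteCube_single]
  · intro q hq
    obtain ⟨L, v, x, rest, u', e, hL, hv, hx, hq', h1, h2, h3, h4, h5⟩ := mem_Uc hq
    have htop : P.top (mu P q) = P.top q := by
      rw [h4, hq', h2]
      simp
    have hrhs : ∀ s' ∈ splits (mu P q),
        Relation.TransGen (Step P) (P.top q) (P.top (s'.1 ++ letters (P.rhs s'.2.1) ++ s'.2.2)) := by
      intro s' hs'
      rw [mem_splits] at hs'
      refine Relation.TransGen.single ⟨P.top s'.1, s'.2.1, P.top s'.2.2, ?_, ?_⟩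
      · rw [← htop, hs']; simp
      · simp
    have hlhs : ∀ s' ∈ splits (mu P q), s' ≠ (siteCube L ++ letters u', e, rest) →
        (s'.1 ++ letters (P.lhs s'.2.1) ++ s'.2.2 ∈ Dc P ∨
        (P.top (s'.1 ++ letters (P.lhs s'.2.1) ++ s'.2.2) = P.top q ∧
          trig P (s'.1 ++ letters (P.lhs s'.2.1) ++ s'.2.2) < trig P q)) := by
      rintro ⟨a, i, b⟩ hs' hne
      rw [mem_splits] at hs'
      have htop' : P.top (a ++ letters (P.lhs i) ++ b) = P.top q := by
        rw [← htop, hs']; simp
      replace hs' : mu P q = a ++ Sum.inr i :: b := hs'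
      rw [h4] at hs'
      rcases split_cases hs' with ⟨b', e1, e2⟩ | ⟨e1, e2, e3⟩ | ⟨b'', e1, e2⟩
      · right
        refine ⟨htop', ?_⟩
        obtain ⟨L₁, u₁, L₂, f1, f2, f3⟩ := siteCube_split L e1
        have hL' : AllSites P (L₁ ++ (u₁, i) :: L₂) := by rw [← f1]; exact hL
        have := face_at_site (P := P) b hL'
        rw [← f1, ← f2] at this
        change trig P (a ++ letters (P.lhs i) ++ b) < trig P q
        rw [h5]
        omega
      · exact absurd (by rw [e1, e2, e3]) hne
      · left
        have := mem_Dc_of (P := P) (rest := b'' ++ letters (P.lhs i) ++ b) hL h3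
        have e3 : a ++ letters (P.lhs i) ++ b =
            siteCube L ++ letters u' ++ Sum.inr e :: (b'' ++ letters (P.lhs i) ++ b) := by
          rw [e1]; simp
        change a ++ letters (P.lhs i) ++ b ∈ Dc P
        rw [e3]; exact this
    refine ⟨(siteCube L ++ letters u', e, rest), ?_, h4, ?_, ?_, ?_, ?_⟩
    · rw [hq', h2]; simp
    · intro s' hs' hne heq
      rcases hlhs s' hs' hne with h | h
      · rw [heq] at h
        exact Set.disjoint_left.1 disj_UD hq h
      · rw [heq] at h
        exact lt_irrefl _ h.2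
    · intro s' hs' hne hU
      rcases hlhs s' hs' hne with h | h
      · exact absurd h (Set.disjoint_left.1 disj_UD hU)
      · exact Or.inr h
    · intro s' hs' heq
      have h := hrhs s' hs'
      rw [heq] at h
      exact (wf_transGen hP).irrefl.irrefl _ h
    · intro s' hs' hU
      exact Or.inl (hrhs s' hs')

end Pool.Agent.DG
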