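import Mathlib

/-!
Semigroup presentations, the Squier complex (paths modulo elementary homotopies), diagram groups,
homological finiteness properties, coverings of the Squier complex and their cubical chain complexes.
-/

namespace Pool.Agent.DG

universe u v w

variable {α : Type u} {ι : Type v}

/-- A semigroup presentation over the alphabet `α` with relations `lhs i = rhs i`, `i : ι`,
both sides being nonempty words. -/
structure Pres (α : Type u) (ι : Type v) where
  lhs : ι → List α
  rhs : ι → List α
  lhs_ne : ∀ i, lhs i ≠ []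
  rhs_ne : ∀ i, rhs i ≠ []

/-- `side i true` is the left-hand side, `side i false` the right-hand side of the relation `i`. -/
def Pres.side (P : Pres α ι) (i : ι) : Bool → List α
  | true => P.lhs i
  | false => P.rhs i

@[simp] theorem Pres.side_true (P : Pres α ι) (i : ι) : P.side i true = P.lhs i := rfl
@[simp] theorem Pres.side_false (P : Pres α ι) (i : ι) : P.side i false = P.rhs i := rfl

theorem Pres.side_ne (P : Pres α ι) (i : ι) (p : Bool) : P.side i p ≠ [] := by
  cases p
  · exact P.rhs_ne i
  · exact P.lhs_ne i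

/-- A directed edge of the Squier complex: the relation `i` is applied, from left to right if
`pos = true` and from right to left if `pos = false`, between the words `pre` and `post`. -/
structure SEdge (α : Type u) (ι : Type v) where
  pre : List α
  i : ι
  post : List α
  pos : Bool

/-- The word at which an edge starts. -/
def SEdge.src (P : Pres α ι) (s : SEdge α ι) : List α := s.pre ++ P.side s.i s.pos ++ s.post

/-- The word at which an edge ends. -/
def SEdge.tgt (P : Pres α ι) (s : SEdge α ι) : List α := s.pre ++ P.side s.i (!s.pos) ++ s.post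

/-- The inverse edge. -/
def SEdge.inv (s : SEdge α ι) : SEdge α ι := ⟨s.pre, s.i, s.post, !s.pos⟩

@[simp] theorem SEdge.inv_inv (s : SEdge α ι) : s.inv.inv = s := by
  cases s; simp [SEdge.inv]

@[simp] theorem SEdge.src_inv (P : Pres α ι) (s : SEdge α ι) : s.inv.src P = s.tgt P := rfl

@[simp] theorem SEdge.tgt_inv (P : Pres α ι) (s : SEdge α ι) : s.inv.tgt P = s.src P := by
  cases s; simp [SEdge.inv, SEdge.src, SEdge.tgt]

/-- `IsPath P x l y`: the list of edges `l` is a path of the Squier complex from `x` to `y`. -/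
def IsPath (P : Pres α ι) : List α → List (SEdge α ι) → List α → Prop
  | x, [], y => x = y
  | x, s :: l, y => s.src P = x ∧ IsPath P (s.tgt P) l y

/-- Elementary homotopies of paths in the Squier complex: cancelling an edge and its inverse,
and pushing a path across a square (two applications of relations to disjoint subwords). -/
inductive Elem (P : Pres α ι) : List (SEdge α ι) → List (SEdge α ι) → Prop
  | cancel (l₁ l₂ : List (SEdge α ι)) (s : SEdge α ι) : Elem P (l₁ ++ s :: s.inv :: l₂) (l₁ ++ l₂)
  | square (l₁ l₂ : List (SEdge α ι)) (a b c : List α) (i j : ι) (p q : Bool) :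
      Elem P
        (l₁ ++ ⟨a, i, b ++ P.side j q ++ c, p⟩ :: ⟨a ++ P.side i (!p) ++ b, j, c, q⟩ :: l₂)
        (l₁ ++ ⟨a ++ P.side i p ++ b, j, c, q⟩ :: ⟨a, i, b ++ P.side j (!q) ++ c, p⟩ :: l₂)

/-- Paths from `x` to `y` in the Squier complex. -/
def PathTo (P : Pres α ι) (x y : List α) : Type (max u v) := {l : List (SEdge α ι) // IsPath P x l y}

/-- Homotopy of paths with fixed end points. -/
def pathSetoid (P : Pres α ι) (x y : List α) : Setoid (PathTo P x y) :=
  Relation.EqvGen.setoid (fun l l' => Elem P l.1 l'.1)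

/-- Homotopy classes of paths from `x` to `y` in the Squier complex. -/
def Hpt (P : Pres α ι) (x y : List α) : Type (max u v) := Quotient (pathSetoid P x y)

/-- The diagram group of `P` with base word `x`: the fundamental group of the Squier complex. -/
abbrev DiagramGroup (P : Pres α ι) (x : List α) : Type (max u v) := Hpt P x x

theorem isPath_append (P : Pres α ι) {x y z : List α} {l l' : List (SEdge α ι)}
    (h : IsPath P x l y) (h' : IsPath P y l' z) : IsPath P x (l ++ l') z := by
  induction l generalizing x with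
  | nil => cases h; exact h'
  | cons s l ih => exact ⟨h.1, ih h.2⟩

theorem isPath_reverse (P : Pres α ι) {x y : List α} {l : List (SEdge α ι)}
    (h : IsPath P x l y) : IsPath P y (l.map SEdge.inv).reverse x := by
  induction l generalizing x with
  | nil => cases h; exact rfl
  | cons s l ih =>
    rw [List.map_cons, List.reverse_cons]
    exact isPath_append P (ih h.2) ⟨rfl, by simpa [IsPath] using h.1⟩

theorem Elem.append_left (P : Pres α ι) {l l' : List (SEdge α ι)} (h : Elem P l l')
    (k : List (SEdge α ι)) : Elem P (k ++ l) (k ++ l') := by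
  cases h with
  | cancel l₁ l₂ s =>
    have := Elem.cancel (P := P) (k ++ l₁) l₂ s
    simpa [List.append_assoc] using this
  | square l₁ l₂ a b c i j p q =>
    have := Elem.square (P := P) (k ++ l₁) l₂ a b c i j p q
    simpa [List.append_assoc] using this

theorem Elem.append_right (P : Pres α ι) {l l' : List (SEdge α ι)} (h : Elem P l l')
    (k : List (SEdge α ι)) : Elem P (l ++ k) (l' ++ k) := by
  cases h with
  | cancel l₁ l₂ s =>
    have := Elem.cancel (P := P) l₁ (l₂ ++ k) s
    simpa [List.append_assoc] using this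
  | square l₁ l₂ a b c i j p q =>
    have := Elem.square (P := P) l₁ (l₂ ++ k) a b c i j p q
    simpa [List.append_assoc] using this

theorem Elem.reverse (P : Pres α ι) {l l' : List (SEdge α ι)} (h : Elem P l l') :
    Elem P (l.map SEdge.inv).reverse (l'.map SEdge.inv).reverse ∨
    Elem P (l'.map SEdge.inv).reverse (l.map SEdge.inv).reverse := by
  cases h with
  | cancel l₁ l₂ s =>
    left
    have := Elem.cancel (P := P) (l₂.map SEdge.inv).reverse (l₁.map SEdge.inv).reverse s
    simpa [List.append_assoc] using this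
  | square l₁ l₂ a b c i j p q =>
    right
    have := Elem.square (P := P) (l₂.map SEdge.inv).reverse (l₁.map SEdge.inv).reverse
      a b c i j (!p) (!q)
    simpa [List.append_assoc, SEdge.inv] using this

theorem comp_aux_left (P : Pres α ι) {x y z : List α} {l₁ l₂ : PathTo P x y}
    (h : Relation.EqvGen (fun l l' : PathTo P x y => Elem P l.1 l'.1) l₁ l₂) (k : PathTo P y z) :
    Relation.EqvGen (fun l l' : PathTo P x z => Elem P l.1 l'.1)
      ⟨l₁.1 ++ k.1, isPath_append P l₁.2 k.2⟩ ⟨l₂.1 ++ k.1, isPath_append P l₂.2 k.2⟩ := by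
  induction h with
  | rel a b h => exact Relation.EqvGen.rel _ _ (h.append_right P _)
  | refl a => exact Relation.EqvGen.refl _
  | symm a b _ ih => exact Relation.EqvGen.symm _ _ ih
  | trans a b c _ _ ih1 ih2 => exact Relation.EqvGen.trans _ _ _ ih1 ih2

theorem comp_aux_right (P : Pres α ι) {x y z : List α} {l₁ l₂ : PathTo P y z}
    (h : Relation.EqvGen (fun l l' : PathTo P y z => Elem P l.1 l'.1) l₁ l₂) (k : PathTo P x y) :
    Relation.EqvGen (fun l l' : PathTo P x z => Elem P l.1 l'.1)
      ⟨k.1 ++ l₁.1, isPath_append P k.2 l₁.2⟩ ⟨k.1 ++ l₂.1, isPath_append P k.2 l₂.2⟩ := by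
  induction h with
  | rel a b h => exact Relation.EqvGen.rel _ _ (h.append_left P _)
  | refl a => exact Relation.EqvGen.refl _
  | symm a b _ ih => exact Relation.EqvGen.symm _ _ ih
  | trans a b c _ _ ih1 ih2 => exact Relation.EqvGen.trans _ _ _ ih1 ih2

/-- Composition of homotopy classes of paths. -/
def Hpt.comp {P : Pres α ι} {x y z : List α} : Hpt P x y → Hpt P y z → Hpt P x z :=
  Quotient.map₂ (fun l l' => ⟨l.1 ++ l'.1, isPath_append P l.2 l'.2⟩) (by
    intro l₁ l₂ h l₁' l₂' h'
    exact Relation.EqvGen.trans _ _ _ (comp_aux_left P h l₁') (comp_aux_right P h' l₂))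

/-- The inverse homotopy class. -/
def Hpt.inv {P : Pres α ι} {x y : List α} : Hpt P x y → Hpt P y x :=
  Quotient.map (fun l => ⟨(l.1.map SEdge.inv).reverse, isPath_reverse P l.2⟩) (by
    intro l₁ l₂ h
    have h1 : Relation.EqvGen (fun l l' : PathTo P y x => Elem P l.1 l'.1)
        ⟨(l₁.1.map SEdge.inv).reverse, isPath_reverse P l₁.2⟩
        ⟨(l₂.1.map SEdge.inv).reverse, isPath_reverse P l₂.2⟩ := by
      induction h with
      | rel a b h =>
        rcases h.reverse P with h | h
        · exact Relation.EqvGen.rel _ _ h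
        · exact Relation.EqvGen.symm _ _ (Relation.EqvGen.rel _ _ h)
      | refl a => exact Relation.EqvGen.refl _
      | symm a b _ ih => exact Relation.EqvGen.symm _ _ ih
      | trans a b c _ _ ih1 ih2 => exact Relation.EqvGen.trans _ _ _ ih1 ih2
    exact h1)

/-- The class of the constant path. -/
def Hpt.id (P : Pres α ι) (x : List α) : Hpt P x x :=
  Quotient.mk (pathSetoid P x x) ⟨[], rfl⟩

/-- The class of a path. -/
def Hpt.mk (P : Pres α ι) {x y : List α} (l : List (SEdge α ι)) (h : IsPath P x l y) : Hpt P x y :=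
  Quotient.mk (pathSetoid P x y) ⟨l, h⟩

theorem Hpt.ind {P : Pres α ι} {x y : List α} {M : Hpt P x y → Prop}
    (h : ∀ l (hl : IsPath P x l y), M (Hpt.mk P l hl)) (a : Hpt P x y) : M a := by
  induction a using Quotient.ind with
  | _ a => exact h a.1 a.2

theorem Hpt.sound {P : Pres α ι} {x y : List α} {l l' : List (SEdge α ι)}
    (hl : IsPath P x l y) (hl' : IsPath P x l' y) (h : Elem P l l') :
    Hpt.mk P l hl = Hpt.mk P l' hl' :=
  Quotient.sound (s := pathSetoid P x y) (Relation.EqvGen.rel _ _ h)

theorem Hpt.mk_comp_mk {P : Pres α ι} {x y z : List α} {l l' : List (SEdge α ι)}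
    (hl : IsPath P x l y) (hl' : IsPath P y l' z) :
    (Hpt.mk P l hl).comp (Hpt.mk P l' hl') = Hpt.mk P (l ++ l') (isPath_append P hl hl') := rfl

theorem Hpt.inv_mk {P : Pres α ι} {x y : List α} {l : List (SEdge α ι)}
    (hl : IsPath P x l y) :
    (Hpt.mk P l hl).inv = Hpt.mk P (l.map SEdge.inv).reverse (isPath_reverse P hl) := rfl

theorem Hpt.comp_assoc {P : Pres α ι} {x y z t : List α} (a : Hpt P x y) (b : Hpt P y z)
    (c : Hpt P z t) : (a.comp b).comp c = a.comp (b.comp c) := by
  induction a using Hpt.ind with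
  | _ l hl =>
  induction b using Hpt.ind with
  | _ l' hl' =>
  induction c using Hpt.ind with
  | _ l'' hl'' =>
  simp only [Hpt.mk_comp_mk, List.append_assoc]

@[simp] theorem Hpt.id_comp {P : Pres α ι} {x y : List α} (a : Hpt P x y) :
    (Hpt.id P x).comp a = a := by
  induction a using Hpt.ind with
  | _ l hl => rfl

@[simp] theorem Hpt.comp_id {P : Pres α ι} {x y : List α} (a : Hpt P x y) :
    a.comp (Hpt.id P y) = a := by
  induction a using Hpt.ind with
  | _ l hl =>
  change Hpt.mk P (l ++ []) _ = _
  simp

theorem Hpt.mk_inv_comp {P : Pres α ι} (l : List (SEdge α ι)) :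
    ∀ {x y : List α} (hl : IsPath P x l y),
    (Hpt.mk P l hl).inv.comp (Hpt.mk P l hl) = Hpt.id P y := by
  induction l with
  | nil => intro x y hl; rfl
  | cons s l ih =>
    intro x y hl
    rw [Hpt.inv_mk, Hpt.mk_comp_mk, ← ih hl.2, Hpt.inv_mk, Hpt.mk_comp_mk]
    refine Hpt.sound _ _ ?_
    have := Elem.cancel (P := P) (l.map SEdge.inv).reverse l s.inv
    simpa using this

@[simp] theorem Hpt.inv_comp {P : Pres α ι} {x y : List α} (a : Hpt P x y) :
    a.inv.comp a = Hpt.id P y := by
  induction a using Hpt.ind with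
  | _ l hl => exact Hpt.mk_inv_comp l hl

@[simp] theorem Hpt.inv_inv {P : Pres α ι} {x y : List α} (a : Hpt P x y) : a.inv.inv = a := by
  induction a using Hpt.ind with
  | _ l hl =>
  simp only [Hpt.inv_mk]
  congr 1
  simp [Function.comp_def]

@[simp] theorem Hpt.comp_inv {P : Pres α ι} {x y : List α} (a : Hpt P x y) :
    a.comp a.inv = Hpt.id P x := by
  have := Hpt.inv_comp a.inv
  simpa using this

instance (P : Pres α ι) (x : List α) : Group (DiagramGroup P x) where
  mul a b := Hpt.comp a b
  mul_assoc a b c := Hpt.comp_assoc a b c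
  one := Hpt.id P x
  one_mul a := Hpt.id_comp a
  mul_one a := Hpt.comp_id a
  inv a := Hpt.inv a
  inv_mul_cancel a := Hpt.inv_comp a

theorem mul_def {P : Pres α ι} {x : List α} (a b : DiagramGroup P x) : a * b = Hpt.comp a b := rfl
theorem one_def {P : Pres α ι} {x : List α} : (1 : DiagramGroup P x) = Hpt.id P x := rfl
theorem inv_def {P : Pres α ι} {x : List α} (a : DiagramGroup P x) : a⁻¹ = Hpt.inv a := rfl

/-- One step of rewriting: replace a factor `lhs i` by `rhs i`. -/
def Step (P : Pres α ι) (x y : List α) : Prop :=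
  ∃ (a : List α) (i : ι) (b : List α), x = a ++ P.lhs i ++ b ∧ y = a ++ P.rhs i ++ b

/-- A complete presentation: the rewriting system `lhs i → rhs i` terminates and is confluent. -/
structure Complete (P : Pres α ι) : Prop where
  terminating : WellFounded (fun y x => Step P x y)
  confluent : ∀ x y z, Relation.ReflTransGen (Step P) x y → Relation.ReflTransGen (Step P) x z →
    ∃ t, Relation.ReflTransGen (Step P) y t ∧ Relation.ReflTransGen (Step P) z t

/-- Homological type `FP_n` of a group: the trivial module `ℤ` has a resolution by free modules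
over the group ring whose terms in degrees `0, …, n` have finite rank (only the part in degrees
`≤ n` is recorded): `ε` is the augmentation onto the trivial module `ℤ`. -/
def TypeFP (n : ℕ) (G : Type w) [Group G] : Prop :=
  ∃ (k : ℕ → ℕ) (ε : (Fin (k 0) → MonoidAlgebra ℤ G) →+ ℤ)
    (d : ∀ i, (Fin (k (i + 1)) → MonoidAlgebra ℤ G) →ₗ[MonoidAlgebra ℤ G]
      (Fin (k i) → MonoidAlgebra ℤ G)),
    Function.Surjective ε ∧
    (∀ (g : G) x, ε (MonoidAlgebra.of ℤ G g • x) = ε x) ∧
    (0 < n → ∀ x, ε x = 0 ↔ ∃ y, d 0 y = x) ∧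
    (∀ i, i + 1 < n → ∀ x, d i x = 0 ↔ ∃ y, d (i + 1) y = x)

/-- Topological type `F_n`, in its standard algebraic form: no condition for `n = 0`, finite
generation for `n = 1`, and finite presentability together with type `FP_n` for `n ≥ 2`. -/
def TypeF (n : ℕ) (G : Type w) [Group G] : Prop :=
  (1 ≤ n → Group.FG G) ∧ (2 ≤ n → Group.IsFinitelyPresented G) ∧ TypeFP n G

end Pool.Agent.DG
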