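import Pool.Agent.MP_cff99f_al.Defs

/-! Block C: finiteness properties and free `G`-sets. -/

namespace Pool.Agent.DG

universe u w

open Finsupp

variable (G : Type w) [Group G]

/-- The sum of the coefficients. -/
noncomputable def sumCoeff (X : Type u) : (X →₀ ℤ) →+ ℤ :=
  Finsupp.liftAddHom fun _ => AddMonoidHom.id ℤ

namespace FPAlg

variable {G}

theorem sumCoeff_single (X : Type u) (x : X) (n : ℤ) : sumCoeff X (single x n) = n := by
  simp [sumCoeff]

theorem sumCoeff_mapDomain {X : Type u} [MulAction G X] (g : G) (z : X →₀ ℤ) :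
    sumCoeff X (z.mapDomain (g • ·)) = sumCoeff X z := by
  induction z using Finsupp.induction_linear with
  | zero => simp
  | add f g hf hg => rw [mapDomain_add, map_add, map_add, hf, hg]
  | single x n => rw [mapDomain_single, sumCoeff_single, sumCoeff_single]

/-- Coordinates on the permutation module of a free `G`-set with finitely many orbits. -/
theorem exists_coord (X : Type u) [MulAction G X] (hfree : ∀ (g : G) (x : X), g • x = x → g = 1)
    (hfin : Finite (MulAction.orbitRel.Quotient G X)) :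
    ∃ (c : ℕ) (e : (Fin c → MonoidAlgebra ℤ G) ≃+ (X →₀ ℤ)), ∀ (g : G) v,
      e (MonoidAlgebra.of ℤ G g • v) = (e v).mapDomain (g • ·) := by
  classical
  obtain ⟨c, ⟨q⟩⟩ := Finite.exists_equiv_fin (MulAction.orbitRel.Quotient G X)
  let r : Fin c → X := fun i => (q.symm i).out
  have hr : ∀ i, (Quotient.mk (MulAction.orbitRel G X) (r i)) = q.symm i := fun i =>
    Quotient.out_eq _
  let β : Fin c × G → X := fun p => p.2 • r p.1
  have hβ : Function.Bijective β := by
    constructor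
    · rintro ⟨i, g⟩ ⟨j, g'⟩ h
      have h' : g • r i = g' • r j := h
      have hij : i = j := by
        apply q.symm.injective
        rw [← hr i, ← hr j]
        apply Quotient.sound
        show MulAction.orbitRel G X (r i) (r j)
        rw [MulAction.orbitRel_apply]
        exact ⟨g⁻¹ * g', by simp only [mul_smul]; rw [← h', inv_smul_smul]⟩
      subst hij
      have : (g'⁻¹ * g) • r i = r i := by rw [mul_smul, h', inv_smul_smul]
      have := hfree _ _ this
      rw [inv_mul_eq_one] at this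
      rw [this]
    · intro x
      have h1 : MulAction.orbitRel G X x (r (q (Quotient.mk _ x))) := by
        apply Quotient.exact
        show Quotient.mk _ x = Quotient.mk _ _
        rw [hr, Equiv.symm_apply_apply]
      rw [MulAction.orbitRel_apply] at h1
      obtain ⟨g, hg⟩ := h1
      exact ⟨(q (Quotient.mk _ x), g), hg⟩
  let B : Fin c × G ≃ X := Equiv.ofBijective β hβ
  let e1 : (Fin c → MonoidAlgebra ℤ G) ≃+ (Fin c → (G →₀ ℤ)) :=
    AddEquiv.piCongrRight fun _ => MonoidAlgebra.coeffAddEquiv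
  let e2 : (Fin c → (G →₀ ℤ)) ≃+ (Fin c →₀ (G →₀ ℤ)) :=
    (Finsupp.linearEquivFunOnFinite ℕ (G →₀ ℤ) (Fin c)).symm.toAddEquiv
  let e3 : (Fin c →₀ (G →₀ ℤ)) ≃+ (Fin c × G →₀ ℤ) := Finsupp.curryAddEquiv.symm
  let e4 : (Fin c × G →₀ ℤ) ≃+ (X →₀ ℤ) := Finsupp.domCongr B
  let e : (Fin c → MonoidAlgebra ℤ G) ≃+ (X →₀ ℤ) := ((e1.trans e2).trans e3).trans e4
  have he : ∀ v i (h : G), e v (h • r i) = (v i).coeff h := by
    intro v i h
    have hB : h • r i = B (i, h) := rfl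
    rw [hB]
    show (Finsupp.domCongr B ((e3 (e2 (e1 v))))) (B (i, h)) = _
    rw [Finsupp.domCongr_apply, Finsupp.equivMapDomain_apply, Equiv.symm_apply_apply]
    rfl
  refine ⟨c, e, ?_⟩
  intro g v
  ext x
  obtain ⟨⟨i, h⟩, rfl⟩ := hβ.2 x
  change e (MonoidAlgebra.of ℤ G g • v) (h • r i) = (mapDomain (fun x : X => g • x) (e v)) (h • r i)
  rw [he]
  have h1 : h • r i = g • ((g⁻¹ * h) • r i) := by rw [smul_smul]; congr 1; group
  have h2 : (mapDomain (fun x : X => g • x) (e v)) (h • r i) = (e v) ((g⁻¹ * h) • r i) := by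
    rw [h1]
    exact Finsupp.mapDomain_apply (MulAction.injective g) (e v) _
  rw [h2, he]
  rw [Pi.smul_apply, smul_eq_mul, MonoidAlgebra.of_apply, MonoidAlgebra.coeff_single_mul_apply,
    one_mul]

/-- additive maps commuting with the group elements are linear -/
theorem map_smul_of {M N : Type*} [AddCommGroup M] [AddCommGroup N] [Module (MonoidAlgebra ℤ G) M]
    [Module (MonoidAlgebra ℤ G) N] (f : M →+ N)
    (hf : ∀ (g : G) m, f (MonoidAlgebra.of ℤ G g • m) = MonoidAlgebra.of ℤ G g • f m)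
    (r : MonoidAlgebra ℤ G) (m : M) : f (r • m) = r • f m := by
  induction r using MonoidAlgebra.induction_on with
  | of g => exact hf g m
  | add x y hx hy => rw [add_smul, add_smul, map_add, hx, hy]
  | smul n x hx =>
    have h1 : (n • x : MonoidAlgebra ℤ G) • m = n • (x • m) := smul_assoc n x m
    have h2 : (n • x : MonoidAlgebra ℤ G) • f m = n • (x • f m) := smul_assoc n x (f m)
    rw [h1, h2, map_zsmul, hx]

/-- linear map from an equivariant additive map -/
noncomputable def toLin {M N : Type*} [AddCommGroup M] [AddCommGroup N]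
    [Module (MonoidAlgebra ℤ G) M] [Module (MonoidAlgebra ℤ G) N] (f : M →+ N)
    (hf : ∀ (g : G) m, f (MonoidAlgebra.of ℤ G g • m) = MonoidAlgebra.of ℤ G g • f m) :
    M →ₗ[MonoidAlgebra ℤ G] N where
  toFun := f
  map_add' := map_add f
  map_smul' r m := map_smul_of f hf r m

theorem single_induction {k : ℕ} {p : (Fin k → MonoidAlgebra ℤ G) → Prop} (h0 : p 0)
    (hadd : ∀ x y, p x → p y → p (x + y)) (hneg : ∀ x, p x → p (-x))
    (h1 : ∀ j (g : G), p (MonoidAlgebra.of ℤ G g • Pi.single j 1)) (x : Fin k → MonoidAlgebra ℤ G) :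
    p x := by
  classical
  have hn : ∀ (n : ℕ) x, p x → p (n • x) := by
    intro n x hx
    induction n with
    | zero => simpa using h0
    | succ n ih => rw [succ_nsmul]; exact hadd _ _ ih hx
  have hz : ∀ (n : ℤ) x, p x → p (n • x) := by
    intro n x hx
    rcases Int.eq_nat_or_neg n with ⟨m, rfl | rfl⟩
    · rw [natCast_zsmul]; exact hn m x hx
    · rw [neg_smul, natCast_zsmul]; exact hneg _ (hn m x hx)
  have hr : ∀ (r : MonoidAlgebra ℤ G) j, p (r • Pi.single j 1) := by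
    intro r j
    induction r using MonoidAlgebra.induction_on with
    | of g => exact h1 j g
    | add x y hx hy => rw [add_smul]; exact hadd _ _ hx hy
    | smul n x hx =>
      have h1 : (n • x : MonoidAlgebra ℤ G) • (Pi.single j 1 : Fin k → MonoidAlgebra ℤ G) =
        n • (x • Pi.single j 1) := smul_assoc n x _
      rw [h1]
      exact hz n _ hx
  have hx : x = ∑ j, x j • (Pi.single j 1 : Fin k → MonoidAlgebra ℤ G) := by
    rw [pi_eq_sum_univ' x]
    simp [Pi.single_apply, eq_comm]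
  rw [hx]
  apply Finset.sum_induction _ p hadd h0
  intro j _
  exact hr _ _

/-- lifting the augmentation -/
theorem exists_lift {k : ℕ} {N : Type*} [AddCommGroup N] [Module (MonoidAlgebra ℤ G) N]
    (ε : (Fin k → MonoidAlgebra ℤ G) →+ ℤ) (hε : ∀ (g : G) x, ε (MonoidAlgebra.of ℤ G g • x) = ε x)
    (σ : N →+ ℤ) (hσ : ∀ (g : G) x, σ (MonoidAlgebra.of ℤ G g • x) = σ x)
    (hs : Function.Surjective σ) :
    ∃ a : (Fin k → MonoidAlgebra ℤ G) →ₗ[MonoidAlgebra ℤ G] N, ∀ x, σ (a x) = ε x := by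
  classical
  choose y hy using fun j : Fin k => hs (ε (Pi.single j 1))
  refine ⟨Fintype.linearCombination (MonoidAlgebra ℤ G) y, ?_⟩
  intro x
  induction x using single_induction with
  | h0 => simp
  | hadd x y hx hy => rw [map_add, map_add, map_add, hx, hy]
  | hneg x hx => rw [map_neg, map_neg, map_neg, hx]
  | h1 j g =>
    rw [map_smul, hσ, hε, Fintype.linearCombination_apply_single, one_smul, hy]

/-- lifting linear maps -/
theorem exists_lift' {k : ℕ} {M N : Type*} [AddCommGroup N] [Module (MonoidAlgebra ℤ G) N]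
    [AddCommGroup M] [Module (MonoidAlgebra ℤ G) M]
    (f : (Fin k → MonoidAlgebra ℤ G) →ₗ[MonoidAlgebra ℤ G] N) (g : M →ₗ[MonoidAlgebra ℤ G] N)
    (h : ∀ x, ∃ y, g y = f x) :
    ∃ a : (Fin k → MonoidAlgebra ℤ G) →ₗ[MonoidAlgebra ℤ G] M, ∀ x, g (a x) = f x := by
  classical
  choose y hy using fun j : Fin k => h (Pi.single j 1)
  refine ⟨Fintype.linearCombination (MonoidAlgebra ℤ G) y, ?_⟩
  intro x
  have : g ∘ₗ (Fintype.linearCombination (MonoidAlgebra ℤ G) y) = f := by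
    apply LinearMap.pi_ext'
    intro j
    apply LinearMap.ext_ring
    simp only [LinearMap.comp_apply, LinearMap.single_apply,
      Fintype.linearCombination_apply_single, one_smul, hy]
  exact congrArg (fun m => m x) this

/-- the image of a linear map is spanned by the images of the basis -/
theorem mem_span_range {k : ℕ} {N : Type*} [AddCommGroup N] [Module (MonoidAlgebra ℤ G) N]
    (a : (Fin k → MonoidAlgebra ℤ G) →ₗ[MonoidAlgebra ℤ G] N) (x : Fin k → MonoidAlgebra ℤ G) :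
    a x ∈ Submodule.span (MonoidAlgebra ℤ G) (Set.range fun j : Fin k => a (Pi.single j 1)) := by
  classical
  have hx : x = ∑ j, x j • (Pi.single j 1 : Fin k → MonoidAlgebra ℤ G) := by
    rw [pi_eq_sum_univ' x]
    simp [Pi.single_apply, eq_comm]
  rw [hx, map_sum]
  apply Submodule.sum_mem
  intro j _
  rw [map_smul]
  exact Submodule.smul_mem _ _ (Submodule.subset_span ⟨j, rfl⟩)

theorem alg_C2 {k0 k1 m0 : ℕ} (ε : (Fin k0 → MonoidAlgebra ℤ G) →+ ℤ)
    (hε : ∀ (g : G) x, ε (MonoidAlgebra.of ℤ G g • x) = ε x) (hεs : Function.Surjective ε)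
    (d0 : (Fin k1 → MonoidAlgebra ℤ G) →ₗ[MonoidAlgebra ℤ G] (Fin k0 → MonoidAlgebra ℤ G))
    (hd0 : ∀ x, ε x = 0 ↔ ∃ y, d0 y = x)
    (σ : (Fin m0 → MonoidAlgebra ℤ G) →+ ℤ)
    (hσ : ∀ (g : G) x, σ (MonoidAlgebra.of ℤ G g • x) = σ x) (hσs : Function.Surjective σ) :
    ∃ T : Finset (Fin m0 → MonoidAlgebra ℤ G), (∀ t ∈ T, σ t = 0) ∧
      ∀ z, σ z = 0 → z ∈ Submodule.span (MonoidAlgebra ℤ G) (T : Set (Fin m0 → MonoidAlgebra ℤ G)) := by
  classical
  obtain ⟨a, ha⟩ := exists_lift ε hε σ hσ hσs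
  obtain ⟨b, hb⟩ := exists_lift σ hσ ε hε hεs
  let θ : (Fin m0 → MonoidAlgebra ℤ G) →ₗ[MonoidAlgebra ℤ G] (Fin m0 → MonoidAlgebra ℤ G) :=
    LinearMap.id - a ∘ₗ b
  refine ⟨(Finset.univ.image fun j : Fin k1 => a (d0 (Pi.single j 1))) ∪
    (Finset.univ.image fun j : Fin m0 => θ (Pi.single j 1)), ?_, ?_⟩
  · intro t ht
    rw [Finset.mem_union, Finset.mem_image, Finset.mem_image] at ht
    rcases ht with ⟨j, -, rfl⟩ | ⟨j, -, rfl⟩
    · rw [ha, (hd0 _).2 ⟨_, rfl⟩]
    · show σ (Pi.single j 1 - a (b (Pi.single j 1))) = 0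
      rw [map_sub, ha, hb, sub_self]
  · intro z hz
    obtain ⟨y, hy⟩ := (hd0 (b z)).1 (by rw [hb, hz])
    have h1 : z = (a ∘ₗ d0) y + θ z := by
      show z = a (d0 y) + (z - a (b z))
      rw [hy]; abel
    rw [h1]
    apply Submodule.add_mem
    · apply Submodule.span_mono _ (mem_span_range (a ∘ₗ d0) y)
      rintro _ ⟨j, rfl⟩
      rw [Finset.mem_coe, Finset.mem_union, Finset.mem_image]
      exact Or.inl ⟨j, Finset.mem_univ _, rfl⟩
    · apply Submodule.span_mono _ (mem_span_range θ z)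
      rintro _ ⟨j, rfl⟩
      rw [Finset.mem_coe, Finset.mem_union, Finset.mem_image, Finset.mem_image]
      exact Or.inr ⟨j, Finset.mem_univ _, rfl⟩

theorem alg_C3 {k0 k1 k2 m0 m1 : ℕ} (ε : (Fin k0 → MonoidAlgebra ℤ G) →+ ℤ)
    (hε : ∀ (g : G) x, ε (MonoidAlgebra.of ℤ G g • x) = ε x) (hεs : Function.Surjective ε)
    (d0 : (Fin k1 → MonoidAlgebra ℤ G) →ₗ[MonoidAlgebra ℤ G] (Fin k0 → MonoidAlgebra ℤ G))
    (hd0 : ∀ x, ε x = 0 ↔ ∃ y, d0 y = x)
    (d1 : (Fin k2 → MonoidAlgebra ℤ G) →ₗ[MonoidAlgebra ℤ G] (Fin k1 → MonoidAlgebra ℤ G))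
    (hd1 : ∀ x, d0 x = 0 ↔ ∃ y, d1 y = x)
    (σ : (Fin m0 → MonoidAlgebra ℤ G) →+ ℤ)
    (hσ : ∀ (g : G) x, σ (MonoidAlgebra.of ℤ G g • x) = σ x) (hσs : Function.Surjective σ)
    (δ : (Fin m1 → MonoidAlgebra ℤ G) →ₗ[MonoidAlgebra ℤ G] (Fin m0 → MonoidAlgebra ℤ G))
    (hδ : ∀ x, σ x = 0 ↔ ∃ y, δ y = x) :
    ∃ T : Finset (Fin m1 → MonoidAlgebra ℤ G), (∀ t ∈ T, δ t = 0) ∧
      ∀ z, δ z = 0 → z ∈ Submodule.span (MonoidAlgebra ℤ G) (T : Set (Fin m1 → MonoidAlgebra ℤ G)) := by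
  classical
  obtain ⟨a0, ha0⟩ := exists_lift ε hε σ hσ hσs
  obtain ⟨b0, hb0⟩ := exists_lift σ hσ ε hε hεs
  obtain ⟨a1, ha1⟩ := exists_lift' (a0 ∘ₗ d0) δ (by
    intro x
    apply (hδ _).1
    show σ (a0 (d0 x)) = 0
    rw [ha0, (hd0 _).2 ⟨_, rfl⟩])
  obtain ⟨b1, hb1⟩ := exists_lift' (b0 ∘ₗ δ) d0 (by
    intro x
    apply (hd0 _).1
    show ε (b0 (δ x)) = 0
    rw [hb0, (hδ _).2 ⟨_, rfl⟩])
  obtain ⟨h, hh⟩ := exists_lift' (LinearMap.id - a0 ∘ₗ b0) δ (by
    intro x
    apply (hδ _).1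
    show σ (x - a0 (b0 x)) = 0
    rw [map_sub, ha0, hb0, sub_self])
  let θ : (Fin m1 → MonoidAlgebra ℤ G) →ₗ[MonoidAlgebra ℤ G] (Fin m1 → MonoidAlgebra ℤ G) :=
    LinearMap.id - a1 ∘ₗ b1 - h ∘ₗ δ
  have hθ : ∀ x, δ (θ x) = 0 := by
    intro x
    show δ (x - a1 (b1 x) - h (δ x)) = 0
    rw [map_sub, map_sub, ha1, hh]
    show δ x - a0 (d0 (b1 x)) - (δ x - a0 (b0 (δ x))) = 0
    rw [hb1]
    show δ x - a0 (b0 (δ x)) - (δ x - a0 (b0 (δ x))) = 0
    abel
  refine ⟨(Finset.univ.image fun j : Fin k2 => a1 (d1 (Pi.single j 1))) ∪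
    (Finset.univ.image fun j : Fin m1 => θ (Pi.single j 1)), ?_, ?_⟩
  · intro t ht
    rw [Finset.mem_union, Finset.mem_image, Finset.mem_image] at ht
    rcases ht with ⟨j, -, rfl⟩ | ⟨j, -, rfl⟩
    · rw [ha1]
      show a0 (d0 (d1 (Pi.single j 1))) = 0
      rw [(hd1 _).2 ⟨_, rfl⟩, map_zero]
    · exact hθ _
  · intro z hz
    obtain ⟨y, hy⟩ := (hd1 (b1 z)).1 (by
      rw [hb1]
      show b0 (δ z) = 0
      rw [hz, map_zero])
    have h1 : z = (a1 ∘ₗ d1) y + θ z := by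
      show z = a1 (d1 y) + (z - a1 (b1 z) - h (δ z))
      rw [hy, hz, map_zero]; abel
    rw [h1]
    apply Submodule.add_mem
    · apply Submodule.span_mono _ (mem_span_range (a1 ∘ₗ d1) y)
      rintro _ ⟨j, rfl⟩
      rw [Finset.mem_coe, Finset.mem_union, Finset.mem_image]
      exact Or.inl ⟨j, Finset.mem_univ _, rfl⟩
    · apply Submodule.span_mono _ (mem_span_range θ z)
      rintro _ ⟨j, rfl⟩
      rw [Finset.mem_coe, Finset.mem_union, Finset.mem_image, Finset.mem_image]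
      exact Or.inr ⟨j, Finset.mem_univ _, rfl⟩

/-- from spans to additive closures of translates -/
theorem closure_of_span {X : Type u} [MulAction G X] {c : ℕ}
    (e : (Fin c → MonoidAlgebra ℤ G) ≃+ (X →₀ ℤ))
    (he : ∀ (g : G) v, e (MonoidAlgebra.of ℤ G g • v) = (e v).mapDomain (g • ·))
    (T : Finset (Fin c → MonoidAlgebra ℤ G)) [DecidableEq (X →₀ ℤ)] (z : Fin c → MonoidAlgebra ℤ G)
    (hz : z ∈ Submodule.span (MonoidAlgebra ℤ G) (T : Set (Fin c → MonoidAlgebra ℤ G))) :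
    e z ∈ AddSubgroup.closure {y | ∃ g : G, ∃ s ∈ T.image e, y = s.mapDomain (g • ·)} := by
  set C := AddSubgroup.closure {y | ∃ g : G, ∃ s ∈ T.image e, y = s.mapDomain (g • ·)} with hC
  have htr : ∀ (g : G) y, y ∈ C → y.mapDomain (g • ·) ∈ C := by
    intro g y hy
    induction hy using AddSubgroup.closure_induction with
    | mem y hy =>
      obtain ⟨g', s, hs, rfl⟩ := hy
      apply AddSubgroup.subset_closure
      refine ⟨g * g', s, hs, ?_⟩
      rw [← mapDomain_comp]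
      congr 1
      funext x
      simp [mul_smul]
    | zero => rw [mapDomain_zero]; exact C.zero_mem
    | add x y _ _ hx hy => rw [mapDomain_add]; exact C.add_mem hx hy
    | neg x _ hx =>
      have : mapDomain (fun x : X => g • x) (-x) = -mapDomain (fun x : X => g • x) x :=
        map_neg (mapDomain.addMonoidHom (fun x : X => g • x)) x
      rw [this]; exact C.neg_mem hx
  have hsm : ∀ (r : MonoidAlgebra ℤ G) v, e v ∈ C → e (r • v) ∈ C := by
    intro r v hv
    induction r using MonoidAlgebra.induction_on with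
    | of g => rw [he]; exact htr g _ hv
    | add x y hx hy => rw [add_smul, map_add]; exact C.add_mem hx hy
    | smul n x hx =>
      have h1 : (n • x : MonoidAlgebra ℤ G) • v = n • (x • v) := smul_assoc n x v
      rw [h1, map_zsmul]
      exact C.zsmul_mem hx n
  induction hz using Submodule.span_induction with
  | mem x hx =>
    apply AddSubgroup.subset_closure
    refine ⟨1, e x, Finset.mem_image_of_mem e hx, ?_⟩
    have : (fun x : X => (1 : G) • x) = id := by funext x; simp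
    rw [this, mapDomain_id]
  | zero => rw [map_zero]; exact C.zero_mem
  | add x y _ _ hx hy => rw [map_add]; exact C.add_mem hx hy
  | smul r x _ hx => exact hsm r x hx

end FPAlg

open FPAlg

/-- C1: an exact complex of free permutation modules with finitely many orbits gives `FP_n`. -/
theorem typeFP_of_complex (X : ℕ → Type u) [∀ k, MulAction G (X k)]
    (hfree : ∀ k (g : G) (x : X k), g • x = x → g = 1)
    (hfin : ∀ k, Finite (MulAction.orbitRel.Quotient G (X k)))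
    (hne : Nonempty (X 0))
    (d : ∀ k, (X (k + 1) →₀ ℤ) →+ (X k →₀ ℤ))
    (hd : ∀ k (g : G) z, d k (z.mapDomain (g • ·)) = (d k z).mapDomain (g • ·))
    (h0 : ∀ z : X 0 →₀ ℤ, sumCoeff (X 0) z = 0 ↔ ∃ y, d 0 y = z)
    (hex : ∀ k z, d k z = 0 ↔ ∃ y, d (k + 1) y = z) (n : ℕ) : TypeFP n G := by
  choose c e he using fun k => exists_coord (X k) (hfree k) (hfin k)
  have hes : ∀ k (g : G) z, (e k).symm (z.mapDomain (g • ·)) = MonoidAlgebra.of ℤ G g • (e k).symm z := by
    intro k g z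
    rw [AddEquiv.symm_apply_eq, he, AddEquiv.apply_symm_apply]
  let D : ∀ k, (Fin (c (k + 1)) → MonoidAlgebra ℤ G) →ₗ[MonoidAlgebra ℤ G]
      (Fin (c k) → MonoidAlgebra ℤ G) := fun k =>
    toLin (((e k).symm.toAddMonoidHom.comp (d k)).comp (e (k + 1)).toAddMonoidHom) (by
      intro g m
      show (e k).symm (d k (e (k + 1) (MonoidAlgebra.of ℤ G g • m))) =
        MonoidAlgebra.of ℤ G g • (e k).symm (d k (e (k + 1) m))
      rw [he, hd, hes])
  have hD : ∀ k x, D k x = (e k).symm (d k (e (k + 1) x)) := fun _ _ => rfl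
  refine ⟨c, (sumCoeff (X 0)).comp (e 0).toAddMonoidHom, D, ?_, ?_, ?_, ?_⟩
  · intro m
    obtain ⟨x⟩ := hne
    refine ⟨(e 0).symm (single x m), ?_⟩
    show sumCoeff (X 0) (e 0 ((e 0).symm (single x m))) = m
    rw [AddEquiv.apply_symm_apply, sumCoeff_single]
  · intro g x
    show sumCoeff (X 0) (e 0 (MonoidAlgebra.of ℤ G g • x)) = sumCoeff (X 0) (e 0 x)
    rw [he, sumCoeff_mapDomain]
  · intro _ x
    show sumCoeff (X 0) (e 0 x) = 0 ↔ _
    rw [h0]
    constructor
    · rintro ⟨y, hy⟩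
      refine ⟨(e 1).symm y, ?_⟩
      rw [hD, AddEquiv.apply_symm_apply, hy, AddEquiv.symm_apply_apply]
    · rintro ⟨y, rfl⟩
      refine ⟨e 1 y, ?_⟩
      rw [hD, AddEquiv.apply_symm_apply]
  · intro i _ x
    rw [hD]
    have h1 : (e i).symm (d i (e (i + 1) x)) = 0 ↔ d i (e (i + 1) x) = 0 := by
      rw [AddEquiv.symm_apply_eq, map_zero]
    rw [h1, hex]
    constructor
    · rintro ⟨y, hy⟩
      refine ⟨(e (i + 1 + 1)).symm y, ?_⟩
      rw [hD, AddEquiv.apply_symm_apply, hy, AddEquiv.symm_apply_apply]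
    · rintro ⟨y, rfl⟩
      refine ⟨e (i + 1 + 1) y, ?_⟩
      rw [hD, AddEquiv.apply_symm_apply]

/-- C2: over a group of type `FP_1` the augmentation kernel of a free permutation module with
finitely many orbits is finitely generated. -/
theorem fg_ker_aug (h : TypeFP 1 G) (X₀ : Type u) [MulAction G X₀]
    (hfree : ∀ (g : G) (x : X₀), g • x = x → g = 1)
    (hfin : Finite (MulAction.orbitRel.Quotient G X₀)) (hne : Nonempty X₀) :
    ∃ S : Finset (X₀ →₀ ℤ), (∀ s ∈ S, sumCoeff X₀ s = 0) ∧ ∀ z, sumCoeff X₀ z = 0 →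
      z ∈ AddSubgroup.closure {y | ∃ g : G, ∃ s ∈ S, y = s.mapDomain (g • ·)} := by
  classical
  obtain ⟨k, ε, d, hs, hi, h0, -⟩ := h
  obtain ⟨c, e, he⟩ := exists_coord X₀ hfree hfin
  obtain ⟨T, hT, hsp⟩ := alg_C2 ε hi hs (d 0) (h0 one_pos)
    ((sumCoeff X₀).comp e.toAddMonoidHom) (by
      intro g x
      show sumCoeff X₀ (e (MonoidAlgebra.of ℤ G g • x)) = sumCoeff X₀ (e x)
      rw [he, sumCoeff_mapDomain]) (by
      intro m
      obtain ⟨x⟩ := hne
      refine ⟨e.symm (single x m), ?_⟩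
      show sumCoeff X₀ (e (e.symm (single x m))) = m
      rw [AddEquiv.apply_symm_apply, sumCoeff_single])
  refine ⟨T.image e, ?_, ?_⟩
  · intro s hs'
    obtain ⟨t, ht, rfl⟩ := Finset.mem_image.1 hs'
    exact hT t ht
  · intro z hz
    have h1 := hsp (e.symm z) (by
      show sumCoeff X₀ (e (e.symm z)) = 0
      rw [AddEquiv.apply_symm_apply, hz])
    have h2 := closure_of_span e he T (e.symm z) h1
    rwa [AddEquiv.apply_symm_apply] at h2

/-- C3: the analogous statement one step further over a group of type `FP_2`. -/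
theorem fg_ker_one (h : TypeFP 2 G) (X₀ X₁ : Type u) [MulAction G X₀] [MulAction G X₁]
    (hfree₀ : ∀ (g : G) (x : X₀), g • x = x → g = 1)
    (hfin₀ : Finite (MulAction.orbitRel.Quotient G X₀))
    (hfree₁ : ∀ (g : G) (x : X₁), g • x = x → g = 1)
    (hfin₁ : Finite (MulAction.orbitRel.Quotient G X₁))
    (hne : Nonempty X₀) (d : (X₁ →₀ ℤ) →+ (X₀ →₀ ℤ))
    (hd : ∀ (g : G) z, d (z.mapDomain (g • ·)) = (d z).mapDomain (g • ·))
    (h0 : ∀ z : X₀ →₀ ℤ, sumCoeff X₀ z = 0 ↔ ∃ y, d y = z) :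
    ∃ S : Finset (X₁ →₀ ℤ), (∀ s ∈ S, d s = 0) ∧ ∀ z, d z = 0 →
      z ∈ AddSubgroup.closure {y | ∃ g : G, ∃ s ∈ S, y = s.mapDomain (g • ·)} := by
  classical
  obtain ⟨k, ε, D, hs, hi, hD0, hD1⟩ := h
  obtain ⟨c0, e0, he0⟩ := exists_coord X₀ hfree₀ hfin₀
  obtain ⟨c1, e1, he1⟩ := exists_coord X₁ hfree₁ hfin₁
  have hes : ∀ (g : G) z, e0.symm (z.mapDomain (g • ·)) = MonoidAlgebra.of ℤ G g • e0.symm z := by
    intro g z
    rw [AddEquiv.symm_apply_eq, he0, AddEquiv.apply_symm_apply]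
  let δ : (Fin c1 → MonoidAlgebra ℤ G) →ₗ[MonoidAlgebra ℤ G] (Fin c0 → MonoidAlgebra ℤ G) :=
    toLin ((e0.symm.toAddMonoidHom.comp d).comp e1.toAddMonoidHom) (by
      intro g m
      show e0.symm (d (e1 (MonoidAlgebra.of ℤ G g • m))) =
        MonoidAlgebra.of ℤ G g • e0.symm (d (e1 m))
      rw [he1, hd, hes])
  have hδ : ∀ x, δ x = e0.symm (d (e1 x)) := fun _ => rfl
  obtain ⟨T, hT, hsp⟩ := alg_C3 ε hi hs (D 0) (hD0 two_pos) (D 1) (hD1 0 one_lt_two)
    ((sumCoeff X₀).comp e0.toAddMonoidHom) (by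
      intro g x
      show sumCoeff X₀ (e0 (MonoidAlgebra.of ℤ G g • x)) = sumCoeff X₀ (e0 x)
      rw [he0, sumCoeff_mapDomain]) (by
      intro m
      obtain ⟨x⟩ := hne
      refine ⟨e0.symm (single x m), ?_⟩
      show sumCoeff X₀ (e0 (e0.symm (single x m))) = m
      rw [AddEquiv.apply_symm_apply, sumCoeff_single]) δ (by
      intro x
      show sumCoeff X₀ (e0 x) = 0 ↔ _
      rw [h0]
      constructor
      · rintro ⟨y, hy⟩
        refine ⟨e1.symm y, ?_⟩
        rw [hδ, AddEquiv.apply_symm_apply, hy, AddEquiv.symm_apply_apply]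
      · rintro ⟨y, rfl⟩
        refine ⟨e1 y, ?_⟩
        rw [hδ, AddEquiv.apply_symm_apply])
  have hδ0 : ∀ x, δ x = 0 ↔ d (e1 x) = 0 := by
    intro x
    rw [hδ, AddEquiv.symm_apply_eq, map_zero]
  refine ⟨T.image e1, ?_, ?_⟩
  · intro s hs'
    obtain ⟨t, ht, rfl⟩ := Finset.mem_image.1 hs'
    exact (hδ0 t).1 (hT t ht)
  · intro z hz
    have h1 := hsp (e1.symm z) (by
      rw [hδ0, AddEquiv.apply_symm_apply, hz])
    have h2 := closure_of_span e1 he1 T (e1.symm z) h1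
    rwa [AddEquiv.apply_symm_apply] at h2

end Pool.Agent.DG
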