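import Pool.Agent.MP_cff99f_al.Reduction

/-! Block H: the first homology of the Squier complex, and invariance under reversal. -/

namespace Pool.Agent.DG

universe u v w

variable {α : Type u} {ι : Type v} {P : Pres α ι}

/-- The left-hand face of a cube. -/
def lfc (P : Pres α ι) (s : Cube α ι × ι × Cube α ι) : Cube α ι :=
  s.1 ++ letters (P.lhs s.2.1) ++ s.2.2

/-- The right-hand face of a cube. -/
def rfc (P : Pres α ι) (s : Cube α ι × ι × Cube α ι) : Cube α ι :=
  s.1 ++ letters (P.rhs s.2.1) ++ s.2.2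

/-- The boundary of a cube. -/
noncomputable def cb (P : Pres α ι) (q : Cube α ι) : Cube α ι →₀ ℤ :=
  ((splits q).map fun s => (-1 : ℤ) ^ dim s.1 •
    (Finsupp.single (lfc P s) (1 : ℤ) - Finsupp.single (rfc P s) (1 : ℤ))).sum

/-- The boundary map of the complex of cubes. -/
noncomputable def cbd (P : Pres α ι) : (Cube α ι →₀ ℤ) →ₗ[ℤ] (Cube α ι →₀ ℤ) :=
  Finsupp.linearCombination ℤ (cb P)

theorem cbd_single (q : Cube α ι) (a : ℤ) : cbd P (Finsupp.single q a) = a • cb P q := by
  rw [cbd, Finsupp.linearCombination_single]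

open Classical in
theorem cb_apply (q y : Cube α ι) :
    cb P q y = ((splits q).map fun s => (-1 : ℤ) ^ dim s.1 *
      ((if lfc P s = y then 1 else 0) - (if rfc P s = y then 1 else 0))).sum := by
  unfold cb
  generalize splits q = l
  induction l with
  | nil => simp
  | cons s l ih =>
    simp only [List.map_cons, List.sum_cons, Finsupp.add_apply, ih, Finsupp.smul_apply,
      Finsupp.sub_apply, Finsupp.single_apply, smul_eq_mul]

/-- The cells of the trivial covering are the cubes. -/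
noncomputable def wcell (P : Pres α ι) : (wordCov P).Cell ≃ Cube α ι where
  toFun c := c.1.2
  invFun q := ⟨(P.top q, q), rfl⟩
  left_inv c := by
    obtain ⟨⟨x, q⟩, h⟩ := c
    have h' : x = P.top q := h
    subst h'
    rfl
  right_inv q := rfl

/-- The chains of the trivial covering are the chains of cubes. -/
noncomputable def FF (P : Pres α ι) : ((wordCov P).Cell →₀ ℤ) ≃ₗ[ℤ] (Cube α ι →₀ ℤ) :=
  Finsupp.domLCongr (wcell P)

theorem FF_apply (z : (wordCov P).Cell →₀ ℤ) (q : Cube α ι) :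
    FF P z q = z ((wcell P).symm q) := by
  rw [FF, Finsupp.domLCongr_apply, Finsupp.domCongr_apply, Finsupp.equivMapDomain_apply]

theorem FF_single (c : (wordCov P).Cell) (a : ℤ) :
    FF P (Finsupp.single c a) = Finsupp.single c.1.2 a := by
  rw [FF, Finsupp.domLCongr_single]
  rfl

theorem lface_iff (c : (wordCov P).Cell) {s : Cube α ι × ι × Cube α ι} (hs : s ∈ splits c.1.2)
    (q : Cube α ι) : (wordCov P).lface c.1.1 s = (P.top q, q) ↔ lfc P s = q := by
  have h := (wordCov P).lface_valid c.2 hs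
  have h' : ((wordCov P).lface c.1.1 s).1 = P.top ((wordCov P).lface c.1.1 s).2 := h
  have h2 : ((wordCov P).lface c.1.1 s).2 = lfc P s := rfl
  constructor
  · intro e
    rw [← h2, e]
  · intro e
    refine Prod.ext ?_ ?_
    · rw [h', h2, e]
    · rw [h2, e]

theorem rface_iff (c : (wordCov P).Cell) {s : Cube α ι × ι × Cube α ι} (hs : s ∈ splits c.1.2)
    (q : Cube α ι) : (wordCov P).rface c.1.1 s = (P.top q, q) ↔ rfc P s = q := by
  have h := (wordCov P).rface_valid c.2 hs
  have h' : ((wordCov P).rface c.1.1 s).1 = P.top ((wordCov P).rface c.1.1 s).2 := h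
  have h2 : ((wordCov P).rface c.1.1 s).2 = rfc P s := rfl
  constructor
  · intro e
    rw [← h2, e]
  · intro e
    refine Prod.ext ?_ ?_
    · rw [h', h2, e]
    · rw [h2, e]

theorem FF_bd (z : (wordCov P).Cell →₀ ℤ) : FF P ((wordCov P).bd z) = cbd P (FF P z) := by
  classical
  have key : ((FF P : _ ≃ₗ[ℤ] _) : _ →ₗ[ℤ] _) ∘ₗ (wordCov P).bd =
      cbd P ∘ₗ ((FF P : _ ≃ₗ[ℤ] _) : _ →ₗ[ℤ] _) := by
    refine Finsupp.lhom_ext' fun c => LinearMap.ext_ring ?_
    ext q
    simp only [LinearMap.comp_apply, Finsupp.lsingle_apply, LinearEquiv.coe_coe]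
    rw [FF_single, cbd_single, one_smul, FF_apply, Cov.bd_single, rawBd_apply, cb_apply]
    refine congrArg List.sum (List.map_congr_left fun s hs => ?_)
    exact congrArg₂ (· * ·) rfl (congrArg₂ (· - ·) (if_congr (lface_iff c hs q) rfl rfl)
      (if_congr (rface_iff c hs q) rfl rfl))
  exact LinearMap.congr_fun key z

/-- The map `rho` on chains of cubes. -/
noncomputable def rhoL (P : Pres α ι) :
    (Cube α ι →₀ ℤ) →ₗ[ℤ] (List (List α × ι) × List α →₀ ℤ) :=
  Finsupp.linearCombination ℤ (rho P)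

theorem rhoL_FF (z : (wordCov P).Cell →₀ ℤ) : rhoL P (FF P z) = (wordCov P).rho z := by
  have key : rhoL P ∘ₗ ((FF P : _ ≃ₗ[ℤ] _) : _ →ₗ[ℤ] _) = (wordCov P).rho := by
    refine Finsupp.lhom_ext' fun c => LinearMap.ext_ring ?_
    simp only [LinearMap.comp_apply, Finsupp.lsingle_apply, LinearEquiv.coe_coe]
    rw [FF_single, rhoL, Finsupp.linearCombination_single, Cov.rho,
      Finsupp.linearCombination_single]
  exact LinearMap.congr_fun key z

theorem FF_supported {D : Set (Cube α ι)} {z : (wordCov P).Cell →₀ ℤ} :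
    FF P z ∈ Finsupp.supported ℤ ℤ D ↔
      z ∈ Finsupp.supported ℤ ℤ {c : (wordCov P).Cell | c.1.2 ∈ D} := by
  rw [Finsupp.mem_supported', Finsupp.mem_supported']
  constructor
  · intro h c hc
    have := h c.1.2 hc
    rw [FF_apply] at this
    have e : (wcell P).symm c.1.2 = c := (wcell P).symm_apply_apply c
    rwa [e] at this
  · intro h q hq
    rw [FF_apply]
    exact h _ hq

/-- The reduction for chains of cubes. -/
theorem reduction' (hP : Complete P) :
    ∃ D : Set (Cube α ι),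
      let N := Finsupp.supported ℤ ℤ D ⊔ (Finsupp.supported ℤ ℤ D).map (cbd P)
      (∀ z, ∃ c ∈ Finsupp.supported ℤ ℤ {q | IsCrit P q}, z - c ∈ N) ∧
      (∀ c ∈ Finsupp.supported ℤ ℤ {q | IsCrit P q}, c ∈ N → c = 0) ∧
      (∀ z ∈ N, cbd P z = 0 → ∃ y ∈ Finsupp.supported ℤ ℤ D, cbd P y = z) ∧
      (∀ z ∈ N, rhoL P z = 0) := by
  obtain ⟨D, hD⟩ := reduction.{u, v, u} hP
  obtain ⟨h1, h2, h3, h4⟩ := hD (wordCov P)
  refine ⟨D, ?_⟩
  have hN : ∀ z : (wordCov P).Cell →₀ ℤ, FF P z ∈ Finsupp.supported ℤ ℤ D ⊔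
      (Finsupp.supported ℤ ℤ D).map (cbd P) ↔ z ∈
      Finsupp.supported ℤ ℤ {c : (wordCov P).Cell | c.1.2 ∈ D} ⊔
        (Finsupp.supported ℤ ℤ {c : (wordCov P).Cell | c.1.2 ∈ D}).map (wordCov P).bd := by
    intro z
    rw [Submodule.mem_sup, Submodule.mem_sup]
    constructor
    · rintro ⟨y, hy, t, ht, hz⟩
      obtain ⟨t', ht', rfl⟩ := Submodule.mem_map.1 ht
      refine ⟨(FF P).symm y, ?_, (wordCov P).bd ((FF P).symm t'), ?_, ?_⟩
      · rw [← FF_supported, LinearEquiv.apply_symm_apply]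
        exact hy
      · refine Submodule.mem_map_of_mem ?_
        rw [← FF_supported, LinearEquiv.apply_symm_apply]
        exact ht'
      · apply (FF P).injective
        rw [map_add, FF_bd, LinearEquiv.apply_symm_apply, LinearEquiv.apply_symm_apply]
        exact hz
    · rintro ⟨y, hy, t, ht, hz⟩
      obtain ⟨t', ht', rfl⟩ := Submodule.mem_map.1 ht
      refine ⟨FF P y, FF_supported.2 hy, cbd P (FF P t'), Submodule.mem_map_of_mem
        (FF_supported.2 ht'), ?_⟩
      rw [← FF_bd, ← map_add, hz]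
  refine ⟨?_, ?_, ?_, ?_⟩
  · intro z
    obtain ⟨c, hc, hz⟩ := h1 ((FF P).symm z)
    refine ⟨FF P c, FF_supported.2 hc, ?_⟩
    have := (hN _).2 hz
    rwa [map_sub, LinearEquiv.apply_symm_apply] at this
  · intro c hc hcN
    have e : FF P ((FF P).symm c) = c := LinearEquiv.apply_symm_apply _ _
    have := h2 ((FF P).symm c) (FF_supported.1 (by rw [e]; exact hc)) ((hN _).1 (by rw [e]; exact hcN))
    rw [← e, this, map_zero]
  · intro z hz hb
    have e : FF P ((FF P).symm z) = z := LinearEquiv.apply_symm_apply _ _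
    obtain ⟨y, hy, hyz⟩ := h3 ((FF P).symm z) ((hN _).1 (by rw [e]; exact hz)) (by
      apply (FF P).injective
      rw [FF_bd, e, hb, map_zero])
    refine ⟨FF P y, FF_supported.2 hy, ?_⟩
    rw [← FF_bd, hyz, e]
  · intro z hz
    have e : FF P ((FF P).symm z) = z := LinearEquiv.apply_symm_apply _ _
    have := h4 ((FF P).symm z) ((hN _).1 (by rw [e]; exact hz))
    rw [← e, rhoL_FF, this]

theorem cbd_cbd (z : Cube α ι →₀ ℤ) : cbd P (cbd P z) = 0 := by
  have e : FF P ((FF P).symm z) = z := LinearEquiv.apply_symm_apply _ _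
  rw [← e, ← FF_bd, ← FF_bd, bd_bd, map_zero]

theorem rhoL_cbd (hP : Complete P) (z : Cube α ι →₀ ℤ) : rhoL P (cbd P z) = 0 := by
  have e : FF P ((FF P).symm z) = z := LinearEquiv.apply_symm_apply _ _
  rw [← e, ← FF_bd, rhoL_FF, rho_bd hP]

theorem blocks_len (q : Cube α ι) : ∀ u, (blocks u q).1.length = dim q := by
  induction q with
  | nil => intro u; rfl
  | cons c q ih =>
    intro u
    rcases c with x | e
    · exact ih _
    · simp only [blocks, List.length_cons, ih, dim_inr]

theorem blocks_word (q : Cube α ι) :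
    ∀ u, siteWord P (blocks u q).1 (blocks u q).2 = u ++ P.top q := by
  induction q with
  | nil => intro u; simp [blocks, siteWord]
  | cons c q ih =>
    intro u
    rcases c with x | e
    · have := ih (u ++ [x])
      simpa [blocks] using this
    · have := ih []
      simp only [blocks, siteWord, List.flatMap_cons, top_inr] at this ⊢
      rw [List.append_assoc, this]
      simp

theorem cong_refl (x : List α) : Cong P x x := Relation.EqvGen.refl _

theorem cong_trans {x y z : List α} (h : Cong P x y) (h' : Cong P y z) : Cong P x z :=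
  Relation.EqvGen.trans _ _ _ h h'

theorem cong_symm {x y : List α} (h : Cong P x y) : Cong P y x :=
  Relation.EqvGen.symm _ _ h

theorem cong_siteWord_nf (hP : Complete P) (L : List (List α × ι)) (t : List α) :
    Cong P (siteWord P L t) (siteWord P (L.map fun p => (nf P p.1, p.2)) (nf P t)) := by
  induction L with
  | nil => simpa [siteWord] using cong_nf hP t
  | cons p L ih =>
    have h1 : Cong P (p.1 ++ P.lhs p.2) (nf P p.1 ++ P.lhs p.2) :=
      cong_append (cong_nf hP p.1) (cong_refl _)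
    have := cong_append h1 ih
    simpa [siteWord, List.append_assoc] using this

theorem rho_mem (hP : Complete P) (q : Cube α ι) :
    rho P q ∈ Finsupp.supported ℤ ℤ (Crit P (dim q) (P.top q)) := by
  classical
  unfold rho
  split_ifs with h
  · apply Finsupp.single_mem_supported
    refine ⟨?_, ?_, irr_nf hP _, ?_⟩
    · simp only [List.length_map]
      exact blocks_len q []
    · intro p hp
      obtain ⟨p', hp', rfl⟩ := List.mem_map.1 hp
      exact h p' hp'
    · have h1 := cong_siteWord_nf hP (blocks [] q).1 (blocks [] q).2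
      rw [blocks_word, List.nil_append] at h1
      exact cong_symm h1
  · exact Submodule.zero_mem _

/-- The cubes of dimension `n` in the class of `s`. -/
def CC (P : Pres α ι) (n : ℕ) (s : List α) : Set (Cube α ι) := {q | dim q = n ∧ Cong P (P.top q) s}

theorem rhoL_mem (hP : Complete P) {n : ℕ} {s : List α} {z : Cube α ι →₀ ℤ}
    (hz : z ∈ Finsupp.supported ℤ ℤ (CC P n s)) :
    rhoL P z ∈ Finsupp.supported ℤ ℤ (Crit P n s) := by
  rw [rhoL, Finsupp.linearCombination_apply, Finsupp.sum]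
  refine Submodule.sum_mem _ fun q hq => Submodule.smul_mem _ _ ?_
  have hq' : q ∈ CC P n s := hz hq
  refine Finsupp.supported_mono ?_ (rho_mem hP q)
  rintro x ⟨h1, h2, h3, h4⟩
  exact ⟨h1.trans hq'.1, h2, h3, cong_trans h4 hq'.2⟩

/-- The cube of a datum. -/
def KK (k : List (List α × ι) × List α) : Cube α ι := critCube k.1 k.2

theorem KK_injective : Function.Injective (KK : List (List α × ι) × List α → Cube α ι) := by
  rintro ⟨L, t⟩ ⟨L', t'⟩ h
  obtain ⟨h1, h2⟩ := critCube_injective h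
  exact Prod.ext h1 h2

/-- A datum of sites. -/
def Dat (P : Pres α ι) : Set (List (List α × ι) × List α) :=
  {k | (∀ p ∈ k.1, MSite P p.1 p.2) ∧ Irr P k.2}

theorem isCrit_iff {q : Cube α ι} : IsCrit P q ↔ ∃ k ∈ Dat P, q = KK k := by
  constructor
  · rintro ⟨L, t, h1, h2, h3⟩
    exact ⟨(L, t), ⟨h1, h2⟩, h3⟩
  · rintro ⟨k, ⟨h1, h2⟩, h3⟩
    exact ⟨k.1, k.2, h1, h2, h3⟩

theorem rhoL_KK (hP : Complete P) {k : List (List α × ι) × List α} (hk : k ∈ Dat P) (a : ℤ) :
    rhoL P (Finsupp.single (KK k) a) = Finsupp.single k a := by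
  rw [rhoL, Finsupp.linearCombination_single, KK, rho_critCube hP hk.1 hk.2]
  simp

theorem rhoL_apply_crit (hP : Complete P) {c : Cube α ι →₀ ℤ}
    (hc : c ∈ Finsupp.supported ℤ ℤ {q | IsCrit P q}) {k : List (List α × ι) × List α}
    (hk : k ∈ Dat P) : rhoL P c k = c (KK k) := by
  classical
  rw [rhoL, Finsupp.linearCombination_apply, Finsupp.sum_apply, Finsupp.sum]
  rw [Finset.sum_eq_single (KK k)]
  · have := rhoL_KK hP hk 1
    rw [rhoL, Finsupp.linearCombination_single, one_smul] at this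
    rw [this]
    simp
  · intro q hq hne
    obtain ⟨k', hk', rfl⟩ := isCrit_iff.1 (hc hq)
    have := rhoL_KK hP hk' 1
    rw [rhoL, Finsupp.linearCombination_single, one_smul] at this
    rw [this, Finsupp.smul_apply, Finsupp.single_apply, if_neg (fun e => hne (by rw [e]))]
    simp
  · intro h
    rw [Finsupp.notMem_support_iff.1 h]
    simp

theorem eq_zero_of_rhoL (hP : Complete P) {c : Cube α ι →₀ ℤ}
    (hc : c ∈ Finsupp.supported ℤ ℤ {q | IsCrit P q}) (h : rhoL P c = 0) : c = 0 := by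
  ext q
  by_contra hq
  have hq' : q ∈ c.support := Finsupp.mem_support_iff.2 hq
  obtain ⟨k, hk, rfl⟩ := isCrit_iff.1 (hc hq')
  rw [← rhoL_apply_crit hP hc hk, h] at hq
  exact hq rfl

/-- The one-dimensional cycles in the class of `s`. -/
noncomputable def Z1 (P : Pres α ι) (s : List α) : Submodule ℤ (Cube α ι →₀ ℤ) :=
  Finsupp.supported ℤ ℤ (CC P 1 s) ⊓ LinearMap.ker (cbd P)

/-- The first homology of the class of `s` is finitely generated. -/
def H1fg (P : Pres α ι) (s : List α) : Prop :=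
  ∃ S : Set (Cube α ι →₀ ℤ), S.Finite ∧ Z1 P s ≤ LinearMap.range (cbd P) ⊔ Submodule.span ℤ S

theorem crit_dat {n : ℕ} {s : List α} {k : List (List α × ι) × List α} (hk : k ∈ Crit P n s) :
    k ∈ Dat P := ⟨hk.2.1, hk.2.2.1⟩

/-- Correction of critical cells to cycles. -/
theorem exists_corr (hP : Complete P) {D : Set (Cube α ι)}
    (h1 : ∀ z, ∃ c ∈ Finsupp.supported ℤ ℤ {q | IsCrit P q}, z - c ∈
      Finsupp.supported ℤ ℤ D ⊔ (Finsupp.supported ℤ ℤ D).map (cbd P))
    (h3 : ∀ z ∈ Finsupp.supported ℤ ℤ D ⊔ (Finsupp.supported ℤ ℤ D).map (cbd P),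
      cbd P z = 0 → ∃ y ∈ Finsupp.supported ℤ ℤ D, cbd P y = z)
    (h4 : ∀ z ∈ Finsupp.supported ℤ ℤ D ⊔ (Finsupp.supported ℤ ℤ D).map (cbd P), rhoL P z = 0)
    (x : Cube α ι →₀ ℤ) : ∃ n ∈ Finsupp.supported ℤ ℤ D, cbd P n = cbd P x := by
  obtain ⟨c, hc, hz⟩ := h1 (cbd P x)
  have hc0 : c = 0 := by
    apply eq_zero_of_rhoL hP hc
    have := h4 _ hz
    rw [map_sub, rhoL_cbd hP, zero_sub, neg_eq_zero] at this
    exact this
  rw [hc0, sub_zero] at hz
  exact h3 _ hz (cbd_cbd x)

theorem H1fg_of_crit (hP : Complete P) {s : List α} (h : (Crit P 1 s).Finite) : H1fg P s := by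
  classical
  obtain ⟨D, h1, h2, h3, h4⟩ := reduction' hP
  choose n hn1 hn2 using exists_corr hP h1 h3 h4
  let f : List (List α × ι) × List α → Cube α ι →₀ ℤ := fun k =>
    Finsupp.single (KK k) 1 - n (Finsupp.single (KK k) 1)
  refine ⟨f '' Crit P 1 s, h.image f, ?_⟩
  rintro z ⟨hz1, hz2⟩
  obtain ⟨c, hc, hm⟩ := h1 z
  have hrc : rhoL P z = rhoL P c := by
    have := h4 _ hm
    rw [map_sub] at this
    exact sub_eq_zero.1 this
  have hsum : c = ∑ k ∈ h.toFinset, c (KK k) • Finsupp.single (KK k) (1 : ℤ) := by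
    ext q
    rw [Finsupp.finsetSum_apply]
    by_cases hq : ∃ k ∈ Crit P 1 s, q = KK k
    · obtain ⟨k, hk, rfl⟩ := hq
      rw [Finset.sum_eq_single k]
      · simp
      · intro k' _ hne
        rw [Finsupp.smul_apply, Finsupp.single_apply, if_neg (fun e => hne (KK_injective e))]
        simp
      · intro hk'
        exact absurd (h.mem_toFinset.2 hk) hk'
    · rw [Finset.sum_eq_zero]
      · by_contra hne
        have hq' : q ∈ c.support := Finsupp.mem_support_iff.2 hne
        obtain ⟨k, hk, rfl⟩ := isCrit_iff.1 (hc hq')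
        apply hq
        refine ⟨k, ?_, rfl⟩
        apply rhoL_mem hP hz1
        rw [Finset.mem_coe, Finsupp.mem_support_iff, hrc, rhoL_apply_crit hP hc hk]
        exact hne
      · intro k hk
        rw [Finsupp.smul_apply, Finsupp.single_apply,
          if_neg (fun e => hq ⟨k, h.mem_toFinset.1 hk, e.symm⟩)]
        simp
  have hfz : ∀ k, cbd P (f k) = 0 := by
    intro k
    change cbd P (_ - _) = 0
    rw [map_sub, hn2, sub_self]
  have hw : z - ∑ k ∈ h.toFinset, c (KK k) • f k ∈
      Finsupp.supported ℤ ℤ D ⊔ (Finsupp.supported ℤ ℤ D).map (cbd P) := by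
    have e1 : ∑ k ∈ h.toFinset, c (KK k) • f k =
        ∑ k ∈ h.toFinset, c (KK k) • Finsupp.single (KK k) (1 : ℤ) -
        ∑ k ∈ h.toFinset, c (KK k) • n (Finsupp.single (KK k) 1) := by
      rw [← Finset.sum_sub_distrib]
      exact Finset.sum_congr rfl fun k _ => smul_sub _ _ _
    have e : z - ∑ k ∈ h.toFinset, c (KK k) • f k =
        (z - c) + ∑ k ∈ h.toFinset, c (KK k) • n (Finsupp.single (KK k) 1) := by
      rw [e1, ← hsum]
      abel
    rw [e]
    refine Submodule.add_mem _ hm (Submodule.sum_mem _ fun k _ => Submodule.smul_mem _ _ ?_)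
    exact Submodule.mem_sup_left (hn1 _)
  obtain ⟨y, hy, hyz⟩ := h3 _ hw (by
    rw [map_sub, map_sum, LinearMap.mem_ker.1 hz2, zero_sub, neg_eq_zero]
    refine Finset.sum_eq_zero fun k _ => ?_
    rw [map_smul, hfz, smul_zero])
  refine Submodule.mem_sup.2 ⟨cbd P y, LinearMap.mem_range_self _ _, _, ?_,
    (eq_sub_iff_add_eq.1 hyz)⟩
  refine Submodule.sum_mem _ fun k hk => Submodule.smul_mem _ _ (Submodule.subset_span ?_)
  exact ⟨k, h.mem_toFinset.1 hk, rfl⟩

theorem dim_lfc {q : Cube α ι} {t : Cube α ι × ι × Cube α ι} (ht : t ∈ splits q) :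
    dim (lfc P t) + 1 = dim q := by
  rw [mem_splits] at ht
  rw [ht]
  simp [lfc]
  omega

theorem dim_rfc {q : Cube α ι} {t : Cube α ι × ι × Cube α ι} (ht : t ∈ splits q) :
    dim (rfc P t) + 1 = dim q := by
  rw [mem_splits] at ht
  rw [ht]
  simp [rfc]
  omega

theorem top_lfc {q : Cube α ι} {t : Cube α ι × ι × Cube α ι} (ht : t ∈ splits q) :
    P.top (lfc P t) = P.top q := by
  rw [mem_splits] at ht
  rw [ht]
  simp [lfc]

theorem top_rfc {q : Cube α ι} {t : Cube α ι × ι × Cube α ι} (ht : t ∈ splits q) :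
    Cong P (P.top q) (P.top (rfc P t)) := by
  rw [mem_splits] at ht
  rw [ht]
  refine Relation.EqvGen.rel _ _ ⟨P.top t.1, t.2.1, P.top t.2.2, ?_, ?_⟩
  · simp
  · simp [rfc]

theorem lfc_mem {n : ℕ} {s : List α} {q : Cube α ι} {t : Cube α ι × ι × Cube α ι}
    (ht : t ∈ splits q) : lfc P t ∈ CC P n s ↔ q ∈ CC P (n + 1) s := by
  have h1 := dim_lfc (P := P) ht
  have h2 := top_lfc (P := P) ht
  constructor
  · rintro ⟨h3, h4⟩
    exact ⟨by omega, h2 ▸ h4⟩
  · rintro ⟨h3, h4⟩
    exact ⟨by omega, by rw [h2]; exact h4⟩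

theorem rfc_mem {n : ℕ} {s : List α} {q : Cube α ι} {t : Cube α ι × ι × Cube α ι}
    (ht : t ∈ splits q) : rfc P t ∈ CC P n s ↔ q ∈ CC P (n + 1) s := by
  have h1 := dim_rfc (P := P) ht
  have h2 := top_rfc (P := P) ht
  constructor
  · rintro ⟨h3, h4⟩
    exact ⟨by omega, cong_trans h2 h4⟩
  · rintro ⟨h3, h4⟩
    exact ⟨by omega, cong_trans (cong_symm h2) h4⟩

theorem cb_mem_of {q : Cube α ι} {A : Set (Cube α ι)}
    (h1 : ∀ t ∈ splits q, lfc P t ∈ A) (h2 : ∀ t ∈ splits q, rfc P t ∈ A) :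
    cb P q ∈ Finsupp.supported ℤ ℤ A := by
  unfold cb
  refine list_sum_mem fun x hx => ?_
  obtain ⟨t, ht, rfl⟩ := List.mem_map.1 hx
  exact Submodule.smul_mem _ _ (Submodule.sub_mem _ (Finsupp.single_mem_supported _ _ (h1 t ht))
    (Finsupp.single_mem_supported _ _ (h2 t ht)))

open Classical in
theorem cbd_filter (n : ℕ) (s : List α) (z : Cube α ι →₀ ℤ) :
    (cbd P z).filter (fun q => q ∈ CC P n s) = cbd P (z.filter fun q => q ∈ CC P (n + 1) s) := by
  induction z using Finsupp.induction_linear with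
  | zero => rw [map_zero, Finsupp.filter_zero, Finsupp.filter_zero, map_zero]
  | add f g hf hg => rw [map_add, Finsupp.filter_add, hf, hg, Finsupp.filter_add, map_add]
  | single q a =>
    by_cases hq : q ∈ CC P (n + 1) s
    · rw [Finsupp.filter_single_of_pos _ hq, Finsupp.filter_eq_self_iff, cbd_single]
      intro x hx
      have h1 : cb P q ∈ Finsupp.supported ℤ ℤ (CC P n s) :=
        cb_mem_of (fun t ht => (lfc_mem ht).2 hq) fun t ht => (rfc_mem ht).2 hq
      exact (Submodule.smul_mem _ a h1) (Finsupp.mem_support_iff.2 hx)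
    · rw [Finsupp.filter_single_of_neg _ hq, map_zero, Finsupp.filter_eq_zero_iff, cbd_single]
      intro x hx
      have h1 : cb P q ∈ Finsupp.supported ℤ ℤ (CC P n s)ᶜ :=
        cb_mem_of (fun t ht h => hq ((lfc_mem ht).1 h)) fun t ht h => hq ((rfc_mem ht).1 h)
      by_contra hne
      exact (Submodule.smul_mem _ a h1) (Finsupp.mem_support_iff.2 hne) hx

theorem crit_of_H1fg (hP : Complete P) {s : List α} (h : H1fg P s) : (Crit P 1 s).Finite := by
  classical
  obtain ⟨D, h1, h2, h3, h4⟩ := reduction' hP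
  obtain ⟨S, hS, hZ⟩ := h
  have hfin : (⋃ x ∈ S, ((rhoL P x).support : Set (List (List α × ι) × List α))).Finite :=
    hS.biUnion fun x _ => Finset.finite_toSet _
  refine hfin.subset fun k hk => ?_
  obtain ⟨m, hm1, hm2⟩ := exists_corr hP h1 h3 h4 (Finsupp.single (KK k) 1)
  set m' := m.filter fun q => q ∈ CC P 1 s with hm'
  have hkC : KK k ∈ CC P 1 s := by
    obtain ⟨e1, e2, e3, e4⟩ := hk
    refine ⟨?_, ?_⟩
    · rw [KK, dim_critCube]; exact e1
    · rw [KK, top_critCube]; exact e4
  have hw : Finsupp.single (KK k) 1 - m' ∈ Z1 P s := by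
    refine ⟨Submodule.sub_mem _ (Finsupp.single_mem_supported _ _ hkC) ?_, ?_⟩
    · intro q hq
      rw [hm', Finset.mem_coe, Finsupp.support_filter, Finset.mem_filter] at hq
      exact hq.2
    · change cbd P _ = 0
      rw [map_sub, sub_eq_zero, hm', ← cbd_filter, hm2, cbd_filter,
        Finsupp.filter_single_of_pos _ hkC]
  have hrm : rhoL P m' = 0 := by
    apply h4
    refine Submodule.mem_sup_left ?_
    intro q hq
    rw [hm', Finset.mem_coe, Finsupp.support_filter, Finset.mem_filter] at hq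
    exact hm1 hq.1
  have hrw : rhoL P (Finsupp.single (KK k) 1 - m') = Finsupp.single k 1 := by
    rw [map_sub, hrm, sub_zero, rhoL_KK hP (crit_dat hk)]
  obtain ⟨y, hy, t, ht, hyt⟩ := Submodule.mem_sup.1 (hZ hw)
  obtain ⟨y', rfl⟩ := LinearMap.mem_range.1 hy
  have hspan : rhoL P t ∈ Finsupp.supported ℤ ℤ
      (⋃ x ∈ S, ((rhoL P x).support : Set (List (List α × ι) × List α))) := by
    have : Submodule.span ℤ S ≤ (Finsupp.supported ℤ ℤ
        (⋃ x ∈ S, ((rhoL P x).support : Set (List (List α × ι) × List α)))).comap (rhoL P) := by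
      rw [Submodule.span_le]
      intro x hx
      change rhoL P x ∈ Finsupp.supported ℤ ℤ _
      rw [Finsupp.mem_supported]
      exact Set.subset_biUnion_of_mem (u := fun x => ((rhoL P x).support :
        Set (List (List α × ι) × List α))) hx
    exact this ht
  apply hspan
  rw [← hyt, map_add, rhoL_cbd hP, zero_add] at hrw
  rw [hrw]
  simp

/-! ### Reversal -/

theorem dim_reverse (q : Cube α ι) : dim q.reverse = dim q := by
  induction q with
  | nil => rfl
  | cons c q ih => rcases c with x | i <;> simp [ih]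

theorem letters_reverse (x : List α) : (letters x.reverse : Cube α ι) = (letters x).reverse := by
  simp [letters]

theorem top_reverse (q : Cube α ι) : P.rev.top q.reverse = (P.top q).reverse := by
  induction q with
  | nil => rfl
  | cons c q ih =>
    rcases c with x | i
    · simp [ih]
    · have : P.rev.lhs i = (P.lhs i).reverse := rfl
      simp [ih, this]

theorem rev_rev : P.rev.rev = P := by
  cases P
  simp [Pres.rev]

/-- The reversed splitting. -/
def sg (t : Cube α ι × ι × Cube α ι) : Cube α ι × ι × Cube α ι := (t.2.2.reverse, t.2.1, t.1.reverse)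

theorem sg_injective : Function.Injective (sg : Cube α ι × ι × Cube α ι → _) := by
  rintro ⟨a, i, b⟩ ⟨a', i', b'⟩ h
  simp only [sg, Prod.mk.injEq, List.reverse_inj] at h
  rw [h.1, h.2.1, h.2.2]

theorem splits_reverse (q : Cube α ι) : (splits q.reverse).Perm ((splits q).map sg) := by
  rw [List.perm_ext_iff_of_nodup (splits_nodup _) ((splits_nodup _).map sg_injective)]
  intro t
  rw [mem_splits, List.mem_map]
  constructor
  · intro h
    refine ⟨sg t, ?_, ?_⟩
    · rw [mem_splits, ← List.reverse_reverse q, h]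
      simp [sg]
    · simp [sg]
  · rintro ⟨t', ht', rfl⟩
    rw [mem_splits] at ht'
    rw [ht']
    simp [sg]

theorem lfc_sg (t : Cube α ι × ι × Cube α ι) : lfc P.rev (sg t) = (lfc P t).reverse := by
  simp [lfc, sg, Pres.rev, letters_reverse]

theorem rfc_sg (t : Cube α ι × ι × Cube α ι) : rfc P.rev (sg t) = (rfc P t).reverse := by
  simp [rfc, sg, Pres.rev, letters_reverse]

/-- Reversal of cubes. -/
def rvE (α : Type u) (ι : Type v) : Cube α ι ≃ Cube α ι :=
  ⟨List.reverse, List.reverse, List.reverse_reverse, List.reverse_reverse⟩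

/-- Reversal of chains of cubes. -/
noncomputable def Rv (α : Type u) (ι : Type v) : (Cube α ι →₀ ℤ) ≃ₗ[ℤ] (Cube α ι →₀ ℤ) :=
  Finsupp.domLCongr (rvE α ι)

theorem Rv_single (q : Cube α ι) (a : ℤ) :
    Rv α ι (Finsupp.single q a) = Finsupp.single q.reverse a := by
  rw [Rv, Finsupp.domLCongr_single]
  rfl

theorem Rv_apply (z : Cube α ι →₀ ℤ) (q : Cube α ι) : Rv α ι z q = z q.reverse := by
  rw [Rv, Finsupp.domLCongr_apply, Finsupp.domCongr_apply, Finsupp.equivMapDomain_apply]
  rfl

theorem cb_reverse (q : Cube α ι) :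
    cb P.rev q.reverse = (-1 : ℤ) ^ (dim q + 1) • Rv α ι (cb P q) := by
  unfold cb
  rw [((splits_reverse q).map _).sum_eq, map_list_sum, List.map_map, List.map_map,
    List.smul_sum, List.map_map]
  refine congrArg List.sum (List.map_congr_left fun t ht => ?_)
  simp only [Function.comp_apply]
  rw [lfc_sg, rfc_sg, map_smul, map_sub, Rv_single, Rv_single, smul_smul]
  congr 1
  have h1 : (sg t).1 = t.2.2.reverse := rfl
  have h2 := congrArg dim (mem_splits.1 ht)
  rw [dim_append, dim_inr] at h2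
  rw [h1, dim_reverse, h2, ← pow_add]
  have h3 : dim t.1 + (dim t.2.2 + 1) + 1 + dim t.1 = 2 * (dim t.1 + 1) + dim t.2.2 := by omega
  rw [h3, pow_add, pow_mul]
  simp

theorem mem_CC_reverse {n : ℕ} {s : List α} {q : Cube α ι} :
    q.reverse ∈ CC P.rev n s.reverse ↔ q ∈ CC P n s := by
  change dim q.reverse = n ∧ Cong P.rev (P.rev.top q.reverse) s.reverse ↔ _
  rw [dim_reverse, top_reverse, cong_rev]
  rfl

theorem cbd_Rv {n : ℕ} {s : List α} {z : Cube α ι →₀ ℤ}
    (hz : z ∈ Finsupp.supported ℤ ℤ (CC P n s)) :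
    cbd P.rev (Rv α ι z) = (-1 : ℤ) ^ (n + 1) • Rv α ι (cbd P z) := by
  have hz' : z = z.sum fun q a => Finsupp.single q a := (Finsupp.sum_single z).symm
  rw [hz', Finsupp.sum, map_sum, map_sum, map_sum, map_sum, Finset.smul_sum]
  refine Finset.sum_congr rfl fun q hq => ?_
  have hq' : q ∈ CC P n s := hz hq
  rw [Rv_single, cbd_single, cbd_single, cb_reverse, hq'.1, map_smul, smul_comm]

theorem Rv_cbd_mem (y : Cube α ι →₀ ℤ) :
    Rv α ι (cbd P.rev y) ∈ LinearMap.range (cbd P) := by
  induction y using Finsupp.induction_linear with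
  | zero => rw [map_zero, map_zero]; exact Submodule.zero_mem _
  | add f g hf hg => rw [map_add, map_add]; exact Submodule.add_mem _ hf hg
  | single q a =>
    have h := cb_reverse (P := P) q.reverse
    rw [List.reverse_reverse] at h
    rw [cbd_single, map_smul, h, map_smul]
    refine Submodule.smul_mem _ _ (Submodule.smul_mem _ _ ?_)
    have e : Rv α ι (Rv α ι (cb P q.reverse)) = cb P q.reverse := by
      ext x
      rw [Rv_apply, Rv_apply, List.reverse_reverse]
    rw [e]
    refine ⟨Finsupp.single q.reverse 1, ?_⟩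
    rw [cbd_single, one_smul]

theorem Rv_Rv (z : Cube α ι →₀ ℤ) : Rv α ι (Rv α ι z) = z := by
  ext x
  rw [Rv_apply, Rv_apply, List.reverse_reverse]

theorem H1fg_of_rev {s : List α} (h : H1fg P.rev s.reverse) : H1fg P s := by
  obtain ⟨S, hS, hZ⟩ := h
  refine ⟨Rv α ι '' S, hS.image _, fun z hz => ?_⟩
  have h1 : Rv α ι z ∈ Z1 P.rev s.reverse := by
    refine ⟨?_, ?_⟩
    · intro q hq
      rw [Finset.mem_coe, Finsupp.mem_support_iff, Rv_apply] at hq
      have h2 : q.reverse ∈ CC P 1 s := hz.1 (Finsupp.mem_support_iff.2 hq)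
      rw [← mem_CC_reverse, List.reverse_reverse] at h2
      exact h2
    · change cbd P.rev _ = 0
      have h2 : cbd P z = 0 := hz.2
      rw [cbd_Rv hz.1, h2, map_zero, smul_zero]
  obtain ⟨y, hy, t, ht, hyt⟩ := Submodule.mem_sup.1 (hZ h1)
  obtain ⟨y', rfl⟩ := LinearMap.mem_range.1 hy
  refine Submodule.mem_sup.2 ⟨Rv α ι (cbd P.rev y'), Rv_cbd_mem y', Rv α ι t, ?_, ?_⟩
  · have h2 : Rv α ι t ∈ (Submodule.span ℤ S).map ((Rv α ι : _ ≃ₗ[ℤ] _) : _ →ₗ[ℤ] _) :=
      Submodule.mem_map_of_mem ht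
    rw [Submodule.map_span] at h2
    exact h2
  · rw [← map_add, hyt, Rv_Rv]

theorem H1fg_rev {s : List α} : H1fg P s ↔ H1fg P.rev s.reverse := by
  refine ⟨fun h => H1fg_of_rev ?_, H1fg_of_rev⟩
  rw [rev_rev, List.reverse_reverse]
  exact h

/-- The critical data of degree `1` over `s` are finite in number iff the same holds for the
reversed presentation and word. -/
theorem crit_one_rev (hP : Complete P) (s : List α) :
    (Crit P 1 s).Finite ↔ (Crit P.rev 1 s.reverse).Finite :=
  ⟨fun h => crit_of_H1fg (rev_complete hP) (H1fg_rev.1 (H1fg_of_crit hP h)),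
    fun h => crit_of_H1fg hP (H1fg_rev.2 (H1fg_of_crit (rev_complete hP) h))⟩

end Pool.Agent.DG
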