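import Mathlib

/-! Block A: the algebraic Morse matching lemma. -/

namespace Pool.Agent.DG

universe u

namespace Matching

variable {I : Type u} {d : (I →₀ ℤ) →ₗ[ℤ] (I →₀ ℤ)} {U D : Set I} {m : I → I}
  {r : I → I → Prop}

/-- the value of `d z` at `x` -/
theorem d_apply (z : I →₀ ℤ) (x : I) :
    (d z) x = z.sum fun j c => c * (d (Finsupp.single j 1)) x := by
  conv_lhs => rw [← Finsupp.sum_single z]
  rw [Finsupp.sum, map_sum, Finsupp.finsetSum_apply, Finsupp.sum]
  refine Finset.sum_congr rfl fun j _ => ?_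
  have : Finsupp.single j (z j) = z j • Finsupp.single j (1 : ℤ) := by
    rw [Finsupp.smul_single, smul_eq_mul, mul_one]
  rw [this, map_smul, Finsupp.smul_apply, smul_eq_mul]

theorem surj_single (hm : Set.BijOn m U D) (hr : WellFounded r)
    (hdiag : ∀ x ∈ U, IsUnit ((d (Finsupp.single (m x) 1)) x))
    (htri : ∀ x ∈ U, ∀ y ∈ U, (d (Finsupp.single (m x) 1)) y ≠ 0 → y = x ∨ r y x) (x : I)
    (hx : x ∈ U) : ∃ n ∈ Finsupp.supported ℤ ℤ D, ∀ y ∈ U, (d n) y = Finsupp.single x 1 y := by
  classical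
  induction x using hr.induction with
  | _ x ih =>
    set w : I →₀ ℤ := d (Finsupp.single (m x) 1) with hw
    have hex : ∀ y : I, ∃ n ∈ Finsupp.supported ℤ ℤ D, y ∈ U → r y x →
        ∀ t ∈ U, (d n) t = Finsupp.single y 1 t := by
      intro y
      by_cases h : y ∈ U ∧ r y x
      · obtain ⟨n, hn, h2⟩ := ih y h.2 h.1
        exact ⟨n, hn, fun _ _ => h2⟩
      · exact ⟨0, Submodule.zero_mem _, fun h1 h2 => absurd ⟨h1, h2⟩ h⟩
    choose n hn1 hn2 using hex
    obtain ⟨v, hv⟩ := hdiag x hx
    set S : Finset I := w.support.filter fun y => y ∈ U ∧ y ≠ x with hS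
    refine ⟨(↑v⁻¹ : ℤ) • (Finsupp.single (m x) 1 - ∑ y ∈ S, w y • n y), ?_, ?_⟩
    · refine Submodule.smul_mem _ _ (Submodule.sub_mem _ ?_ ?_)
      · rw [Finsupp.mem_supported]
        intro t ht
        have := Finsupp.support_single_subset (Finset.mem_coe.1 ht)
        rw [Finset.mem_singleton] at this
        rw [this]
        exact hm.mapsTo hx
      · exact Submodule.sum_mem _ fun y _ => Submodule.smul_mem _ _ (hn1 y)
    · intro t ht
      rw [map_smul, Finsupp.smul_apply, map_sub, Finsupp.sub_apply, map_sum,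
        Finsupp.finsetSum_apply, ← hw]
      have h1 : ∑ y ∈ S, (d (w y • n y)) t = if t = x then 0 else w t := by
        have h2 : ∀ y ∈ S, (d (w y • n y)) t = if t = y then w t else 0 := by
          intro y hy
          rw [hS, Finset.mem_filter, Finsupp.mem_support_iff] at hy
          rw [map_smul, Finsupp.smul_apply]
          rcases htri x hx y hy.2.1 hy.1 with h | h
          · exact absurd h hy.2.2
          · rw [hn2 y hy.2.1 h t ht, Finsupp.single_apply]
            by_cases e : t = y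
            · subst e
              simp
            · simp [e, Ne.symm e]
        rw [Finset.sum_congr rfl h2, Finset.sum_ite_eq]
        by_cases e : t = x
        · rw [if_pos e, if_neg]
          rw [hS, Finset.mem_filter]
          tauto
        · rw [if_neg e]
          by_cases e2 : t ∈ S
          · rw [if_pos e2]
          · rw [if_neg e2]
            by_contra hne
            apply e2
            rw [hS, Finset.mem_filter, Finsupp.mem_support_iff]
            exact ⟨Ne.symm hne, ht, e⟩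
      rw [h1, Finsupp.single_apply]
      by_cases e : t = x
      · subst e
        rw [if_pos rfl, sub_zero, if_pos rfl, ← hv, smul_eq_mul, Units.inv_mul]
      · rw [if_neg e, sub_self, smul_zero, if_neg (Ne.symm e)]

theorem surj_all (hm : Set.BijOn m U D) (hr : WellFounded r)
    (hdiag : ∀ x ∈ U, IsUnit ((d (Finsupp.single (m x) 1)) x))
    (htri : ∀ x ∈ U, ∀ y ∈ U, (d (Finsupp.single (m x) 1)) y ≠ 0 → y = x ∨ r y x)
    (z : I →₀ ℤ) : ∃ n ∈ Finsupp.supported ℤ ℤ D, ∀ y ∈ U, (d n) y = z y := by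
  classical
  have hex : ∀ x : I, ∃ n ∈ Finsupp.supported ℤ ℤ D, x ∈ U →
      ∀ t ∈ U, (d n) t = Finsupp.single x 1 t := by
    intro x
    by_cases h : x ∈ U
    · obtain ⟨n, hn, h2⟩ := surj_single hm hr hdiag htri x h
      exact ⟨n, hn, fun _ => h2⟩
    · exact ⟨0, Submodule.zero_mem _, fun h1 => absurd h1 h⟩
  choose n hn1 hn2 using hex
  refine ⟨∑ x ∈ z.support.filter (· ∈ U), z x • n x,
    Submodule.sum_mem _ fun y _ => Submodule.smul_mem _ _ (hn1 y), fun t ht => ?_⟩
  rw [map_sum, Finsupp.finsetSum_apply]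
  have h2 : ∀ y ∈ z.support.filter (· ∈ U), (d (z y • n y)) t = if t = y then z t else 0 := by
    intro y hy
    rw [Finset.mem_filter] at hy
    rw [map_smul, Finsupp.smul_apply, hn2 y hy.2 t ht, Finsupp.single_apply]
    by_cases e : t = y
    · subst e
      simp
    · simp [e, Ne.symm e]
  rw [Finset.sum_congr rfl h2, Finset.sum_ite_eq]
  by_cases e : t ∈ z.support.filter (· ∈ U)
  · rw [if_pos e]
  · rw [if_neg e]
    by_contra hne
    apply e
    rw [Finset.mem_filter, Finsupp.mem_support_iff]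
    exact ⟨Ne.symm hne, ht⟩

theorem inj_all (hm : Set.BijOn m U D) (hr : WellFounded r)
    (hdiag : ∀ x ∈ U, IsUnit ((d (Finsupp.single (m x) 1)) x))
    (htri : ∀ x ∈ U, ∀ y ∈ U, (d (Finsupp.single (m x) 1)) y ≠ 0 → y = x ∨ r y x)
    (y : I →₀ ℤ) (hy : y ∈ Finsupp.supported ℤ ℤ D) (h0 : ∀ x ∈ U, (d y) x = 0) : y = 0 := by
  classical
  by_contra hne
  have hsup : y.support.Nonempty := Finsupp.support_nonempty_iff.2 hne
  rw [Finsupp.mem_supported] at hy
  -- a section of `m`
  have hsec : ∀ j ∈ y.support, ∃ x ∈ U, m x = j := fun j hj => hm.surjOn (hy hj)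
  let g : I → I := fun j => if h : ∃ x ∈ U, m x = j then h.choose else j
  have hg : ∀ j ∈ y.support, g j ∈ U ∧ m (g j) = j := by
    intro j hj
    have h := hsec j hj
    simp only [g, dif_pos h]
    exact h.choose_spec
  have : IsWellFounded I r := ⟨hr⟩
  obtain ⟨j, hj, hmax⟩ := Finset.exists_max_image y.support
    (fun j => IsWellFounded.rank r (g j)) hsup
  have hx := (hg j hj).1
  have h1 := h0 (g j) hx
  rw [d_apply, Finsupp.sum, Finset.sum_eq_single j] at h1
  · rw [mul_eq_zero] at h1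
    rcases h1 with h1 | h1
    · exact (Finsupp.mem_support_iff.1 hj) h1
    · have h2 := hdiag (g j) hx
      rw [(hg j hj).2, h1] at h2
      exact not_isUnit_zero h2
  · intro k hk hkj
    rw [mul_eq_zero]
    right
    by_contra h2
    have hgk := hg k hk
    rw [← hgk.2] at h2
    rcases htri (g k) hgk.1 (g j) hx h2 with h3 | h3
    · apply hkj
      rw [← hgk.2, ← h3, (hg j hj).2]
    · exact absurd (hmax k hk) (not_le.2 (IsWellFounded.rank_lt_of_rel h3))
  · intro h
    exact absurd hj h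

end Matching

/-- Algebraic Morse matching: `m : U → D` a bijection such that the `U`-part of `d (m x)` is
`± x` plus smaller terms. With `N = span D + d (span D)` the whole space is `span C ⊕ N`
(`C` the complement of `U ∪ D`) and `N` is acyclic. -/
theorem matching {I : Type u} (d : (I →₀ ℤ) →ₗ[ℤ] (I →₀ ℤ)) (hdd : ∀ z, d (d z) = 0)
    (U D : Set I) (hUD : Disjoint U D) (m : I → I) (hm : Set.BijOn m U D)
    (r : I → I → Prop) (hr : WellFounded r)
    (hdiag : ∀ x ∈ U, IsUnit ((d (Finsupp.single (m x) 1)) x))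
    (htri : ∀ x ∈ U, ∀ y ∈ U, (d (Finsupp.single (m x) 1)) y ≠ 0 → y = x ∨ r y x) :
    (∀ z, ∃ c ∈ Finsupp.supported ℤ ℤ (U ∪ D)ᶜ,
      z - c ∈ Finsupp.supported ℤ ℤ D ⊔ (Finsupp.supported ℤ ℤ D).map d) ∧
    (∀ c ∈ Finsupp.supported ℤ ℤ (U ∪ D)ᶜ,
      c ∈ Finsupp.supported ℤ ℤ D ⊔ (Finsupp.supported ℤ ℤ D).map d → c = 0) ∧
    (∀ z ∈ Finsupp.supported ℤ ℤ D ⊔ (Finsupp.supported ℤ ℤ D).map d, d z = 0 →
      ∃ y ∈ Finsupp.supported ℤ ℤ D, d y = z) := by
  classical
  refine ⟨?_, ?_, ?_⟩
  · intro z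
    obtain ⟨n, hn, h⟩ := Matching.surj_all hm hr hdiag htri z
    refine ⟨(z - d n).filter (· ∉ D), ?_, ?_⟩
    · rw [Finsupp.mem_supported']
      intro t ht
      rw [Set.mem_compl_iff, not_not] at ht
      rcases ht with ht | ht
      · rw [Finsupp.filter_apply, if_pos (show t ∉ D from fun h2 => hUD.le_bot ⟨ht, h2⟩),
          Finsupp.sub_apply, h t ht, sub_self]
      · rw [Finsupp.filter_apply, if_neg (not_not.2 ht)]
    · have e : z - (z - d n).filter (· ∉ D) = (z - d n).filter (· ∈ D) + d n := by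
        have h1 := Finsupp.filter_add_filter_not (z - d n) (· ∈ D)
        rw [sub_eq_iff_eq_add, add_right_comm, h1]
        abel
      rw [e]
      refine Submodule.add_mem_sup ?_ (Submodule.mem_map_of_mem hn)
      rw [Finsupp.mem_supported']
      intro t ht
      rw [Finsupp.filter_apply, if_neg ht]
  · intro c hc hcN
    obtain ⟨x, hx, w, hw, rfl⟩ := Submodule.mem_sup.1 hcN
    obtain ⟨y, hy, rfl⟩ := Submodule.mem_map.1 hw
    rw [Finsupp.mem_supported'] at hc hx
    have hy0 : y = 0 := by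
      refine Matching.inj_all hm hr hdiag htri y hy fun t ht => ?_
      have h1 := hc t (fun h => h (Or.inl ht))
      rw [Finsupp.add_apply, hx t (fun h => hUD.le_bot ⟨ht, h⟩), zero_add] at h1
      exact h1
    subst hy0
    rw [map_zero, add_zero] at hc ⊢
    ext t
    rw [Finsupp.zero_apply]
    by_cases ht : t ∈ D
    · exact hc t (fun h => h (Or.inr ht))
    · exact hx t ht
  · intro z hz hdz
    obtain ⟨x, hx, w, hw, rfl⟩ := Submodule.mem_sup.1 hz
    obtain ⟨y, hy, rfl⟩ := Submodule.mem_map.1 hw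
    rw [map_add, hdd, add_zero] at hdz
    have hx0 : x = 0 := Matching.inj_all hm hr hdiag htri x hx fun t _ => by rw [hdz]; rfl
    exact ⟨y, hy, by rw [hx0, zero_add]⟩

end Pool.Agent.DG
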