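import Pool.Agent.MP_cff99f_al.Words

/-! Block G: the projection to critical data. -/

namespace Pool.Agent.DG

universe u v w

variable {α : Type u} {ι : Type v} {P : Pres α ι}

theorem blocks_append (u : List α) (q q' : Cube α ι) :
    blocks u (q ++ q') = ((blocks u q).1 ++ (blocks (blocks u q).2 q').1,
      (blocks (blocks u q).2 q').2) := by
  induction q generalizing u with
  | nil => rfl
  | cons c q ih =>
    rcases c with x | e
    · exact ih (u ++ [x])
    · have h := ih []
      simp only [List.cons_append, blocks, h]

theorem blocks_letters (u x : List α) :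
    blocks u (letters x : Cube α ι) = ([], u ++ x) := by
  induction x generalizing u with
  | nil => simp [blocks]
  | cons a x ih =>
    rw [letters_cons, blocks, ih]
    simp

theorem blocks_critCube (L : List (List α × ι)) (t : List α) :
    blocks [] (critCube L t) = (L, t) := by
  induction L with
  | nil => simp [critCube, blocks_letters]
  | cons p L ih =>
    have h : critCube (p :: L) t = letters p.1 ++ (Sum.inr p.2 :: critCube L t) := by
      simp [critCube]
    rw [h, blocks_append, blocks_letters]
    simp [blocks, ih]

/-- The normal forms of the blocks. -/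
noncomputable def nblocks (P : Pres α ι) (b : List (List α × ι) × List α) :
    List (List α × ι) × List α :=
  (b.1.map (fun p => (nf P p.1, p.2)), nf P b.2)

open Classical in
theorem rho_eq_nblocks (q : Cube α ι) : rho P q =
    if ∀ p ∈ (nblocks P (blocks [] q)).1, MSite P p.1 p.2 then
      Finsupp.single (nblocks P (blocks [] q)) 1 else 0 := by
  unfold rho nblocks
  simp only [List.forall_mem_map]

theorem nblocks_congr (hP : Complete P) (q : Cube α ι) :
    ∀ u u' : List α, Cong P u u' → nblocks P (blocks u q) = nblocks P (blocks u' q) := by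
  induction q with
  | nil =>
    intro u u' h
    simp only [nblocks, blocks, List.map_nil]
    rw [(cong_iff hP).1 h]
  | cons c q ih =>
    intro u u' h
    rcases c with x | e
    · exact ih _ _ (cong_append h (Relation.EqvGen.refl _))
    · simp only [nblocks, blocks, List.map_cons]
      rw [(cong_iff hP).1 h]

theorem rho_congr (hP : Complete P) (a b : Cube α ι) {x y : List α} (h : Cong P x y) :
    rho P (a ++ letters x ++ b) = rho P (a ++ letters y ++ b) := by
  have key : nblocks P (blocks [] (a ++ letters x ++ b)) =
      nblocks P (blocks [] (a ++ letters y ++ b)) := by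
    rw [List.append_assoc, List.append_assoc, blocks_append, blocks_append [] a,
      blocks_append _ (letters x), blocks_append _ (letters y), blocks_letters, blocks_letters]
    have h1 := nblocks_congr hP b ((blocks [] a).2 ++ x) ((blocks [] a).2 ++ y)
      (cong_append (Relation.EqvGen.refl _) h)
    simp only [nblocks, Prod.mk.injEq] at h1 ⊢
    simp only [List.nil_append, List.map_append]
    exact ⟨by rw [h1.1], h1.2⟩
  rw [rho_eq_nblocks, rho_eq_nblocks, key]

theorem cong_lhs_rhs (i : ι) : Cong P (P.lhs i) (P.rhs i) :=
  Relation.EqvGen.rel _ _ ⟨[], i, [], by simp, by simp⟩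

theorem rho_lface (hP : Complete P) (X : Cov.{u, v, w} P) (v : X.E)
    (s : Cube α ι × ι × Cube α ι) :
    rho P (X.lface v s).2 = rho P (X.rface v s).2 :=
  rho_congr hP _ _ (cong_lhs_rhs _)

theorem rho_rawBd (hP : Complete P) (X : Cov.{u, v, w} P) (c : X.E × Cube α ι) :
    Finsupp.linearCombination ℤ (fun y : X.E × Cube α ι => rho P y.2) (X.rawBd c) = 0 := by
  unfold Cov.rawBd
  generalize splits c.2 = l
  induction l with
  | nil => simp
  | cons s l ih =>
    rw [List.map_cons, List.sum_cons, map_add, ih, add_zero, map_smul, map_sub,
      Finsupp.linearCombination_single, Finsupp.linearCombination_single, rho_lface hP X c.1 s,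
      sub_self, smul_zero]

theorem rho_bdCell (hP : Complete P) (X : Cov.{u, v, w} P) (c : X.Cell) :
    X.rho (X.bdCell c) = 0 := by
  classical
  rw [← rho_rawBd hP X c.1, Cov.rho, Cov.bdCell, Finsupp.linearCombination_apply,
    Finsupp.linearCombination_apply]
  have hsupp : ∀ y ∈ (X.rawBd c.1).support, X.lab y.1 = P.top y.2 := by
    intro y hy
    obtain ⟨s, hs, h | h⟩ := exists_split_of_rawBd_ne X (Finsupp.mem_support_iff.1 hy)
    · rw [h]; exact X.lface_valid c.2 hs
    · rw [h]; exact X.rface_valid c.2 hs
  exact Finsupp.sum_subtypeDomain_index (p := fun c' : X.E × Cube α ι => X.lab c'.1 = P.top c'.2)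
    (h := fun (y : X.E × Cube α ι) (n : ℤ) => n • rho P y.2) hsupp

/-- `rho` vanishes on boundaries. -/
theorem rho_bd (hP : Complete P) (X : Cov.{u, v, w} P) (z : X.Cell →₀ ℤ) :
    X.rho (X.bd z) = 0 := by
  induction z using Finsupp.induction_linear with
  | zero => simp
  | add f g hf hg => rw [map_add, map_add, hf, hg, add_zero]
  | single c n =>
    rw [Cov.bd, Finsupp.linearCombination_single, map_smul, rho_bdCell hP, smul_zero]

/-- `rho` of a critical cube. -/
theorem rho_critCube (hP : Complete P) {L : List (List α × ι)} {t : List α}
    (hL : ∀ p ∈ L, MSite P p.1 p.2) (ht : Irr P t) :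
    rho P (critCube L t) = Finsupp.single (L, t) 1 := by
  classical
  have h : nblocks P (blocks [] (critCube L t)) = (L, t) := by
    rw [blocks_critCube]
    simp only [nblocks, Prod.mk.injEq]
    refine ⟨?_, nf_of_irr hP ht⟩
    conv_rhs => rw [← List.map_id L]
    refine List.map_congr_left fun p hp => ?_
    rw [nf_of_irr hP (hL p hp).1]
    rfl
  rw [rho_eq_nblocks, h, if_pos hL]

/-- `rho` vanishes on cubes with a principal block. -/
theorem rho_of_prin (hP : Complete P) {p q' : Cube α ι} {u : List α} {e : ι}
    (he : Prin P u e) (hp : p = [] ∨ ∃ p' e', p = p' ++ [Sum.inr e']) :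
    rho P (p ++ letters u ++ Sum.inr e :: q') = 0 := by
  classical
  have hpt : (blocks [] p).2 = [] := by
    rcases hp with rfl | ⟨p', e', rfl⟩
    · rfl
    · rw [blocks_append]; rfl
  have hmem : (u, e) ∈ (blocks [] (p ++ letters u ++ Sum.inr e :: q')).1 := by
    rw [List.append_assoc, blocks_append, hpt, blocks_append, blocks_letters]
    simp [blocks]
  unfold rho
  rw [if_neg]
  intro hall
  have h1 := hall _ hmem
  rw [nf_of_irr hP he.irr] at h1
  exact h1.2 he

/-- The data of a critical cube. -/
theorem critCube_injective {L L' : List (List α × ι)} {t t' : List α}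
    (h : critCube L t = critCube L' t') : L = L' ∧ t = t' := by
  have h1 := congrArg (blocks []) h
  rw [blocks_critCube, blocks_critCube] at h1
  exact ⟨congrArg Prod.fst h1, congrArg Prod.snd h1⟩

theorem top_critCube (L : List (List α × ι)) (t : List α) :
    P.top (critCube L t) = siteWord P L t := by
  induction L with
  | nil => simp [critCube, siteWord]
  | cons p L ih =>
    have h : critCube (p :: L) t = letters p.1 ++ (Sum.inr p.2 :: critCube L t) := by
      simp [critCube]
    rw [h, top_append, top_inr, ih]
    simp [siteWord]

theorem dim_critCube (L : List (List α × ι)) (t : List α) :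
    dim (critCube L t : Cube α ι) = L.length := by
  induction L with
  | nil => simp [critCube]
  | cons p L ih =>
    have h : critCube (p :: L) t = letters p.1 ++ (Sum.inr p.2 :: critCube L t) := by
      simp [critCube]
    rw [h, dim_append, dim_inr, ih]
    simp

end Pool.Agent.DG
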