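import Pool.Agent.MP_cff99f_al.CubeMatch
import Pool.Agent.MP_cff99f_al.Rho
import Pool.Agent.MP_cff99f_al.Matching
import Pool.Agent.MP_cff99f_al.BdBd

/-! Block R: the reduction of the chain complex of a covering to critical cells. -/

namespace Pool.Agent.DG

universe u v w

variable {α : Type u} {ι : Type v} {P : Pres α ι}

/-- The critical cells of a covering. -/
def Cov.crit (X : Cov.{u, v, w} P) : Set X.Cell := {c | IsCrit P c.1.2}

/-- `rho` vanishes on chains supported on cells whose cubes have `rho = 0`. -/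
theorem rho_supported (X : Cov.{u, v, w} P) {D : Set X.Cell}
    (h : ∀ c ∈ D, Pool.Agent.DG.rho P c.1.2 = 0) {z : X.Cell →₀ ℤ}
    (hz : z ∈ Finsupp.supported ℤ ℤ D) : X.rho z = 0 := by
  rw [Finsupp.mem_supported] at hz
  rw [Cov.rho, Finsupp.linearCombination_apply, Finsupp.sum]
  refine Finset.sum_eq_zero fun c hc => ?_
  rw [h c (hz hc), smul_zero]

/-- For every covering the chain complex is the sum of the span of the critical cells and an
acyclic subcomplex `N`, on which `rho` vanishes. `N` is spanned by the cells with cubes in a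
set `Dc` and their boundaries. -/
theorem reduction (hP : Complete P) :
    ∃ Dc : Set (Cube α ι), ∀ X : Cov.{u, v, w} P,
      let N := Finsupp.supported ℤ ℤ {c : X.Cell | c.1.2 ∈ Dc} ⊔
        (Finsupp.supported ℤ ℤ {c : X.Cell | c.1.2 ∈ Dc}).map X.bd
      (∀ z, ∃ c ∈ Finsupp.supported ℤ ℤ X.crit, z - c ∈ N) ∧
      (∀ c ∈ Finsupp.supported ℤ ℤ X.crit, c ∈ N → c = 0) ∧
      (∀ z ∈ N, X.bd z = 0 → ∃ y ∈ Finsupp.supported ℤ ℤ {c : X.Cell | c.1.2 ∈ Dc}, X.bd y = z) ∧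
      (∀ z ∈ N, X.rho z = 0) := by
  classical
  obtain ⟨Uc, Dc, mu, r, hdisj, hmu, hr, hcrit, hDc, hUc⟩ := cube_matching hP
  refine ⟨Dc, fun X => ?_⟩
  -- the top words of `q` and `mu q` agree
  have htop : ∀ q ∈ Uc, P.top (mu q) = P.top q := by
    intro q hq
    obtain ⟨s, h1, h2, -⟩ := hUc q hq
    rw [h2]
    conv_rhs => rw [h1]
    simp
  let m : X.Cell → X.Cell := fun c =>
    if h : c.1.2 ∈ Uc then ⟨(c.1.1, mu c.1.2), by
      have := c.2
      exact this.trans (htop _ h).symm⟩ else c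
  have hm1 : ∀ c : X.Cell, c.1.2 ∈ Uc → (m c).1 = (c.1.1, mu c.1.2) := by
    intro c h
    simp only [m, dif_pos h]
  have hbij : Set.BijOn m {c : X.Cell | c.1.2 ∈ Uc} {c : X.Cell | c.1.2 ∈ Dc} := by
    refine ⟨?_, ?_, ?_⟩
    · intro c hc
      change (m c).1.2 ∈ Dc
      rw [hm1 c hc]
      exact hmu.mapsTo hc
    · intro c hc c' hc' h
      have h1 : (m c).1 = (m c').1 := by rw [h]
      rw [hm1 c hc, hm1 c' hc', Prod.mk.injEq] at h1
      apply Subtype.ext
      exact Prod.ext h1.1 (hmu.injOn hc hc' h1.2)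
    · intro c hc
      obtain ⟨q, hq, hqe⟩ := hmu.surjOn hc
      refine ⟨⟨(c.1.1, q), ?_⟩, hq, ?_⟩
      · change X.lab c.1.1 = P.top q
        rw [← htop q hq, hqe]
        exact c.2
      · apply Subtype.ext
        rw [hm1 _ (show ((⟨(c.1.1, q), _⟩ : X.Cell)).1.2 ∈ Uc from hq)]
        exact Prod.ext rfl hqe
  have hdisj' : Disjoint {c : X.Cell | c.1.2 ∈ Uc} {c : X.Cell | c.1.2 ∈ Dc} := by
    rw [Set.disjoint_left]
    intro c hc hc'
    exact Set.disjoint_left.1 hdisj hc hc'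
  have hwf : WellFounded (fun c c' : X.Cell => r c.1.2 c'.1.2) := InvImage.wf _ hr
  have hdiag : ∀ x ∈ {c : X.Cell | c.1.2 ∈ Uc}, IsUnit ((X.bd (Finsupp.single (m x) 1)) x) := by
    intro x hx
    obtain ⟨s, h1, h2, h3, h4, h5, h6⟩ := hUc x.1.2 hx
    rw [Cov.bd_single, hm1 x hx]
    have hs : s ∈ splits (mu x.1.2) := by
      rw [mem_splits]
      exact h2
    refine isUnit_rawBd_of_lface X (s := s) hs ?_ ?_ ?_
    · exact Prod.ext rfl h1
    · intro s' hs' hne h
      exact h3 s' hs' hne (congrArg Prod.snd h).symm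
    · intro s' hs' h
      exact h5 s' hs' (congrArg Prod.snd h).symm
  have htri : ∀ x ∈ {c : X.Cell | c.1.2 ∈ Uc}, ∀ y ∈ {c : X.Cell | c.1.2 ∈ Uc},
      (X.bd (Finsupp.single (m x) 1)) y ≠ 0 → y = x ∨ r y.1.2 x.1.2 := by
    intro x hx y hy h
    obtain ⟨s, h1, h2, h3, h4, h5, h6⟩ := hUc x.1.2 hx
    rw [Cov.bd_single, hm1 x hx] at h
    obtain ⟨s', hs', h'⟩ := exists_split_of_rawBd_ne X h
    rcases h' with h' | h'
    · by_cases hss : s' = s
      · left
        subst hss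
        apply Subtype.ext
        rw [h']
        exact Prod.ext rfl h1.symm
      · right
        have e : y.1.2 = s'.1 ++ letters (P.lhs s'.2.1) ++ s'.2.2 := congrArg Prod.snd h'
        have hy' : y.1.2 ∈ Uc := hy
        rw [e] at hy' ⊢
        exact h4 s' hs' hss hy'
    · right
      have e : y.1.2 = s'.1 ++ letters (P.rhs s'.2.1) ++ s'.2.2 := congrArg Prod.snd h'
      have hy' : y.1.2 ∈ Uc := hy
      rw [e] at hy' ⊢
      exact h6 s' hs' hy'
  obtain ⟨R1, R2, R3⟩ := matching X.bd (bd_bd X) {c : X.Cell | c.1.2 ∈ Uc}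
    {c : X.Cell | c.1.2 ∈ Dc} hdisj' m hbij _ hwf hdiag htri
  have hcr : ({c : X.Cell | c.1.2 ∈ Uc} ∪ {c : X.Cell | c.1.2 ∈ Dc})ᶜ = X.crit := by
    ext c
    rw [Set.mem_compl_iff, Set.mem_union, not_or]
    exact hcrit c.1.2
  rw [hcr] at R1 R2
  refine ⟨R1, R2, R3, ?_⟩
  intro z hz
  obtain ⟨x, hx, w, hw, rfl⟩ := Submodule.mem_sup.1 hz
  obtain ⟨y, hy, rfl⟩ := Submodule.mem_map.1 hw
  rw [map_add, rho_bd hP X y, add_zero]
  refine rho_supported X (fun c hc => ?_) hx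
  obtain ⟨p, q', u, e, h1, h2, h3⟩ := hDc c.1.2 hc
  rw [h1]
  exact rho_of_prin hP h2 h3

end Pool.Agent.DG
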