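import Pool.Agent.MP_cff99f_al.Tree
import Pool.Agent.MP_cff99f_al.Matching
import Pool.Agent.MP_cff99f_al.BdBd

/-! Block D3: the chain complex of the tree covering is acyclic. -/

namespace Pool.Agent.DG

universe u v w

variable {α : Type u} {ι : Type v} (P : Pres α ι)

theorem tree_base_valid (x : List α) :
    (treeCov P x).lab (TreeE.base P x) = P.top (letters x : Cube α ι) := by
  change (baseList x : List (Ed α ι)).map Prod.fst = _
  rw [top_letters]
  unfold baseList
  induction x using List.reverseRecOn with
  | nil => rfl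
  | append_singleton l a ih => simp [List.mapIdx_append, ih]

namespace TA

/-! ### Complete bottoms -/

variable {P}

theorem bottom_length (i : ι) (p : Bool) (T : List (Ed α ι)) :
    (bottom P i p T).length = (P.side i (!p)).length := by
  simp [bottom]

theorem bottom_pos (i : ι) (p : Bool) (T : List (Ed α ι)) :
    0 < (bottom P i p T).length := by
  rw [bottom_length]
  exact List.length_pos_iff.2 (P.side_ne i (!p))

theorem bottom_map_fst (i : ι) (p : Bool) (T : List (Ed α ι)) :
    (bottom P i p T).map Prod.fst = P.side i (!p) := by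
  apply List.ext_getElem
  · simp [bottom]
  · intro k h1 h2
    simp [bottom]

theorem getElem_bottom (i : ι) (p : Bool) (T : List (Ed α ι)) (k : ℕ)
    (hk : k < (bottom P i p T).length) :
    ((bottom P i p T)[k]).2 = Code.cell i p k (enc T) := by
  simp [bottom]

theorem bottom_inj_of_cell {i i' : ι} {p p' : Bool} {j j' : ℕ} {T T' : List (Ed α ι)}
    (h : (Code.cell i p j (enc T) : Code α ι) = Code.cell i' p' j' (enc T')) :
    i = i' ∧ p = p' ∧ j = j' ∧ T = T' := by
  simp only [Code.cell.injEq] at h
  exact ⟨h.1, h.2.1, h.2.2.1, enc_injective h.2.2.2⟩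

theorem bottom_inj {i : ι} {p : Bool} {T T' : List (Ed α ι)}
    (h : bottom P i p T = bottom P i p T') : T = T' := by
  have h0 := bottom_pos (P := P) i p T
  have h1 := bottom_pos (P := P) i p T'
  have e1 := getElem_bottom (P := P) i p T 0 h0
  have e2 := getElem_bottom (P := P) i p T' 0 h1
  have : ((bottom P i p T)[0]).2 = ((bottom P i p T')[0]).2 := by
    congr 1
    simp only [h]
  rw [e1, e2] at this
  exact (bottom_inj_of_cell this).2.2.2

variable (P) in
/-- There is no complete bottom inside the list. -/
def NoBot (A : List (Ed α ι)) : Prop :=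
  ∀ (i : ι) (p : Bool) (T A₁ A₂ : List (Ed α ι)), A ≠ A₁ ++ bottom P i p T ++ A₂

theorem exists_leftmost (A : List (Ed α ι)) (h : ¬ NoBot P A) :
    ∃ (i : ι) (p : Bool) (T A₁ A₂ : List (Ed α ι)), A = A₁ ++ bottom P i p T ++ A₂ ∧ NoBot P A₁ := by
  have key : ∀ n, ∀ (i : ι) (p : Bool) (T A₁ A₂ : List (Ed α ι)), A₁.length = n →
      A = A₁ ++ bottom P i p T ++ A₂ →
      ∃ (i : ι) (p : Bool) (T A₁ A₂ : List (Ed α ι)), A = A₁ ++ bottom P i p T ++ A₂ ∧
        NoBot P A₁ := by
    intro n
    induction n using Nat.strong_induction_on with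
    | _ n ih =>
      intro i p T A₁ A₂ hn hA
      by_cases hN : NoBot P A₁
      · exact ⟨i, p, T, A₁, A₂, hA, hN⟩
      · unfold NoBot at hN
        push Not at hN
        obtain ⟨i', p', T', A₃, A₄, e⟩ := hN
        have hlt : A₃.length < n := by
          have := bottom_pos (P := P) i' p' T'
          rw [← hn, e]
          simp only [List.length_append]
          omega
        refine ih A₃.length hlt i' p' T' A₃ (A₄ ++ bottom P i p T ++ A₂) rfl ?_
        rw [hA, e]
        simp
  unfold NoBot at h
  push Not at h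
  obtain ⟨i', p', T', A₃, A₄, e⟩ := h
  exact key _ i' p' T' A₃ A₄ rfl e

theorem dec_unique_aux {A A' B B' : List (Ed α ι)} {i i' : ι} {p p' : Bool} {T T' : List (Ed α ι)}
    (h : A ++ bottom P i p T ++ B = A' ++ bottom P i' p' T' ++ B') (hA' : NoBot P A')
    (hle : A.length ≤ A'.length) : A = A' ∧ i = i' ∧ p = p' ∧ T = T' ∧ B = B' := by
  have hb := bottom_pos (P := P) i p T
  have hb' := bottom_pos (P := P) i' p' T'
  rcases Nat.lt_or_ge A.length A'.length with hlt | hge
  · exfalso
    rcases Nat.lt_or_ge A'.length (A.length + (bottom P i p T).length) with h1 | h1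
    · -- overlap
      have hlen : A'.length < (A ++ bottom P i p T ++ B).length := by
        simp only [List.length_append]; omega
      have e1 : ((A ++ bottom P i p T ++ B)[A'.length]'hlen).2 =
          Code.cell i p (A'.length - A.length) (enc T) := by
        rw [← getElem_bottom (P := P) i p T (A'.length - A.length) (by omega)]
        congr 1
        rw [List.getElem_append_left (by simp only [List.length_append]; omega)]
        rw [List.getElem_append_right (by omega)]
      have hlen2 : A'.length < (A' ++ bottom P i' p' T' ++ B').length := by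
        simp only [List.length_append]; omega
      have e2 : ((A' ++ bottom P i' p' T' ++ B')[A'.length]'hlen2).2 =
          Code.cell i' p' 0 (enc T') := by
        rw [← getElem_bottom (P := P) i' p' T' 0 (by omega)]
        congr 1
        rw [List.getElem_append_left (by simp only [List.length_append]; omega)]
        rw [List.getElem_append_right (by omega)]
        simp
      have e3 : (A ++ bottom P i p T ++ B)[A'.length]'hlen =
          (A' ++ bottom P i' p' T' ++ B')[A'.length]'hlen2 := by
        simp only [h]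
      rw [e3, e2] at e1
      have := (bottom_inj_of_cell e1).2.2.1
      omega
    · -- contained
      have : A' = A ++ bottom P i p T ++ A'.drop (A.length + (bottom P i p T).length) := by
        have h2 := congrArg (List.take A'.length) h
        rw [List.append_assoc A', List.take_left] at h2
        rw [List.take_append] at h2
        rw [List.take_of_length_le (by simp only [List.length_append]; omega)] at h2
        have h3 := congrArg (List.drop (A.length + (bottom P i p T).length)) h2
        rw [List.drop_append] at h3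
        simp only [List.length_append] at h3
        rw [List.drop_of_length_le (by simp only [List.length_append]; omega)] at h3
        simp only [Nat.sub_self, List.nil_append, List.drop_zero] at h3
        rw [← h3]
        simp only [List.length_append] at h2
        exact h2.symm
      exact hA' i p T A _ this
  · have hlen : A.length = A'.length := by omega
    have h1 : A = A' := by
      have := congrArg (List.take A.length) h
      rw [List.append_assoc, List.append_assoc, List.take_left, hlen, List.take_left] at this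
      exact this
    subst h1
    rw [List.append_assoc, List.append_assoc] at h
    have h2 := List.append_cancel_left h
    have hl : 0 < (bottom P i p T ++ B).length := by simp only [List.length_append]; omega
    have hl' : 0 < (bottom P i' p' T' ++ B').length := by simp only [List.length_append]; omega
    have e3 : (bottom P i p T ++ B)[0]'hl = (bottom P i' p' T' ++ B')[0]'hl' := by
      simp only [h2]
    have e1 := getElem_bottom (P := P) i p T 0 hb
    have e2 := getElem_bottom (P := P) i' p' T' 0 hb'
    rw [List.getElem_append_left hb, List.getElem_append_left hb'] at e3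
    rw [e3, e2] at e1
    obtain ⟨h3, h4, -, h5⟩ := bottom_inj_of_cell e1
    subst h3 h4 h5
    exact ⟨rfl, rfl, rfl, rfl, List.append_cancel_left h2⟩

theorem dec_unique {A A' B B' : List (Ed α ι)} {i i' : ι} {p p' : Bool} {T T' : List (Ed α ι)}
    (h : A ++ bottom P i p T ++ B = A' ++ bottom P i' p' T' ++ B') (hA : NoBot P A)
    (hA' : NoBot P A') : A = A' ∧ i = i' ∧ p = p' ∧ T = T' ∧ B = B' := by
  rcases Nat.le_total A.length A'.length with hle | hle
  · exact dec_unique_aux h hA' hle
  · obtain ⟨h1, h2, h3, h4, h5⟩ := dec_unique_aux h.symm hA hle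
    exact ⟨h1.symm, h2.symm, h3.symm, h4.symm, h5.symm⟩

/-! ### The size of a path -/

/-- The size of a code. -/
def size : Code α ι → ℕ
  | Code.base _ => 0
  | Code.nil => 0
  | Code.cons _ c l => size c + size l
  | Code.cell _ _ _ t => 1 + size t

/-- The size of a path. -/
def phi (L : List (Ed α ι)) : ℕ := size (enc L)

@[simp] theorem phi_nil : phi ([] : List (Ed α ι)) = 0 := rfl

@[simp] theorem phi_cons (e : Ed α ι) (L : List (Ed α ι)) : phi (e :: L) = size e.2 + phi L := rfl

@[simp] theorem phi_append (L L' : List (Ed α ι)) : phi (L ++ L') = phi L + phi L' := by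
  induction L with
  | nil => simp
  | cons e L ih => simp [ih, Nat.add_assoc]

theorem phi_const (L : List (Ed α ι)) (n : ℕ) (h : ∀ e ∈ L, size e.2 = n) :
    phi L = L.length * n := by
  induction L with
  | nil => simp
  | cons e L ih =>
    rw [phi_cons, ih (fun e he => h e (List.mem_cons_of_mem _ he)), h e List.mem_cons_self]
    simp only [List.length_cons]
    ring

theorem phi_bottom (i : ι) (p : Bool) (T : List (Ed α ι)) :
    phi T < phi (bottom P i p T) := by
  rw [phi_const (bottom P i p T) (1 + phi T)]
  · have := bottom_pos (P := P) i p T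
    nlinarith
  · intro e he
    obtain ⟨k, hk, rfl⟩ := List.getElem_of_mem he
    rw [getElem_bottom]
    rfl

/-! ### The action -/

theorem act_bottom (i : ι) (p : Bool) (T : List (Ed α ι)) :
    act P i p (bottom P i (!p) T) = T := by
  unfold act
  have h : ∃ T', bottom P i (!p) T = bottom P i (!p) T' := ⟨T, rfl⟩
  rw [dif_pos h]
  exact (bottom_inj h.choose_spec).symm

theorem act_of_not (i : ι) (p : Bool) (t : List (Ed α ι)) (h : ∀ T', t ≠ bottom P i (!p) T') :
    act P i p t = bottom P i p t := by
  unfold act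
  rw [dif_neg]
  rintro ⟨T', hT'⟩
  exact h T' hT'

theorem actList_append (A t B : List (Ed α ι)) (s : SEdge α ι) (h1 : s.pre.length = A.length)
    (h2 : (P.side s.i s.pos).length = t.length) :
    actList P (A ++ t ++ B) s = A ++ act P s.i s.pos t ++ B := by
  unfold actList
  rw [h1, h2]
  congr 1
  · congr 1
    · rw [List.append_assoc, List.take_left]
    · rw [List.append_assoc, List.drop_left, List.take_left]
  · rw [← List.length_append, List.drop_left]

variable {x : List α}

theorem mv_val (L : TreeE P x) (A t B : List (Ed α ι)) (i : ι) (post : List α) (p : Bool)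
    (hL : L.1 = A ++ t ++ B) (ht : t.map Prod.fst = P.side i p) (hB : B.map Prod.fst = post) :
    ((treeCov P x).mv L ⟨A.map Prod.fst, i, post, p⟩).1 = A ++ act P i p t ++ B := by
  change (TreeE.mv P x L _).1 = _
  rw [TreeE.mv_val]
  · rw [hL, actList_append]
    · simp
    · simp only
      rw [← ht]
      simp
  · simp only [SEdge.src]
    rw [hL, List.map_append, List.map_append, ht, hB]

/-! ### Words and cubes -/

theorem split_cases (w : List α) (i : ι) (q' : Cube α ι) (s : Cube α ι × ι × Cube α ι)
    (h : s ∈ splits (letters w ++ Sum.inr i :: q')) :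
    s = (letters w, i, q') ∨
      ∃ q₁, s.1 = letters w ++ Sum.inr i :: q₁ ∧ q' = q₁ ++ Sum.inr s.2.1 :: s.2.2 := by
  rw [mem_splits] at h
  obtain ⟨a, j, b⟩ := s
  simp only at h ⊢
  induction w generalizing a with
  | nil =>
    rcases a with _ | ⟨c, a⟩
    · left
      simp only [letters_nil, List.nil_append, List.cons.injEq, Sum.inr.injEq] at h
      simp [h.1, h.2]
    · right
      simp only [letters_nil, List.nil_append, List.cons_append, List.cons.injEq] at h
      exact ⟨a, by rw [← h.1]; rfl, h.2⟩
  | cons y w ih =>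
    rcases a with _ | ⟨c, a⟩
    · simp at h
    · simp only [letters_cons, List.cons_append, List.cons.injEq] at h
      rcases ih a h.2 with h' | ⟨q₁, h1, h2⟩
      · left
        simp only [Prod.mk.injEq] at h' ⊢
        exact ⟨by rw [← h.1, h'.1]; rfl, h'.2⟩
      · right
        exact ⟨q₁, by rw [← h.1, h1]; rfl, h2⟩

theorem letters_le (w w' : List α) (q q'' : Cube α ι) (j : ι)
    (h : letters w ++ q = letters w' ++ Sum.inr j :: q'') :
    ∃ w'', w' = w ++ w'' := by
  induction w generalizing w' with
  | nil => exact ⟨w', rfl⟩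
  | cons y w ih =>
    rcases w' with _ | ⟨y', w'⟩
    · simp at h
    · simp only [letters_cons, List.cons_append, List.cons.injEq, Sum.inl.injEq] at h
      obtain ⟨w'', e⟩ := ih w' h.2
      exact ⟨w'', by rw [e, h.1]; rfl⟩

theorem letters_inr_inj (w w' : List α) (i j : ι) (q q' : Cube α ι)
    (h : letters w ++ Sum.inr i :: q = letters w' ++ Sum.inr j :: q') :
    w = w' ∧ i = j ∧ q = q' := by
  induction w generalizing w' with
  | nil =>
    rcases w' with _ | ⟨y', w'⟩
    · simp at h; exact ⟨rfl, h.1, h.2⟩
    · simp at h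
  | cons y w ih =>
    rcases w' with _ | ⟨y', w'⟩
    · simp at h
    · simp only [letters_cons, List.cons_append, List.cons.injEq, Sum.inl.injEq] at h
      obtain ⟨e1, e2, e3⟩ := ih w' h.2
      exact ⟨by rw [e1, h.1], e2, e3⟩

/-- A cube is a word, or has a first relation. -/
theorem cube_cases (q : Cube α ι) :
    (∃ w, q = letters w) ∨ ∃ w i q', q = letters w ++ Sum.inr i :: q' := by
  induction q with
  | nil => exact Or.inl ⟨[], rfl⟩
  | cons c q ih =>
    rcases c with y | i
    · rcases ih with ⟨w, e⟩ | ⟨w, i, q', e⟩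
      · exact Or.inl ⟨y :: w, by rw [e]; rfl⟩
      · exact Or.inr ⟨y :: w, i, q', by rw [e]; rfl⟩
    · exact Or.inr ⟨[], i, q, rfl⟩

theorem list_split3 (L : List (Ed α ι)) (a b c : List α) (h : L.map Prod.fst = a ++ b ++ c) :
    ∃ A t B, L = A ++ t ++ B ∧ A.map Prod.fst = a ∧ t.map Prod.fst = b ∧ B.map Prod.fst = c := by
  obtain ⟨L₁, B, e, h1, h2⟩ := List.map_eq_append_iff.1 h
  obtain ⟨A, t, e', h3, h4⟩ := List.map_eq_append_iff.1 h1
  exact ⟨A, t, B, by rw [e, e'], h3, h4, h2⟩

/-! ### The two kinds of cells -/

/-- Type `U`. -/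
structure UDec (c : TreeE P x × Cube α ι) (A : List (Ed α ι)) (i : ι) (p : Bool)
    (T B : List (Ed α ι)) (q' : Cube α ι) : Prop where
  hL : c.1.1 = A ++ bottom P i p T ++ B
  hq : c.2 = letters ((A ++ bottom P i p T).map Prod.fst) ++ q'
  hA : NoBot P A

/-- Type `D`. -/
structure DDec (c : TreeE P x × Cube α ι) (A t B : List (Ed α ι)) (i : ι)
    (q' : Cube α ι) : Prop where
  hL : c.1.1 = A ++ t ++ B
  hq : c.2 = letters (A.map Prod.fst) ++ Sum.inr i :: q'
  ht : t.map Prod.fst = P.lhs i
  hA : NoBot P A

theorem UDec.unique {c : TreeE P x × Cube α ι} {A A' B B' T T' : List (Ed α ι)} {i i' : ι}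
    {p p' : Bool} {q q' : Cube α ι} (h : UDec c A i p T B q) (h' : UDec c A' i' p' T' B' q') :
    A = A' ∧ i = i' ∧ p = p' ∧ T = T' ∧ B = B' ∧ q = q' := by
  obtain ⟨h1, h2, h3, h4, h5⟩ := dec_unique (h.hL.symm.trans h'.hL) h.hA h'.hA
  subst h1 h2 h3 h4 h5
  exact ⟨rfl, rfl, rfl, rfl, rfl, List.append_cancel_left (h.hq.symm.trans h'.hq)⟩

theorem not_U_and_D {c : TreeE P x × Cube α ι} {A A' B B' T t : List (Ed α ι)} {i i' : ι}
    {p : Bool} {q q' : Cube α ι} (h : UDec c A i p T B q) (h' : DDec c A' t B' i' q') : False := by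
  obtain ⟨w'', e⟩ := letters_le _ _ _ _ _ (h.hq.symm.trans h'.hq)
  have hlen : (A ++ bottom P i p T).length ≤ A'.length := by
    have := congrArg List.length e
    simp only [List.length_map, List.length_append] at this ⊢
    omega
  have h2 := congrArg (List.take A'.length) (h.hL.symm.trans h'.hL)
  rw [List.append_assoc A', List.take_left, List.take_append, List.take_of_length_le hlen] at h2
  exact h'.hA _ _ _ _ _ h2.symm

/-- The partner of a cell of type `U`. -/
noncomputable def partner (c : TreeE P x × Cube α ι) (A : List (Ed α ι)) (i : ι) (p : Bool)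
    (q' : Cube α ι) : TreeE P x × Cube α ι :=
  (if p then TreeE.mv P x c.1 ⟨A.map Prod.fst, i, P.top q', false⟩ else c.1,
    letters (A.map Prod.fst) ++ Sum.inr i :: q')

/-- Validity of a cell. -/
def Valid (c : TreeE P x × Cube α ι) : Prop := c.1.1.map Prod.fst = P.top c.2

theorem UDec.hB {c : TreeE P x × Cube α ι} (hc : Valid c) {A T B : List (Ed α ι)} {i : ι}
    {p : Bool} {q' : Cube α ι} (h : UDec c A i p T B q') : B.map Prod.fst = P.top q' := by
  unfold Valid at hc
  rw [h.hL, h.hq, top_append, top_letters, List.map_append] at hc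
  exact List.append_cancel_left hc

theorem ok_inv {T : List (Ed α ι)} {i : ι} {p : Bool} {j : ℕ}
    (h : Ok P (Code.cell i p j (enc T))) :
    T.map Prod.fst = P.side i p ∧ ∀ T', T ≠ bottom P i (!p) T' := by
  generalize hc : (Code.cell i p j (enc T) : Code α ι) = c at h
  cases h with
  | base k => simp at hc
  | cell i' p' j' T' h hl hr =>
    obtain ⟨h1, h2, h3, h4⟩ := bottom_inj_of_cell hc
    subst h1 h2 h3 h4
    exact ⟨hl, hr⟩

theorem UDec.ok {c : TreeE P x × Cube α ι} {A T B : List (Ed α ι)} {i : ι}
    {p : Bool} {q' : Cube α ι} (h : UDec c A i p T B q') :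
    T.map Prod.fst = P.side i p ∧ ∀ T', T ≠ bottom P i (!p) T' := by
  have h0 := bottom_pos (P := P) i p T
  have h1 : (bottom P i p T)[0] ∈ c.1.1 := by
    rw [h.hL]
    simp
  have h2 := c.1.2.1 _ h1
  rw [getElem_bottom] at h2
  exact ok_inv h2

theorem UDec.mv_val {c : TreeE P x × Cube α ι} (hc : Valid c) {A T B : List (Ed α ι)} {i : ι}
    {p : Bool} {q' : Cube α ι} (h : UDec c A i p T B q') :
    (TreeE.mv P x c.1 ⟨A.map Prod.fst, i, P.top q', !p⟩).1 = A ++ T ++ B := by
  have := TA.mv_val (P := P) c.1 A (bottom P i p T) B i (P.top q') (!p) h.hL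
    (bottom_map_fst i p T) (h.hB hc)
  have e : act P i (!p) (bottom P i p T) = T := by
    have := act_bottom (P := P) i (!p) T
    rwa [Bool.not_not] at this
  rw [e] at this
  exact this

theorem UDec.partner_D {c : TreeE P x × Cube α ι} (hc : Valid c) {A T B : List (Ed α ι)} {i : ι}
    {p : Bool} {q' : Cube α ι} (h : UDec c A i p T B q') :
    DDec (partner c A i p q') A (if p then T else bottom P i false T) B i q' := by
  cases p with
  | true =>
    refine ⟨?_, rfl, ?_, h.hA⟩
    · exact h.mv_val hc
    · exact h.ok.1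
  | false =>
    refine ⟨?_, rfl, ?_, h.hA⟩
    · exact h.hL
    · exact bottom_map_fst i false T

theorem UDec.partner_valid {c : TreeE P x × Cube α ι} (hc : Valid c) {A T B : List (Ed α ι)}
    {i : ι} {p : Bool} {q' : Cube α ι} (h : UDec c A i p T B q') :
    Valid (partner c A i p q') := by
  have h1 := h.partner_D hc
  unfold Valid
  rw [h1.hL, h1.hq, List.map_append, List.map_append, h1.ht, top_append, top_letters, top_inr,
    h.hB hc, List.append_assoc]

theorem DDec.hB {c : TreeE P x × Cube α ι} (hc : Valid c) {A t B : List (Ed α ι)} {i : ι}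
    {q' : Cube α ι} (h : DDec c A t B i q') : B.map Prod.fst = P.top q' := by
  unfold Valid at hc
  rw [h.hL, h.hq, top_append, top_letters, List.map_append, List.map_append, h.ht,
    top_inr, List.append_assoc] at hc
  exact List.append_cancel_left (List.append_cancel_left hc)

theorem DDec.unique {c : TreeE P x × Cube α ι} {A A' B B' t t' : List (Ed α ι)} {i i' : ι}
    {q q' : Cube α ι} (h : DDec c A t B i q) (h' : DDec c A' t' B' i' q') :
    A = A' ∧ t = t' ∧ B = B' ∧ i = i' ∧ q = q' := by
  obtain ⟨e1, e2, e3⟩ := letters_inr_inj _ _ _ _ _ _ (h.hq.symm.trans h'.hq)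
  subst e2 e3
  have hA : A.length = A'.length := by simpa using congrArg List.length e1
  have ht : t.length = t'.length := by
    simpa using congrArg List.length (h.ht.trans h'.ht.symm)
  have h2 := h.hL.symm.trans h'.hL
  rw [List.append_assoc, List.append_assoc] at h2
  obtain ⟨h3, h4⟩ := List.append_inj h2 hA
  obtain ⟨h5, h6⟩ := List.append_inj h4 ht
  exact ⟨h3, h5, h6, rfl, rfl⟩

/-- The faces of a cell of type `D` away from the trigger are of type `D`. -/
theorem DDec.face_l {c : TreeE P x × Cube α ι} {A t B : List (Ed α ι)} {i : ι}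
    {q' : Cube α ι} (h : DDec c A t B i q') {s : Cube α ι × ι × Cube α ι} {q₁ : Cube α ι}
    (h1 : s.1 = letters (A.map Prod.fst) ++ Sum.inr i :: q₁) :
    DDec ((treeCov P x).lface c.1 s) A t B i (q₁ ++ letters (P.lhs s.2.1) ++ s.2.2) := by
  refine ⟨h.hL, ?_, h.ht, h.hA⟩
  change s.1 ++ letters (P.lhs s.2.1) ++ s.2.2 = _
  rw [h1]
  simp

theorem DDec.face_r {c : TreeE P x × Cube α ι} (hc : Valid c) {A t B : List (Ed α ι)} {i : ι}
    {q' : Cube α ι} (h : DDec c A t B i q') {s : Cube α ι × ι × Cube α ι} {q₁ : Cube α ι}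
    (h1 : s.1 = letters (A.map Prod.fst) ++ Sum.inr i :: q₁)
    (h2 : q' = q₁ ++ Sum.inr s.2.1 :: s.2.2) :
    ∃ B', DDec ((treeCov P x).rface c.1 s) A t B' i (q₁ ++ letters (P.rhs s.2.1) ++ s.2.2) := by
  have hB := h.hB hc
  rw [h2, top_append, top_inr, ← List.append_assoc] at hB
  obtain ⟨B₁, t', B₂, e, e1, e2, e3⟩ := list_split3 B _ _ _ hB
  have hL : c.1.1 = (A ++ t ++ B₁) ++ t' ++ B₂ := by rw [h.hL, e]; simp
  have := TA.mv_val (P := P) c.1 (A ++ t ++ B₁) t' B₂ s.2.1 (P.top s.2.2) true hL e2 e3
  refine ⟨B₁ ++ act P s.2.1 true t' ++ B₂, ?_, ?_, h.ht, h.hA⟩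
  · change ((treeCov P x).mv c.1 ⟨P.top s.1, s.2.1, P.top s.2.2, true⟩).1 = _
    have e4 : P.top s.1 = (A ++ t ++ B₁).map Prod.fst := by
      rw [h1, top_append, top_letters, top_inr, List.map_append, List.map_append, h.ht, e1,
        List.append_assoc]
    rw [e4, this]
    simp
  · change s.1 ++ letters (P.rhs s.2.1) ++ s.2.2 = _
    rw [h1]
    simp

/-! ### The matching -/

/-- The set of cells of type `U`. -/
def USet (P : Pres α ι) (x : List α) : Set (treeCov P x).Cell :=
  {c | ∃ A i p T B q', UDec c.1 A i p T B q'}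

/-- The set of cells of type `D`. -/
def DSet (P : Pres α ι) (x : List α) : Set (treeCov P x).Cell :=
  {c | ∃ A t B i q', DDec c.1 A t B i q'}

open Classical in
/-- The matching. -/
noncomputable def mat (c : (treeCov P x).Cell) : (treeCov P x).Cell :=
  if h : ∃ c' : (treeCov P x).Cell, ∃ A i p T B q', UDec c.1 A i p T B q' ∧
    c'.1 = partner c.1 A i p q' then h.choose else c

theorem mat_eq (c : (treeCov P x).Cell) {A T B : List (Ed α ι)} {i : ι}
    {p : Bool} {q' : Cube α ι} (h : UDec c.1 A i p T B q') :
    (mat c).1 = partner c.1 A i p q' := by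
  have hex : ∃ c' : (treeCov P x).Cell, ∃ A i p T B q', UDec c.1 A i p T B q' ∧
    c'.1 = partner c.1 A i p q' :=
    ⟨⟨partner c.1 A i p q', h.partner_valid c.2⟩, A, i, p, T, B, q', h, rfl⟩
  unfold mat
  rw [dif_pos hex]
  obtain ⟨A', i', p', T', B', q'', h', e⟩ := hex.choose_spec
  rw [e]
  obtain ⟨h1, h2, h3, h4, h5, h6⟩ := h.unique h'
  subst h1 h2 h3 h4 h5 h6
  rfl

theorem src_eq {c : TreeE P x × Cube α ι} (hc : Valid c) {A T B : List (Ed α ι)} {i : ι}
    {p : Bool} {q' : Cube α ι} (h : UDec c A i p T B q') :
    (⟨A.map Prod.fst, i, P.top q', !p⟩ : SEdge α ι).src P = c.1.1.map Prod.fst := by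
  rw [h.hL, List.map_append, List.map_append, bottom_map_fst, h.hB hc]
  rfl

/-- The cell of type `U` is a face of its partner. -/
theorem UDec.face_r {c : TreeE P x × Cube α ι} (hc : Valid c) {A T B : List (Ed α ι)} {i : ι}
    {q' : Cube α ι} (h : UDec c A i true T B q') :
    c = (treeCov P x).rface (partner c A i true q').1 (letters (A.map Prod.fst), i, q') := by
  have h1 := (treeCov P x).mv_inv c.1 ⟨A.map Prod.fst, i, P.top q', false⟩ (src_eq hc h)
  apply Prod.ext
  · change c.1 = (treeCov P x).mv ((treeCov P x).mv c.1 ⟨A.map Prod.fst, i, P.top q', false⟩)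
      ⟨P.top (letters (A.map Prod.fst) : Cube α ι), i, P.top q', true⟩
    rw [top_letters]
    exact h1.symm
  · change c.2 = letters (A.map Prod.fst) ++ letters (P.rhs i) ++ q'
    rw [h.hq, List.map_append, bottom_map_fst, letters_append]
    rfl

theorem UDec.face_l {c : TreeE P x × Cube α ι} {A T B : List (Ed α ι)} {i : ι}
    {q' : Cube α ι} (h : UDec c A i false T B q') :
    c = (treeCov P x).lface (partner c A i false q').1 (letters (A.map Prod.fst), i, q') := by
  apply Prod.ext
  · rfl
  · change c.2 = letters (A.map Prod.fst) ++ letters (P.lhs i) ++ q'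
    rw [h.hq, List.map_append, bottom_map_fst, letters_append]
    rfl

theorem UDec.phi_other_l {c : TreeE P x × Cube α ι} (hc : Valid c) {A T B : List (Ed α ι)}
    {i : ι} {q' : Cube α ι} (h : UDec c A i true T B q') :
    phi ((treeCov P x).lface (partner c A i true q').1 (letters (A.map Prod.fst), i, q')).1.1 <
      phi c.1.1 := by
  have h1 := (h.partner_D hc).hL
  change phi (partner c A i true q').1.1 < phi c.1.1
  rw [h1, h.hL]
  have := phi_bottom (P := P) i true T
  simp only [phi_append, if_true]
  omega

theorem UDec.phi_other_r {c : TreeE P x × Cube α ι} (hc : Valid c) {A T B : List (Ed α ι)}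
    {i : ι} {q' : Cube α ι} (h : UDec c A i false T B q') :
    phi ((treeCov P x).rface (partner c A i false q').1 (letters (A.map Prod.fst), i, q')).1.1 <
      phi c.1.1 := by
  have h1 := h.mv_val hc
  have e : ((treeCov P x).rface (partner c A i false q').1
      (letters (A.map Prod.fst), i, q')).1.1 = A ++ T ++ B := by
    change (TreeE.mv P x c.1 ⟨P.top (letters (A.map Prod.fst) : Cube α ι), i, P.top q', true⟩).1 = _
    rw [top_letters]
    exact h1
  rw [e, h.hL]
  have := phi_bottom (P := P) i false T
  simp only [phi_append]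
  omega

theorem disj (P : Pres α ι) (x : List α) : Disjoint (USet P x) (DSet P x) := by
  rw [Set.disjoint_left]
  rintro c ⟨A, i, p, T, B, q', h⟩ ⟨A', t', B', i', q'', h'⟩
  exact not_U_and_D h h'

theorem bij (P : Pres α ι) (x : List α) : Set.BijOn mat (USet P x) (DSet P x) := by
  refine ⟨?_, ?_, ?_⟩
  · rintro c ⟨A, i, p, T, B, q', h⟩
    refine ⟨A, if p then T else bottom P i false T, B, i, q', ?_⟩
    rw [mat_eq c h]
    exact h.partner_D c.2
  · rintro c ⟨A, i, p, T, B, q', h⟩ c₁ ⟨A₁, i₁, p₁, T₁, B₁, q₁, h₁⟩ e
    have e1 := mat_eq c h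
    have e2 := mat_eq c₁ h₁
    rw [e, e2] at e1
    have d1 := h.partner_D c.2
    have d2 := h₁.partner_D c₁.2
    rw [e1] at d2
    obtain ⟨u1, u2, u3, u4, u5⟩ := d1.unique d2
    subst u1 u3 u4 u5
    have hp : p = p₁ := by
      cases p <;> cases p₁
      · rfl
      · exact absurd u2.symm (h₁.ok.2 T)
      · exact absurd u2 (h.ok.2 T₁)
      · rfl
    subst hp
    apply Subtype.ext
    have hL : c.1.1.1 = c₁.1.1.1 := by
      rw [h.hL, h₁.hL]
      cases p
      · simp only [Bool.false_eq_true, if_false] at u2
        rw [u2]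
      · simp only [if_true] at u2
        rw [u2]
    apply Prod.ext
    · exact Subtype.ext hL
    · rw [h.hq, h₁.hq]
      simp only [List.map_append, bottom_map_fst]
  · rintro c ⟨A, t, B, i, q', h⟩
    have hB := h.hB c.2
    by_cases ht : ∃ T, t = bottom P i false T
    · obtain ⟨T, rfl⟩ := ht
      have hv : Valid (c.1.1, letters (A.map Prod.fst) ++ letters (P.lhs i) ++ q') := by
        unfold Valid
        simp only [top_append, top_letters]
        rw [h.hL, List.map_append, List.map_append, hB, h.ht]
      have hU : UDec (c.1.1, letters (A.map Prod.fst) ++ letters (P.lhs i) ++ q')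
          A i false T B q' := by
        refine ⟨h.hL, ?_, h.hA⟩
        simp only [List.map_append, letters_append, h.ht]
      obtain ⟨c₀, hc₀, hU⟩ : ∃ c₀ : (treeCov P x).Cell, c₀.1 =
        (c.1.1, letters (A.map Prod.fst) ++ letters (P.lhs i) ++ q') ∧
        UDec c₀.1 A i false T B q' := ⟨⟨_, hv⟩, rfl, hU⟩
      refine ⟨c₀, ⟨A, i, false, T, B, q', hU⟩, ?_⟩
      apply Subtype.ext
      refine (mat_eq c₀ hU).trans ?_
      apply Prod.ext
      · have h1 : c₀.1.1 = c.1.1 := (Prod.ext_iff.1 hc₀).1
        exact h1
      · exact h.hq.symm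
    · push Not at ht
      have hsrc : (⟨A.map Prod.fst, i, P.top q', true⟩ : SEdge α ι).src P =
          c.1.1.1.map Prod.fst := by
        rw [h.hL, List.map_append, List.map_append, h.ht, hB]
        rfl
      have hmv := TA.mv_val (P := P) c.1.1 A t B i (P.top q') true h.hL h.ht hB
      rw [act_of_not i true t ht] at hmv
      have hlab := (treeCov P x).lab_mv c.1.1 ⟨A.map Prod.fst, i, P.top q', true⟩ hsrc
      have hinv := (treeCov P x).mv_inv c.1.1 ⟨A.map Prod.fst, i, P.top q', true⟩ hsrc
      have hv : Valid ((treeCov P x).mv c.1.1 ⟨A.map Prod.fst, i, P.top q', true⟩,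
          letters (A.map Prod.fst) ++ letters (P.rhs i) ++ q') := by
        refine Eq.trans hlab ?_
        simp only [top_append, top_letters]
        rfl
      have hU : UDec ((treeCov P x).mv c.1.1 ⟨A.map Prod.fst, i, P.top q', true⟩,
          letters (A.map Prod.fst) ++ letters (P.rhs i) ++ q') A i true t B q' := by
        refine ⟨hmv, ?_, h.hA⟩
        simp only [List.map_append, letters_append, bottom_map_fst]
        rfl
      obtain ⟨c₀, hc₀, hU⟩ : ∃ c₀ : (treeCov P x).Cell, c₀.1 =
        ((treeCov P x).mv c.1.1 ⟨A.map Prod.fst, i, P.top q', true⟩,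
          letters (A.map Prod.fst) ++ letters (P.rhs i) ++ q') ∧
        UDec c₀.1 A i true t B q' := ⟨⟨_, hv⟩, rfl, hU⟩
      refine ⟨c₀, ⟨A, i, true, t, B, q', hU⟩, ?_⟩
      apply Subtype.ext
      refine (mat_eq c₀ hU).trans ?_
      apply Prod.ext
      · exact (congrArg (fun c₁ : (treeCov P x).E × Cube α ι =>
          (treeCov P x).mv c₁.1 ⟨A.map Prod.fst, i, P.top q', false⟩) hc₀).trans hinv
      · exact h.hq.symm

/-- The order of the matching. -/
def ord (y z : (treeCov P x).Cell) : Prop := phi y.1.1.1 < phi z.1.1.1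

theorem ord_wf : WellFounded (ord (P := P) (x := x)) :=
  (measure fun c : (treeCov P x).Cell => phi c.1.1.1).wf

theorem htri (c : (treeCov P x).Cell) (hc : c ∈ USet P x) (y : (treeCov P x).Cell)
    (hy : y ∈ USet P x) (h : ((treeCov P x).bd (Finsupp.single (mat c) 1)) y ≠ 0) :
    y = c ∨ ord y c := by
  obtain ⟨A, i, p, T, B, q', hd⟩ := hc
  rw [Cov.bd_single] at h
  obtain ⟨s, hs, hys⟩ := exists_split_of_rawBd_ne _ h
  rw [mat_eq c hd] at hs hys
  have hD := hd.partner_D c.2
  obtain ⟨A', i', p', T', B', q'', hy'⟩ := hy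
  rcases split_cases _ _ _ _ hs with e | ⟨q₁, h1, h2⟩
  · subst e
    cases p with
    | true =>
      rcases hys with hys | hys
      · right
        unfold ord
        rw [hys]
        exact hd.phi_other_l c.2
      · left
        apply Subtype.ext
        rw [hys]
        exact (hd.face_r c.2).symm
    | false =>
      rcases hys with hys | hys
      · left
        apply Subtype.ext
        rw [hys]
        exact hd.face_l.symm
      · right
        unfold ord
        rw [hys]
        exact hd.phi_other_r c.2
  · exfalso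
    rcases hys with hys | hys
    · rw [hys] at hy'
      exact not_U_and_D hy' (hD.face_l h1)
    · rw [hys] at hy'
      obtain ⟨B'', h3⟩ := hD.face_r (hd.partner_valid c.2) h1 h2
      exact not_U_and_D hy' h3

theorem hdiag (c : (treeCov P x).Cell) (hc : c ∈ USet P x) :
    IsUnit (((treeCov P x).bd (Finsupp.single (mat c) 1)) c) := by
  obtain ⟨A, i, p, T, B, q', hd⟩ := hc
  rw [Cov.bd_single]
  have hm := mat_eq c hd
  have hD := hd.partner_D c.2
  have hmem : ((letters (A.map Prod.fst), i, q') : Cube α ι × ι × Cube α ι) ∈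
      splits (mat c).1.2 := by
    rw [hm, mem_splits]
    rfl
  have hother : ∀ s ∈ splits (mat c).1.2, s ≠ (letters (A.map Prod.fst), i, q') →
      c.1 ≠ (treeCov P x).lface (mat c).1.1 s ∧ c.1 ≠ (treeCov P x).rface (mat c).1.1 s := by
    intro s hs hne
    rw [hm] at hs ⊢
    rcases split_cases _ _ _ _ hs with e | ⟨q₁, h1, h2⟩
    · exact absurd e hne
    · refine ⟨?_, ?_⟩
      · intro e
        rw [e] at hd
        exact not_U_and_D hd (hD.face_l h1)
      · intro e
        obtain ⟨B'', h3⟩ := hD.face_r (hd.partner_valid c.2) h1 h2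
        rw [← e] at h3
        exact not_U_and_D hd h3
  cases p with
  | true =>
    refine isUnit_rawBd_of_rface _ hmem ?_ (fun s hs hne => (hother s hs hne).2) ?_
    · rw [hm]
      exact hd.face_r c.2
    · intro s hs e
      by_cases hne : s = (letters (A.map Prod.fst), i, q')
      · subst hne
        rw [hm] at e
        have := hd.phi_other_l c.2
        rw [← e] at this
        exact lt_irrefl _ this
      · exact (hother s hs hne).1 e
  | false =>
    refine isUnit_rawBd_of_lface _ hmem ?_ (fun s hs hne => (hother s hs hne).1) ?_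
    · rw [hm]
      exact hd.face_l
    · intro s hs e
      by_cases hne : s = (letters (A.map Prod.fst), i, q')
      · subst hne
        rw [hm] at e
        have := hd.phi_other_r c.2
        rw [← e] at this
        exact lt_irrefl _ this
      · exact (hother s hs hne).2 e

/-- There is only one critical cell. -/
theorem critical (c : (treeCov P x).Cell) (hc : c ∈ (USet P x ∪ DSet P x)ᶜ) :
    c = ⟨(TreeE.base P x, letters x), tree_base_valid P x⟩ := by
  have hU : c ∉ USet P x := fun h => hc (Or.inl h)
  have hD : c ∉ DSet P x := fun h => hc (Or.inr h)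
  have hcv : c.1.1.1.map Prod.fst = P.top c.1.2 := c.2
  rcases cube_cases c.1.2 with ⟨w, hw⟩ | ⟨w, i, q', hq⟩
  · have hw' : w = c.1.1.1.map Prod.fst := by
      rw [hcv, hw, top_letters]
    have hN : NoBot P c.1.1.1 := by
      by_contra hN
      obtain ⟨i, p, T, A₁, A₂, e, h1⟩ := exists_leftmost _ hN
      refine hU ⟨A₁, i, p, T, A₂, letters (A₂.map Prod.fst), e, ?_, h1⟩
      rw [hw, hw', e, ← letters_append, ← List.map_append]
    have hbase : c.1.1.1 = baseList x := by
      rcases c.1.1.2.2.cases_head with e | ⟨L', ⟨A, i, p, T, B, e, -⟩, -⟩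
      · exact e
      · exact absurd e (hN i p T A B)
    have hb1 : c.1.1 = TreeE.base P x := Subtype.ext hbase
    apply Subtype.ext
    apply Prod.ext
    · exact hb1
    · rw [hw, hw', hbase]
      have := tree_base_valid P x
      rw [top_letters] at this
      exact congrArg letters this
  · exfalso
    rw [hq, top_append, top_letters, top_inr, ← List.append_assoc] at hcv
    obtain ⟨A, t, B, e, e1, e2, e3⟩ := list_split3 _ _ _ _ hcv
    by_cases hN : NoBot P A
    · exact hD ⟨A, t, B, i, q', e, by rw [hq, e1], e2, hN⟩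
    · obtain ⟨j, p, T, A₁, A₂, e', h1⟩ := exists_leftmost _ hN
      refine hU ⟨A₁, j, p, T, A₂ ++ t ++ B, letters (A₂.map Prod.fst) ++ Sum.inr i :: q',
        ?_, ?_, h1⟩
      · rw [e, e']
        simp
      · rw [hq, ← e1, e']
        simp

end TA

theorem tree_acyclic (x : List α) (z : (treeCov P x).Cell →₀ ℤ) (hz : (treeCov P x).bd z = 0) :
    ∃ (n : ℤ) (y : (treeCov P x).Cell →₀ ℤ),
      z = Finsupp.single ⟨(TreeE.base P x, letters x), tree_base_valid P x⟩ n +
        (treeCov P x).bd y := by
  suffices H : ∀ b : (treeCov P x).Cell, b = ⟨(TreeE.base P x, letters x), tree_base_valid P x⟩ →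
      ∃ (n : ℤ) (y : (treeCov P x).Cell →₀ ℤ), z = Finsupp.single b n + (treeCov P x).bd y from
    H _ rfl
  intro b hb
  classical
  have hm := matching (treeCov P x).bd (bd_bd _) (TA.USet P x) (TA.DSet P x) (TA.disj P x)
    TA.mat (TA.bij P x) TA.ord TA.ord_wf TA.hdiag TA.htri
  obtain ⟨c, hc, hzc⟩ := hm.1 z
  have hc' : c = Finsupp.single b (c b) := by
    ext a
    rw [Finsupp.mem_supported] at hc
    by_cases ha : a = b
    · subst ha
      simp
    · rw [Finsupp.single_apply, if_neg (Ne.symm ha)]
      by_contra h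
      exact ha ((TA.critical a (hc (Finsupp.mem_support_iff.2 h))).trans hb.symm)
  have hb0 : (treeCov P x).bd (Finsupp.single b 1) = 0 := by
    have hsp : splits b.1.2 = [] := by
      rw [hb]
      change splits (letters x : Cube α ι) = []
      clear hzc hc' hc hm hb hz z c b
      induction x with
      | nil => rfl
      | cons y x ih => simp [splits, ih]
    ext a
    rw [Cov.bd_single]
    unfold Cov.rawBd
    simp only [hsp, List.map_nil, List.sum_nil]
    rfl
  have hbase : (treeCov P x).bd c = 0 := by
    rw [hc']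
    have e : ∀ n : ℤ, (Finsupp.single b n) = n • Finsupp.single b (1 : ℤ) := by
      intro n
      simp
    rw [e, map_smul, hb0, smul_zero]
  have hz' : (treeCov P x).bd (z - c) = 0 := by
    rw [map_sub, hz, hbase, sub_zero]
  obtain ⟨y, -, hy⟩ := hm.2.2 (z - c) hzc hz'
  refine ⟨c b, y, ?_⟩
  rw [← hc', hy]
  simp

end Pool.Agent.DG
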