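import Pool.Agent.MP_cff99f_al.TreeIso
import Pool.Agent.MP_cff99f_al.TreeAcyc

/-! Block D4: the chain complex of the universal covering is acyclic. -/

namespace Pool.Agent.DG

universe u v w w'

variable {α : Type u} {ι : Type v} (P : Pres α ι)

theorem univ_base_valid (x : List α) :
    (univCov P x).lab ⟨x, Hpt.id P x⟩ = P.top (letters x : Cube α ι) := by
  rw [top_letters]; rfl

variable {P}

/-- The map on cells induced by a label preserving map of vertices. -/
def cellMap (X : Cov.{u, v, w} P) (Y : Cov.{u, v, w'} P) (f : X.E → Y.E)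
    (hlab : ∀ v, Y.lab (f v) = X.lab v) (c : X.Cell) : Y.Cell :=
  ⟨(f c.1.1, c.1.2), by rw [hlab]; exact c.2⟩

theorem rawBd_cellMap (X : Cov.{u, v, w} P) (Y : Cov.{u, v, w'} P) (f : X.E → Y.E)
    (hmv : ∀ v s, s.src P = X.lab v → f (X.mv v s) = Y.mv (f v) s)
    (c : X.E × Cube α ι) (hc : X.lab c.1 = P.top c.2) :
    Y.rawBd (f c.1, c.2) = Finsupp.mapDomain (fun d : X.E × Cube α ι => (f d.1, d.2))
      (X.rawBd c) := by
  unfold Cov.rawBd
  have : ∀ l : List (Cube α ι × ι × Cube α ι), (∀ s ∈ l, s ∈ splits c.2) →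
      (l.map fun s => (-1 : ℤ) ^ dim s.1 •
        (Finsupp.single (Y.lface (f c.1) s) (1 : ℤ) -
          Finsupp.single (Y.rface (f c.1) s) (1 : ℤ))).sum =
      Finsupp.mapDomain (fun d : X.E × Cube α ι => (f d.1, d.2))
        (l.map fun s => (-1 : ℤ) ^ dim s.1 •
        (Finsupp.single (X.lface c.1 s) (1 : ℤ) -
          Finsupp.single (X.rface c.1 s) (1 : ℤ))).sum := by
    intro l
    induction l with
    | nil => intro _; simp
    | cons s l ih =>
      intro h
      rw [List.map_cons, List.sum_cons, List.map_cons, List.sum_cons, Finsupp.mapDomain_add,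
        ih (fun t ht => h t (List.mem_cons_of_mem _ ht))]
      congr 1
      have hs := mem_splits.1 (h s List.mem_cons_self)
      have hsrc : (⟨P.top s.1, s.2.1, P.top s.2.2, true⟩ : SEdge α ι).src P = X.lab c.1 := by
        simp [SEdge.src, hc, hs]
      rw [Finsupp.mapDomain_smul]
      congr 1
      rw [sub_eq_add_neg, sub_eq_add_neg, Finsupp.mapDomain_add, ← Finsupp.single_neg,
        ← Finsupp.single_neg, Finsupp.mapDomain_single, Finsupp.mapDomain_single]
      unfold Cov.lface Cov.rface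
      simp only
      rw [hmv _ _ hsrc]
  exact this _ (fun _ h => h)

theorem bd_cellMap (X : Cov.{u, v, w} P) (Y : Cov.{u, v, w'} P) (f : X.E → Y.E)
    (hlab : ∀ v, Y.lab (f v) = X.lab v)
    (hmv : ∀ v s, s.src P = X.lab v → f (X.mv v s) = Y.mv (f v) s) (z : X.Cell →₀ ℤ) :
    Y.bd (Finsupp.mapDomain (cellMap X Y f hlab) z) =
      Finsupp.mapDomain (cellMap X Y f hlab) (X.bd z) := by
  apply Finsupp.mapDomain_injective Y.val_injective
  rw [val_bd]
  rw [← Finsupp.mapDomain_comp, ← Finsupp.mapDomain_comp]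
  have e1 : Y.val ∘ cellMap X Y f hlab =
      (fun d : X.E × Cube α ι => (f d.1, d.2)) ∘ X.val := rfl
  rw [e1, Finsupp.mapDomain_comp, Finsupp.mapDomain_comp, val_bd]
  induction z using Finsupp.induction_linear with
  | zero => simp
  | add g h hg hh =>
    simp only [Finsupp.mapDomain_add, map_add] at hg hh ⊢
    rw [hg, hh]
  | single c n =>
    rw [Finsupp.mapDomain_single, Finsupp.mapDomain_single]
    unfold Cov.rawD
    rw [Finsupp.linearCombination_single, Finsupp.linearCombination_single,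
      Finsupp.mapDomain_smul]
    congr 1
    exact rawBd_cellMap X Y f hmv (X.val c) c.2

variable (P)

theorem univ_acyclic (x : List α) (z : (univCov P x).Cell →₀ ℤ) (hz : (univCov P x).bd z = 0) :
    ∃ (n : ℤ) (y : (univCov P x).Cell →₀ ℤ),
      z = Finsupp.single ⟨(⟨x, Hpt.id P x⟩, letters x), univ_base_valid P x⟩ n +
        (univCov P x).bd y := by
  obtain ⟨f, hlab, hmv, hbase⟩ := exists_iso P x
  have hbij : Function.Bijective (cellMap (univCov P x) (treeCov P x) f hlab) := by
    constructor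
    · intro c c' h
      have h1 : (f c.1.1, c.1.2) = (f c'.1.1, c'.1.2) := congrArg Subtype.val h
      simp only [Prod.mk.injEq, EmbeddingLike.apply_eq_iff_eq] at h1
      exact Subtype.ext (Prod.ext h1.1 h1.2)
    · intro c
      refine ⟨⟨(f.symm c.1.1, c.1.2), ?_⟩, ?_⟩
      · rw [← hlab, Equiv.apply_symm_apply]; exact c.2
      · apply Subtype.ext
        exact Prod.ext (f.apply_symm_apply _) rfl
  obtain ⟨n, y, hy⟩ := tree_acyclic P x
    (Finsupp.mapDomain (cellMap (univCov P x) (treeCov P x) f hlab) z) (by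
      rw [bd_cellMap _ _ _ _ hmv, hz, Finsupp.mapDomain_zero])
  obtain ⟨y', rfl⟩ : ∃ y', Finsupp.mapDomain (cellMap (univCov P x) (treeCov P x) f hlab) y' = y :=
    (Finsupp.mapDomain_surjective hbij.2) y
  refine ⟨n, y', Finsupp.mapDomain_injective hbij.1 ?_⟩
  have e1 : Finsupp.mapDomain (cellMap (univCov P x) (treeCov P x) f hlab)
      (Finsupp.single ⟨(⟨x, Hpt.id P x⟩, letters x), univ_base_valid P x⟩ n) =
      Finsupp.single ⟨(TreeE.base P x, letters x), tree_base_valid P x⟩ n := by
    refine Finsupp.mapDomain_single.trans ?_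
    congr 1
    apply Subtype.ext
    exact Prod.ext hbase rfl
  rw [hy, Finsupp.mapDomain_add, bd_cellMap _ _ _ _ hmv, e1]

end Pool.Agent.DG
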