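import Pool.Agent.MP_cff99f_al.Action
import Pool.Agent.MP_cff99f_al.RedComplex
import Pool.Agent.MP_cff99f_al.UnivAcyc
import Pool.Agent.MP_cff99f_al.Reduction
import Pool.Agent.MP_cff99f_al.HOne
import Pool.Agent.MP_cff99f_al.Comb

/-!
The main theorem: a diagram group over a complete presentation which is of type `FP_2` is of
type `FP_n` for all `n`.
-/

namespace Pool.Agent.DG

universe u v w

variable {α : Type u} {ι : Type v} {P : Pres α ι}

theorem TypeFP.mono {G : Type w} [Group G] {m n : ℕ} (hmn : m ≤ n) (h : TypeFP n G) :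
    TypeFP m G := by
  obtain ⟨k, ε, d, h1, h2, h3, h4⟩ := h
  exact ⟨k, ε, d, h1, h2, fun h => h3 (by omega), fun i hi => h4 i (by omega)⟩

theorem cong_of_isPath {l : List (SEdge α ι)} : ∀ {x y : List α}, IsPath P x l y → Cong P x y := by
  induction l with
  | nil => intro x y h; cases h; exact Relation.EqvGen.refl _
  | cons s l ih =>
    intro x y h
    refine Relation.EqvGen.trans _ _ _ ?_ (ih h.2)
    rw [← h.1]
    obtain ⟨a, i, b, p⟩ := s
    cases p
    · exact Relation.EqvGen.symm _ _ (Relation.EqvGen.rel _ _ ⟨a, i, b, rfl, rfl⟩)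
    · exact Relation.EqvGen.rel _ _ ⟨a, i, b, rfl, rfl⟩

theorem cong_of_hpt {x y : List α} (a : Hpt P x y) : Cong P x y := by
  induction a using Hpt.ind with
  | _ l hl => exact cong_of_isPath hl

theorem isPath_of_cong {x y : List α} (h : Cong P x y) : ∃ l, IsPath P x l y := by
  induction h with
  | rel x y h =>
    obtain ⟨a, i, b, rfl, rfl⟩ := h
    exact ⟨[⟨a, i, b, true⟩], rfl, rfl⟩
  | refl x => exact ⟨[], rfl⟩
  | symm x y _ ih =>
    obtain ⟨l, hl⟩ := ih
    exact ⟨_, isPath_reverse P hl⟩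
  | trans x y z _ _ ih1 ih2 =>
    obtain ⟨l, hl⟩ := ih1
    obtain ⟨l', hl'⟩ := ih2
    exact ⟨_, isPath_append P hl hl'⟩

/-- The reduction data of the universal covering. -/
theorem exists_redData (hP : Complete P) (x : List α) :
    ∃ R : RedData (DiagramGroup P x) (univCov P x).Cell (List (List α × ι) × List α →₀ ℤ),
      R.C = (univCov P x).crit ∧ (∀ c, R.deg c = dim c.1.2) ∧ R.rho = (univCov P x).rho := by
  obtain ⟨Dc, hDc⟩ := reduction.{u, v, max u v} hP
  obtain ⟨h1, h2, h3, h4⟩ := hDc (univCov P x)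
  refine ⟨
    { deg := fun c => dim c.1.2
      d := (univCov P x).bd
      dd := bd_bd _
      hdeg := ?_
      C := (univCov P x).crit
      D := {c | c.1.2 ∈ Dc}
      h1 := h1
      h2 := h2
      h3 := h3
      c0 := ⟨(⟨x, Hpt.id P x⟩, letters x), univ_base_valid P x⟩
      hc0 := dim_letters x
      hac := univ_acyclic P x
      haug := aug_bd _
      gdeg := fun g c => rfl
      gC := fun g c h => h
      gD := fun g c h => h
      gd := bd_smul
      rho := (univCov P x).rho
      rho_d := rho_bd hP _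
      rho_N := h4
      rho_g := rho_smul }, rfl, fun c => rfl, rfl⟩
  intro c c' h
  rw [Cov.bd_single] at h
  obtain ⟨s, hs, h | h⟩ := exists_split_of_rawBd_ne _ h
  · have := dim_lface (univCov P x) hs
    rw [← h] at this
    exact this
  · have := dim_rface (univCov P x) hs
    rw [← h] at this
    exact this

section

variable {x : List α}
  (R : RedData (DiagramGroup P x) (univCov P x).Cell (List (List α × ι) × List α →₀ ℤ))
  (hC : R.C = (univCov P x).crit) (hdeg : ∀ c, R.deg c = dim c.1.2)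
  (hrho : R.rho = (univCov P x).rho)

include hC hdeg

theorem exists_data (k : ℕ) (c : R.X k) : ∃ κ ∈ Crit P k x, c.1.1.2 = critCube κ.1 κ.2 := by
  have h1 : c.1 ∈ (univCov P x).crit := hC ▸ c.2.1
  obtain ⟨L, t, hL, ht, hq⟩ := h1
  refine ⟨(L, t), ⟨?_, hL, ht, ?_⟩, hq⟩
  · have h2 := c.2.2
    rw [hdeg, hq, dim_critCube] at h2
    exact h2
  · have h3 : (univCov P x).lab c.1.1.1 = P.top c.1.1.2 := c.1.2
    rw [hq, top_critCube] at h3
    change (c.1.1.1 : Vert P x).1 = _ at h3
    rw [← h3]
    exact Relation.EqvGen.symm _ _ (cong_of_hpt (c.1.1.1 : Vert P x).2)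

theorem exists_cell (k : ℕ) (κ : List (List α × ι) × List α) (hκ : κ ∈ Crit P k x) :
    ∃ c : R.X k, c.1.1.2 = critCube κ.1 κ.2 := by
  obtain ⟨h1, h2, h3, h4⟩ := hκ
  obtain ⟨l, hl⟩ := isPath_of_cong (Relation.EqvGen.symm _ _ h4)
  have hv : (univCov P x).lab (Vert.mk P l hl) = P.top (critCube κ.1 κ.2) := by
    rw [top_critCube]; rfl
  refine ⟨⟨⟨(Vert.mk P l hl, critCube κ.1 κ.2), hv⟩, ?_, ?_⟩, rfl⟩
  · rw [hC]
    exact ⟨κ.1, κ.2, h2, h3, rfl⟩
  · refine (hdeg _).trans ?_
    change dim (critCube κ.1 κ.2) = k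
    rw [dim_critCube, h1]

theorem finite_orbits (k : ℕ) (hk : (Crit P k x).Finite) :
    Finite (MulAction.orbitRel.Quotient (DiagramGroup P x) (R.X k)) := by
  have := hk.to_subtype
  choose f hf hf' using exists_data R hC hdeg k
  let F : R.X k → Crit P k x := fun c => ⟨f c, hf c⟩
  have hFinj : ∀ c c' : R.X k, F c = F c' → c ∈ MulAction.orbit (DiagramGroup P x) c' := by
    intro c c' h
    have h1 : f c = f c' := congrArg Subtype.val h
    have h2 : c'.1.1.2 = c.1.1.2 := by rw [hf' c, hf' c', h1]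
    obtain ⟨g, hg⟩ := cell_trans c'.1 c.1 h2
    exact ⟨g, Subtype.ext hg⟩
  have hFc : ∀ c c' : R.X k, c ∈ MulAction.orbit (DiagramGroup P x) c' → F c = F c' := by
    rintro c c' ⟨g, rfl⟩
    apply Subtype.ext
    have h1 := hf' (g • c')
    have h2 := hf' c'
    have h3 : (g • c').1.1.2 = c'.1.1.2 := rfl
    rw [h1, h2] at h3
    exact Prod.ext (critCube_injective h3).1 (critCube_injective h3).2
  refine Finite.of_injective (β := Crit P k x)
    (Quotient.lift (s := MulAction.orbitRel (DiagramGroup P x) (R.X k)) F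
      (fun c c' h => hFc c c' h)) ?_
  intro a b
  induction a using Quotient.ind with
  | _ a =>
  induction b using Quotient.ind with
  | _ b =>
  intro h
  exact Quotient.sound (hFinj a b h)

include hrho

theorem crit_finite_of_closure (hP : Complete P) (k : ℕ)
    (F : Finset (List (List α × ι) × List α →₀ ℤ))
    (hF : ∀ y : R.X k →₀ ℤ, R.rho (R.inc k y) ∈
      AddSubgroup.closure (F : Set (List (List α × ι) × List α →₀ ℤ))) :
    (Crit P k x).Finite := by
  classical
  let A : Set (List (List α × ι) × List α) := ⋃ f ∈ F, (f.support : Set _)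
  have hA : A.Finite := by
    apply Set.Finite.biUnion F.finite_toSet
    intro f _
    exact f.support.finite_toSet
  refine hA.subset ?_
  intro κ hκ
  obtain ⟨c, hc⟩ := exists_cell R hC hdeg k κ hκ
  have h1 := hF (Finsupp.single c 1)
  have h2 : R.rho (R.inc k (Finsupp.single c 1)) = Finsupp.single κ 1 := by
    rw [R.inc_def, Finsupp.mapDomain_single, hrho, Cov.rho, Finsupp.linearCombination_single, hc,
      rho_critCube hP hκ.2.1 hκ.2.2.1, one_smul]
  rw [h2] at h1
  have h3 : ∀ z ∈ AddSubgroup.closure (F : Set (List (List α × ι) × List α →₀ ℤ)),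
      z ∈ (Finsupp.supported ℤ ℤ A).toAddSubgroup := by
    intro z hz
    have : AddSubgroup.closure (F : Set (List (List α × ι) × List α →₀ ℤ)) ≤
        (Finsupp.supported ℤ ℤ A).toAddSubgroup := by
      rw [AddSubgroup.closure_le]
      intro f hf
      change f ∈ Finsupp.supported ℤ ℤ A
      rw [Finsupp.mem_supported]
      intro a ha
      exact Set.mem_biUnion hf ha
    exact this hz
  have h4 : Finsupp.single κ (1 : ℤ) ∈ Finsupp.supported ℤ ℤ A := h3 _ h1
  by_contra hcon
  have := (Finsupp.mem_supported' ℤ _).1 h4 κ hcon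
  simp at this

end

theorem crit_zero_finite (hP : Complete P) (x : List α) : (Crit P 0 x).Finite := by
  refine (Set.finite_singleton (([] : List (List α × ι)), nf P x)).subset ?_
  rintro ⟨L, t⟩ ⟨h1, h2, h3, h4⟩
  have hL : L = [] := List.length_eq_zero_iff.1 h1
  subst hL
  have h5 : Cong P t x := by simpa [siteWord] using h4
  have h6 : nf P t = nf P x := (cong_iff hP).1 h5
  have h7 : nf P t = t := nf_of_irr hP h3
  rw [h7] at h6
  rw [h6]
  rfl

theorem main (hP : Complete P) (x : List α) (h : TypeFP 2 (DiagramGroup P x)) (n : ℕ) :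
    TypeFP n (DiagramGroup P x) := by
  obtain ⟨R, hC, hdeg, hrho⟩ := exists_redData hP x
  have hfree : ∀ (g : DiagramGroup P x) (c : (univCov P x).Cell), g • c = c → g = 1 := cell_free
  have hne : Nonempty (R.X 0) := by
    obtain ⟨c, _⟩ := exists_cell R hC hdeg 0 ([], nf P x)
      ⟨rfl, by simp, irr_nf hP x, by
        have : Cong P (nf P x) x := Relation.EqvGen.symm _ _ (cong_nf hP x)
        simpa [siteWord] using this⟩
    exact ⟨c⟩
  have hfin0 := finite_orbits R hC hdeg 0 (crit_zero_finite hP x)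
  have h1 : (Crit P 1 x).Finite := by
    obtain ⟨F, hF⟩ := R.rho_fin_zero hfree hfin0 hne (h.mono (by norm_num))
    exact crit_finite_of_closure R hC hdeg hrho hP 1 F hF
  have hfin1 := finite_orbits R hC hdeg 1 h1
  have h2 : (Crit P 2 x).Finite := by
    obtain ⟨F, hF⟩ := R.rho_fin_one hfree hfin0 hfin1 hne h
    exact crit_finite_of_closure R hC hdeg hrho hP 2 F hF
  exact R.typeFP hfree (fun k => finite_orbits R hC hdeg k
    (crit_finite hP (crit_one_rev hP) x h1 h2 k)) hne n

end Pool.Agent.DG
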