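import Pool.Agent.MP_cff99f_al.Sites

/-! Block W: elementary facts about complete presentations. -/

namespace Pool.Agent.DG

universe u v

variable {α : Type u} {ι : Type v} {P : Pres α ι}

open Relation

/-- A word is reducible iff it has a factor which is a left-hand side. -/
theorem irr_iff {x : List α} : Irr P x ↔ ∀ a i b, x ≠ a ++ P.lhs i ++ b := by
  constructor
  · rintro h a i b rfl
    exact h _ ⟨a, i, b, rfl, rfl⟩
  · rintro h y ⟨a, i, b, h1, _⟩
    exact h a i b h1

theorem exists_nf (hP : Complete P) (x : List α) :
    ∃ y, ReflTransGen (Step P) x y ∧ Irr P y := by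
  induction x using hP.terminating.induction with
  | _ x ih =>
    by_cases h : Irr P x
    · exact ⟨x, ReflTransGen.refl, h⟩
    · unfold Irr at h
      push Not at h
      obtain ⟨y, hy⟩ := h
      obtain ⟨z, hz, hz'⟩ := ih y hy
      exact ⟨z, ReflTransGen.head hy hz, hz'⟩

theorem red_nf (hP : Complete P) (x : List α) : ReflTransGen (Step P) x (nf P x) := by
  unfold nf
  rw [dif_pos (exists_nf hP x)]
  exact (exists_nf hP x).choose_spec.1

theorem irr_nf (hP : Complete P) (x : List α) : Irr P (nf P x) := by
  unfold nf
  rw [dif_pos (exists_nf hP x)]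
  exact (exists_nf hP x).choose_spec.2

theorem cong_of_red {x y : List α} (h : ReflTransGen (Step P) x y) : Cong P x y := by
  induction h with
  | refl => exact EqvGen.refl _
  | tail _ h ih => exact EqvGen.trans _ _ _ ih (EqvGen.rel _ _ h)

theorem cong_nf (hP : Complete P) (x : List α) : Cong P x (nf P x) := cong_of_red (red_nf hP x)

theorem eq_of_red_irr {x y : List α} (hx : Irr P x) (h : ReflTransGen (Step P) x y) : y = x := by
  rcases ReflTransGen.cases_head h with h | ⟨z, hz, _⟩
  · exact h.symm
  · exact absurd hz (hx z)

theorem nf_of_irr (hP : Complete P) {x : List α} (h : Irr P x) : nf P x = x :=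
  eq_of_red_irr h (red_nf hP x)

theorem nf_eq_of_red (hP : Complete P) {x y : List α} (h : ReflTransGen (Step P) x y) :
    nf P x = nf P y := by
  obtain ⟨t, ht, ht'⟩ := hP.confluent x (nf P x) (nf P y) (red_nf hP x) (h.trans (red_nf hP y))
  rw [← eq_of_red_irr (irr_nf hP x) ht, ← eq_of_red_irr (irr_nf hP y) ht']

theorem cong_iff (hP : Complete P) {x y : List α} : Cong P x y ↔ nf P x = nf P y := by
  constructor
  · intro h
    induction h with
    | rel x y h => exact nf_eq_of_red hP (ReflTransGen.single h)
    | refl x => rfl
    | symm x y _ ih => exact ih.symm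
    | trans x y z _ _ ih1 ih2 => exact ih1.trans ih2
  · intro h
    have h1 := cong_nf hP x
    rw [h] at h1
    exact EqvGen.trans _ _ _ h1 (EqvGen.symm _ _ (cong_nf hP y))

theorem Step.append_left {x y : List α} (h : Step P x y) (z : List α) :
    Step P (z ++ x) (z ++ y) := by
  obtain ⟨a, i, b, rfl, rfl⟩ := h
  exact ⟨z ++ a, i, b, by simp, by simp⟩

theorem Step.append_right {x y : List α} (h : Step P x y) (z : List α) :
    Step P (x ++ z) (y ++ z) := by
  obtain ⟨a, i, b, rfl, rfl⟩ := h
  exact ⟨a, i, b ++ z, by simp, by simp⟩

theorem cong_append_left {x x' : List α} (h : Cong P x x') (y : List α) :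
    Cong P (x ++ y) (x' ++ y) := by
  induction h with
  | rel x x' h => exact EqvGen.rel _ _ (h.append_right y)
  | refl x => exact EqvGen.refl _
  | symm x x' _ ih => exact EqvGen.symm _ _ ih
  | trans x x' x'' _ _ ih1 ih2 => exact EqvGen.trans _ _ _ ih1 ih2

theorem cong_append_right {y y' : List α} (h : Cong P y y') (x : List α) :
    Cong P (x ++ y) (x ++ y') := by
  induction h with
  | rel x x' h => exact EqvGen.rel _ _ (h.append_left _)
  | refl x => exact EqvGen.refl _
  | symm x x' _ ih => exact EqvGen.symm _ _ ih
  | trans x x' x'' _ _ ih1 ih2 => exact EqvGen.trans _ _ _ ih1 ih2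

theorem cong_append {x x' y y' : List α} (h : Cong P x x') (h' : Cong P y y') :
    Cong P (x ++ y) (x' ++ y') :=
  EqvGen.trans _ _ _ (cong_append_left h y) (cong_append_right h' x')

/-- Factors of irreducible words are irreducible. -/
theorem irr_of_append {a x b : List α} (h : Irr P (a ++ x ++ b)) : Irr P x := by
  rw [irr_iff] at h ⊢
  rintro a' i b' rfl
  exact h (a ++ a') i (b' ++ b) (by simp)

theorem irr_of_append_left {x b : List α} (h : Irr P (x ++ b)) : Irr P x :=
  irr_of_append (a := []) (b := b) (by simpa using h)

theorem irr_of_append_right {a x : List α} (h : Irr P (a ++ x)) : Irr P x :=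
  irr_of_append (a := a) (b := []) (by simpa using h)

theorem pick_some {x : List α} {p : List α × ι} (h : pick P x = some p) :
    x = p.1 ++ P.lhs p.2 := by
  unfold pick at h
  split_ifs at h with h'
  have e := Option.some.inj h
  rw [← e]
  exact h'.choose_spec

theorem pick_isSome {u : List α} {e : ι} : ∃ p, pick P (u ++ P.lhs e) = some p := by
  unfold pick
  rw [dif_pos ⟨(u, e), rfl⟩]
  exact ⟨_, rfl⟩

theorem dropLast_append_ne {u v : List α} (h : v ≠ []) :
    (u ++ v).dropLast = u ++ v.dropLast := List.dropLast_append_of_ne_nil h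

/-- If `u` is irreducible and `u ++ [x]` is not, then `pick` finds a principal rule. -/
theorem exists_prin {u : List α} {x : α} (hu : Irr P u) (h : ¬ Irr P (u ++ [x])) :
    ∃ u' e, pick P (u ++ [x]) = some (u', e) ∧ u ++ [x] = u' ++ P.lhs e ∧ Prin P u' e := by
  rw [irr_iff] at h
  push Not at h
  obtain ⟨a, i, b, hab⟩ := h
  have hb : b = [] := by
    rcases List.eq_nil_or_concat b with rfl | ⟨b', y, rfl⟩
    · rfl
    · exfalso
      have h2 : u ++ [x] = (a ++ P.lhs i ++ b') ++ [y] := by rw [hab]; simp
      have h3 := (List.append_inj' h2 rfl).1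
      exact (irr_iff.1 hu) a i b' h3
  subst hb
  rw [List.append_nil] at hab
  obtain ⟨p, hp⟩ := pick_isSome (P := P) (u := a) (e := i)
  have h4 := pick_some hp
  refine ⟨p.1, p.2, by rw [hab, hp], by rw [hab, h4], ?_, ?_⟩
  · rw [← h4, ← hab]
    simpa using hu
  · rw [← h4, hp]

theorem Prin.irr {u : List α} {e : ι} (h : Prin P u e) : Irr P u := by
  have h1 := h.1
  rw [dropLast_append_ne (P.lhs_ne e)] at h1
  exact irr_of_append_left h1

theorem step_rev {x y : List α} : Step P.rev x.reverse y.reverse ↔ Step P x y := by
  constructor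
  · rintro ⟨a, i, b, h1, h2⟩
    refine ⟨b.reverse, i, a.reverse, ?_, ?_⟩
    · have := congrArg List.reverse h1
      simpa [Pres.rev] using this
    · have := congrArg List.reverse h2
      simpa [Pres.rev] using this
  · rintro ⟨a, i, b, rfl, rfl⟩
    exact ⟨b.reverse, i, a.reverse, by simp [Pres.rev], by simp [Pres.rev]⟩

theorem step_rev' {x y : List α} : Step P.rev x y ↔ Step P x.reverse y.reverse := by
  have := step_rev (P := P) (x := x.reverse) (y := y.reverse)
  rwa [List.reverse_reverse, List.reverse_reverse] at this

theorem red_rev {x y : List α} :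
    ReflTransGen (Step P.rev) x y ↔ ReflTransGen (Step P) x.reverse y.reverse := by
  constructor
  · intro h
    induction h with
    | refl => exact ReflTransGen.refl
    | tail _ h ih => exact ih.tail (step_rev'.1 h)
  · intro h
    have key : ∀ x' y' : List α, ReflTransGen (Step P) x' y' →
        ReflTransGen (Step P.rev) x'.reverse y'.reverse := by
      intro x' y' h
      induction h with
      | refl => exact ReflTransGen.refl
      | tail _ h ih => exact ih.tail (step_rev.2 h)
    simpa using key _ _ h

theorem rev_complete (hP : Complete P) : Complete P.rev := by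
  constructor
  · have := InvImage.wf (List.reverse : List α → List α) hP.terminating
    refine Subrelation.wf ?_ this
    intro x y h
    exact step_rev'.1 h
  · intro x y z h h'
    obtain ⟨t, ht, ht'⟩ := hP.confluent _ _ _ (red_rev.1 h) (red_rev.1 h')
    refine ⟨t.reverse, red_rev.2 (by simpa using ht), red_rev.2 (by simpa using ht')⟩

theorem cong_rev {x y : List α} : Cong P.rev x.reverse y.reverse ↔ Cong P x y := by
  have key1 : ∀ x y : List α, Cong P x y → Cong P.rev x.reverse y.reverse := by
    intro x y h
    induction h with
    | rel x y h => exact EqvGen.rel _ _ (step_rev.2 h)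
    | refl x => exact EqvGen.refl _
    | symm x y _ ih => exact EqvGen.symm _ _ ih
    | trans x y z _ _ ih1 ih2 => exact EqvGen.trans _ _ _ ih1 ih2
  have key2 : ∀ x y : List α, Cong P.rev x y → Cong P x.reverse y.reverse := by
    intro x y h
    induction h with
    | rel x y h => exact EqvGen.rel _ _ (step_rev'.1 h)
    | refl x => exact EqvGen.refl _
    | symm x y _ ih => exact EqvGen.symm _ _ ih
    | trans x y z _ _ ih1 ih2 => exact EqvGen.trans _ _ _ ih1 ih2
  constructor
  · intro h
    simpa using key2 _ _ h
  · exact key1 x y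

theorem irr_rev {x : List α} : Irr P.rev x.reverse ↔ Irr P x := by
  constructor
  · intro h y hy
    exact h y.reverse (step_rev.2 hy)
  · intro h y hy
    rw [step_rev'] at hy
    exact h y.reverse (by simpa using hy)

/-- The transitive closure of the rewriting relation is well-founded. -/
theorem wf_transGen (hP : Complete P) :
    WellFounded (fun y x => TransGen (Step P) x y) := by
  have := WellFounded.transGen hP.terminating
  refine Subrelation.wf ?_ this
  intro y x h
  induction h with
  | single h => exact TransGen.single h
  | tail _ h ih => exact TransGen.head h ih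

end Pool.Agent.DG
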