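import Pool.Agent.MP_cff99f_al.Cov

/-!
Irreducible words, sites and critical cubes of a complete presentation.
-/

namespace Pool.Agent.DG

universe u v w

variable {α : Type u} {ι : Type v}

/-- A word is irreducible if no rule applies to it. -/
def Irr (P : Pres α ι) (x : List α) : Prop := ∀ y, ¬ Step P x y

/-- The congruence generated by the relations. -/
def Cong (P : Pres α ι) (x y : List α) : Prop := Relation.EqvGen (Step P) x y

open Classical in
/-- The normal form of a word (meaningful for complete presentations). -/
noncomputable def nf (P : Pres α ι) (x : List α) : List α :=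
  if h : ∃ y, Relation.ReflTransGen (Step P) x y ∧ Irr P y then h.choose else x

open Classical in
/-- The chosen way to write a word as `u ++ lhs e`, if there is one. -/
noncomputable def pick (P : Pres α ι) (x : List α) : Option (List α × ι) :=
  if h : ∃ p : List α × ι, x = p.1 ++ P.lhs p.2 then some h.choose else none

/-- The rule `e` is the principal rule at `u`: no proper beginning of `u ++ lhs e` is reducible,
and `(u, e)` is the chosen decomposition. -/
def Prin (P : Pres α ι) (u : List α) (e : ι) : Prop :=
  Irr P (u ++ P.lhs e).dropLast ∧ pick P (u ++ P.lhs e) = some (u, e)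

/-- A site: an irreducible word `u` followed by a non-principal rule `e`. -/
def MSite (P : Pres α ι) (u : List α) (e : ι) : Prop := Irr P u ∧ ¬ Prin P u e

/-- The word of a sequence of sites followed by `t`. -/
def siteWord (P : Pres α ι) (L : List (List α × ι)) (t : List α) : List α :=
  L.flatMap (fun p => p.1 ++ P.lhs p.2) ++ t

/-- The critical data of degree `n` over the class of the word `s`: sequences of `n` sites followed
by an irreducible word, whose word is congruent to `s`. -/
def Crit (P : Pres α ι) (n : ℕ) (s : List α) : Set (List (List α × ι) × List α) :=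
  {x | x.1.length = n ∧ (∀ p ∈ x.1, MSite P p.1 p.2) ∧ Irr P x.2 ∧ Cong P (siteWord P x.1 x.2) s}

/-- The cube of a sequence of sites. -/
def critCube (L : List (List α × ι)) (t : List α) : Cube α ι :=
  L.flatMap (fun p => letters p.1 ++ [Sum.inr p.2]) ++ letters t

/-- A cube is critical if it comes from a sequence of sites. -/
def IsCrit (P : Pres α ι) (q : Cube α ι) : Prop :=
  ∃ L t, (∀ p ∈ L, MSite P p.1 p.2) ∧ Irr P t ∧ q = critCube L t

/-- The decomposition of a cube into blocks `T₀ e₁ T₁ e₂ … e_k T_k`; the first argument is the
beginning of the current block. -/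
def blocks : List α → Cube α ι → List (List α × ι) × List α
  | u, [] => ([], u)
  | u, Sum.inl x :: q => blocks (u ++ [x]) q
  | u, Sum.inr e :: q => ((u, e) :: (blocks [] q).1, (blocks [] q).2)

open Classical in
/-- The projection of cubes to critical data: the critical data of the normal forms of the blocks if
all of them are sites, and `0` otherwise. -/
noncomputable def rho (P : Pres α ι) (q : Cube α ι) : List (List α × ι) × List α →₀ ℤ :=
  if ∀ p ∈ (blocks [] q).1, MSite P (nf P p.1) p.2 then
    Finsupp.single ((blocks [] q).1.map (fun p => (nf P p.1, p.2)), nf P (blocks [] q).2) 1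
  else 0

variable {P : Pres α ι}

/-- The map `rho` on chains of a covering. -/
noncomputable def Cov.rho (X : Cov.{u, v, w} P) :
    (X.Cell →₀ ℤ) →ₗ[ℤ] (List (List α × ι) × List α →₀ ℤ) :=
  Finsupp.linearCombination ℤ fun c : X.Cell => Pool.Agent.DG.rho P c.1.2

/-- The presentation with all words reversed. -/
def Pres.rev (P : Pres α ι) : Pres α ι where
  lhs i := (P.lhs i).reverse
  rhs i := (P.rhs i).reverse
  lhs_ne i := by simpa using P.lhs_ne i
  rhs_ne i := by simpa using P.rhs_ne i

end Pool.Agent.DG
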