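import Pool.Agent.MP_cff99f_al.Cov

/-! Block D: the universal 2-tree, as a covering by lists of its edges. -/

namespace Pool.Agent.DG

universe u v w

variable {α : Type u} {ι : Type v}

/-- Codes of the edges of the universal 2-tree (`nil` and `cons` code lists of labelled edges):
`base k` is the `k`-th edge of the base path, `cell i p j top` the `j`-th edge of the far side
of the 2-cell obtained by applying the relation `i` in the direction `p` along the path `top`. -/
inductive Code (α : Type u) (ι : Type v) : Type (max u v)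
  | base (k : ℕ)
  | nil
  | cons (x : α) (c l : Code α ι)
  | cell (i : ι) (p : Bool) (j : ℕ) (top : Code α ι)

/-- A labelled edge of the universal 2-tree. -/
abbrev Ed (α : Type u) (ι : Type v) : Type (max u v) := α × Code α ι

/-- The code of a list of edges. -/
def enc : List (Ed α ι) → Code α ι
  | [] => Code.nil
  | e :: l => Code.cons e.1 e.2 (enc l)

theorem enc_injective : Function.Injective (enc : List (Ed α ι) → Code α ι) := by
  intro l
  induction l with
  | nil => intro l' h; cases l' with
    | nil => rfl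
    | cons e l' => simp [enc] at h
  | cons e l ih => intro l' h; cases l' with
    | nil => simp [enc] at h
    | cons e' l' =>
      simp only [enc, Code.cons.injEq] at h
      rw [ih h.2.2]
      congr 1
      exact Prod.ext h.1 h.2.1

variable (P : Pres α ι)

/-- The far side of the 2-cell given by the relation `i` in the direction `p` along `top`. -/
def bottom (i : ι) (p : Bool) (top : List (Ed α ι)) : List (Ed α ι) :=
  (P.side i (!p)).mapIdx fun j x => (x, Code.cell i p j (enc top))

/-- Codes of honest (reduced) edges. -/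
inductive Ok : Code α ι → Prop
  | base (k : ℕ) : Ok (Code.base k)
  | cell (i : ι) (p : Bool) (j : ℕ) (T : List (Ed α ι)) (h : ∀ e ∈ T, Ok e.2)
      (hl : T.map Prod.fst = P.side i p) (hr : ∀ T', T ≠ bottom P i (!p) T') :
      Ok (Code.cell i p j (enc T))

/-- Removing a 2-cell from below a path of the 2-tree. -/
def Down (L L' : List (Ed α ι)) : Prop :=
  ∃ (A : List (Ed α ι)) (i : ι) (p : Bool) (T B : List (Ed α ι)),
    L = A ++ bottom P i p T ++ B ∧ L' = A ++ T ++ B

/-- The base path. -/
def baseList (x : List α) : List (Ed α ι) := x.mapIdx fun k a => (a, Code.base k)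

/-- The vertices of the tree covering: honest paths which can be reduced to the base path. -/
def TreeE (x : List α) : Type (max u v) :=
  {L : List (Ed α ι) // (∀ e ∈ L, Ok P e.2) ∧ Relation.ReflTransGen (Down P) L (baseList x)}

open Classical in
/-- Applying the relation `i` in the direction `p` to a path `t` of the 2-tree whose label is
`side i p`: cross back the 2-cell above `t`, if `t` is the far side of such a 2-cell, and cross
the new 2-cell below `t` otherwise. -/
noncomputable def act (i : ι) (p : Bool) (t : List (Ed α ι)) : List (Ed α ι) :=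
  if h : ∃ T', t = bottom P i (!p) T' then h.choose else bottom P i p t

/-- The action of an edge of the Squier complex on a path of the 2-tree. -/
noncomputable def actList (L : List (Ed α ι)) (s : SEdge α ι) : List (Ed α ι) :=
  L.take s.pre.length ++
    act P s.i s.pos ((L.drop s.pre.length).take (P.side s.i s.pos).length) ++
    L.drop (s.pre.length + (P.side s.i s.pos).length)

theorem baseList_ok (x : List α) : ∀ e ∈ (baseList x : List (Ed α ι)), Ok P e.2 := by
  intro e he
  simp only [baseList, List.mem_mapIdx] at he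
  obtain ⟨k, hk, rfl⟩ := he
  exact Ok.base k

/-- The base vertex. -/
def TreeE.base (x : List α) : TreeE P x :=
  ⟨baseList x, baseList_ok P x, Relation.ReflTransGen.refl⟩

/-! ### Bottoms -/

theorem length_bottom (i : ι) (p : Bool) (T : List (Ed α ι)) :
    (bottom P i p T).length = (P.side i (!p)).length := by
  simp [bottom]

theorem bottom_ne_nil (i : ι) (p : Bool) (T : List (Ed α ι)) : bottom P i p T ≠ [] := by
  intro h
  have := congrArg List.length h
  rw [length_bottom, List.length_nil, List.length_eq_zero_iff] at this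
  exact P.side_ne i _ this

theorem map_fst_bottom (i : ι) (p : Bool) (T : List (Ed α ι)) :
    (bottom P i p T).map Prod.fst = P.side i (!p) := by
  unfold bottom
  apply List.ext_getElem
  · simp
  · intro n h1 h2
    simp

theorem getElem?_bottom (i : ι) (p : Bool) (T : List (Ed α ι)) (k : ℕ) :
    (bottom P i p T)[k]? = (P.side i (!p))[k]?.map fun x => (x, Code.cell i p k (enc T)) := by
  simp [bottom]

theorem getElem?_bottom_code {i : ι} {p : Bool} {T : List (Ed α ι)} {k : ℕ} {e : Ed α ι}
    (h : (bottom P i p T)[k]? = some e) : e.2 = Code.cell i p k (enc T) := by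
  rw [getElem?_bottom, Option.map_eq_some_iff] at h
  obtain ⟨x, _, rfl⟩ := h
  rfl

theorem exists_getElem?_bottom (i : ι) (p : Bool) (T : List (Ed α ι)) :
    ∃ e, (bottom P i p T)[0]? = some e ∧ e.2 = Code.cell i p 0 (enc T) ∧ e ∈ bottom P i p T := by
  have h : 0 < (bottom P i p T).length := List.length_pos_iff.2 (bottom_ne_nil P i p T)
  refine ⟨(bottom P i p T)[0], List.getElem?_eq_getElem h, ?_, List.getElem_mem h⟩
  exact getElem?_bottom_code P (List.getElem?_eq_getElem h)

theorem bottom_inj {i i' : ι} {p p' : Bool} {T T' : List (Ed α ι)}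
    (h : bottom P i p T = bottom P i' p' T') : i = i' ∧ p = p' ∧ T = T' := by
  obtain ⟨e, he, he', _⟩ := exists_getElem?_bottom P i p T
  rw [h] at he
  have h2 := getElem?_bottom_code P he
  rw [he', Code.cell.injEq] at h2
  exact ⟨h2.1, h2.2.1, enc_injective h2.2.2.2⟩

theorem Ok.cell_inv {i : ι} {p : Bool} {j : ℕ} {T : List (Ed α ι)}
    (h : Ok P (Code.cell i p j (enc T))) : (∀ e ∈ T, Ok P e.2) ∧ T.map Prod.fst = P.side i p ∧
      ∀ T', T ≠ bottom P i (!p) T' := by
  generalize hc : Code.cell i p j (enc T) = c at h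
  cases h with
  | base k => cases hc
  | cell i' p' j' T₂ h hl hr =>
    rw [Code.cell.injEq] at hc
    obtain ⟨rfl, rfl, rfl, hT⟩ := hc
    have := enc_injective hT
    subst this
    exact ⟨h, hl, hr⟩

theorem ok_of_bottom {i : ι} {p : Bool} {T : List (Ed α ι)}
    (h : ∀ e ∈ bottom P i p T, Ok P e.2) : (∀ e ∈ T, Ok P e.2) ∧ T.map Prod.fst = P.side i p ∧
      ∀ T', T ≠ bottom P i (!p) T' := by
  obtain ⟨e, _, he, hm⟩ := exists_getElem?_bottom P i p T
  have := h e hm
  rw [he] at this
  exact this.cell_inv

/-- Two complete bottoms inside a list are equal or disjoint. -/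
theorem bottom_overlap {A A' B B' T T' : List (Ed α ι)} {i i' : ι} {p p' : Bool}
    (h : A ++ bottom P i p T ++ B = A' ++ bottom P i' p' T' ++ B')
    (hle : A.length ≤ A'.length) :
    (A = A' ∧ i = i' ∧ p = p' ∧ T = T' ∧ B = B') ∨
      ∃ C, A' = A ++ bottom P i p T ++ C ∧ B = C ++ bottom P i' p' T' ++ B' := by
  rw [List.append_assoc, List.append_assoc] at h
  obtain ⟨D, hD, hD'⟩ : ∃ D, A' = A ++ D ∧ bottom P i p T ++ B = D ++ (bottom P i' p' T' ++ B') := by
    rcases List.append_eq_append_iff.1 h with ⟨D, h1, h2⟩ | ⟨D, h1, h2⟩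
    · exact ⟨D, h1, h2⟩
    · have : D = [] := by
        have := congrArg List.length h1
        rw [List.length_append] at this
        exact List.length_eq_zero_iff.1 (by omega)
      subst this
      exact ⟨[], by simpa using h1.symm, by simpa using h2.symm⟩
  subst hD
  obtain ⟨e, he, he', _⟩ := exists_getElem?_bottom P i' p' T'
  rcases Nat.lt_or_ge D.length (bottom P i p T).length with hlt | hge
  · left
    have h1 : (bottom P i p T ++ B)[D.length]? = some e := by
      rw [hD', List.getElem?_append_right le_rfl, Nat.sub_self,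
        List.getElem?_append_left (List.length_pos_iff.2 (bottom_ne_nil P i' p' T')), he]
    rw [List.getElem?_append_left hlt] at h1
    have h2 := getElem?_bottom_code P h1
    rw [he', Code.cell.injEq] at h2
    obtain ⟨rfl, rfl, h3, h4⟩ := h2
    have h5 := enc_injective h4
    subst h5
    have h6 : D = [] := List.length_eq_zero_iff.1 h3.symm
    subst h6
    simp only [List.nil_append, List.append_cancel_left_eq] at hD'
    exact ⟨by simp, rfl, rfl, rfl, hD'⟩
  · right
    rcases List.append_eq_append_iff.1 hD' with ⟨C, h1, h2⟩ | ⟨C, h1, h2⟩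
    · exact ⟨C, by rw [h1, List.append_assoc], by rw [h2, List.append_assoc]⟩
    · have : C = [] := by
        have := congrArg List.length h1
        rw [List.length_append] at this
        exact List.length_eq_zero_iff.1 (by omega)
      subst this
      rw [List.append_nil] at h1
      rw [List.nil_append] at h2
      exact ⟨[], by rw [h1]; simp, by rw [← h2]; simp⟩

/-- The diamond property. -/
theorem Down.diamond {L L₁ L₂ : List (Ed α ι)} (h₁ : Down P L L₁) (h₂ : Down P L L₂) :
    L₁ = L₂ ∨ ∃ L₃, Down P L₁ L₃ ∧ Down P L₂ L₃ := by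
  obtain ⟨A, i, p, T, B, rfl, rfl⟩ := h₁
  obtain ⟨A', i', p', T', B', h, rfl⟩ := h₂
  rcases Nat.le_total A.length A'.length with hle | hle
  · rcases bottom_overlap P h hle with ⟨rfl, rfl, rfl, rfl, rfl⟩ | ⟨C, rfl, rfl⟩
    · left; rfl
    · right
      refine ⟨A ++ T ++ C ++ T' ++ B', ⟨A ++ T ++ C, i', p', T', B', ?_, ?_⟩,
        ⟨A, i, p, T, C ++ T' ++ B', ?_, ?_⟩⟩ <;> simp only [List.append_assoc]
  · rcases bottom_overlap P h.symm hle with ⟨rfl, rfl, rfl, rfl, rfl⟩ | ⟨C, rfl, rfl⟩
    · left; rfl
    · right
      refine ⟨A' ++ T' ++ C ++ T ++ B, ⟨A', i', p', T', C ++ T ++ B, ?_, ?_⟩,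
        ⟨A' ++ T' ++ C, i, p, T, B, ?_, ?_⟩⟩ <;> simp only [List.append_assoc]

/-- The base path is reduced. -/
theorem not_down_baseList (x : List α) (L : List (Ed α ι)) : ¬ Down P (baseList x) L := by
  rintro ⟨A, i, p, T, B, h, _⟩
  obtain ⟨e, _, he, hm⟩ := exists_getElem?_bottom P i p T
  have h2 : e ∈ (baseList x : List (Ed α ι)) := by
    rw [h]; simp [hm]
  simp only [baseList, List.mem_mapIdx] at h2
  obtain ⟨k, hk, rfl⟩ := h2
  cases he

/-- A path which reduces to the base path reduces to it after any reduction. -/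
theorem down_baseList {x : List α} {L L' : List (Ed α ι)}
    (h : Relation.ReflTransGen (Down P) L (baseList x)) (h' : Down P L L') :
    Relation.ReflTransGen (Down P) L' (baseList x) := by
  obtain ⟨d, h1, h2⟩ := Relation.church_rosser (r := Down P) (by
    intro a b c hab hac
    rcases hab.diamond P hac with rfl | ⟨d, hb, hc⟩
    · exact ⟨b, Relation.ReflGen.refl, Relation.ReflTransGen.refl⟩
    · exact ⟨d, Relation.ReflGen.single hb, Relation.ReflTransGen.single hc⟩)
    (Relation.ReflTransGen.single h') h
  rcases Relation.ReflTransGen.cases_head h2 with e | ⟨c, hc, _⟩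
  · rw [e]; exact h1
  · exact absurd hc (not_down_baseList P x c)

/-! ### The action -/

theorem act_of_eq (i : ι) (p : Bool) (T : List (Ed α ι)) : act P i p (bottom P i (!p) T) = T := by
  unfold act
  have h : ∃ T', bottom P i (!p) T = bottom P i (!p) T' := ⟨T, rfl⟩
  rw [dif_pos h]
  exact ((bottom_inj P h.choose_spec).2.2).symm

theorem act_of_ne {i : ι} {p : Bool} {t : List (Ed α ι)} (h : ∀ T', t ≠ bottom P i (!p) T') :
    act P i p t = bottom P i p t := by
  unfold act
  rw [dif_neg (fun ⟨T', hT'⟩ => h T' hT')]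

theorem map_fst_act {i : ι} {p : Bool} {t : List (Ed α ι)} (h : ∀ e ∈ t, Ok P e.2) :
    (act P i p t).map Prod.fst = P.side i (!p) := by
  by_cases ht : ∃ T', t = bottom P i (!p) T'
  · obtain ⟨T', rfl⟩ := ht
    rw [act_of_eq]
    exact (ok_of_bottom P h).2.1
  · rw [act_of_ne P (fun T' hT' => ht ⟨T', hT'⟩), map_fst_bottom]

theorem length_act {i : ι} {p : Bool} {t : List (Ed α ι)} (h : ∀ e ∈ t, Ok P e.2) :
    (act P i p t).length = (P.side i (!p)).length := by
  rw [← map_fst_act P (i := i) (p := p) h, List.length_map]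

theorem ok_act {i : ι} {p : Bool} {t : List (Ed α ι)} (h : ∀ e ∈ t, Ok P e.2)
    (hl : t.map Prod.fst = P.side i p) : ∀ e ∈ act P i p t, Ok P e.2 := by
  by_cases ht : ∃ T', t = bottom P i (!p) T'
  · obtain ⟨T', rfl⟩ := ht
    rw [act_of_eq]
    exact (ok_of_bottom P h).1
  · have ht' := fun T' hT' => ht ⟨T', hT'⟩
    rw [act_of_ne P ht']
    intro e he
    obtain ⟨k, hk, hke⟩ := List.getElem_of_mem he
    have := getElem?_bottom_code P (k := k) (e := e) (by rw [List.getElem?_eq_getElem hk, hke])
    rw [this]
    exact Ok.cell i p k t h hl ht'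

theorem act_act {i : ι} {p : Bool} {t : List (Ed α ι)} (h : ∀ e ∈ t, Ok P e.2) :
    act P i (!p) (act P i p t) = t := by
  by_cases ht : ∃ T', t = bottom P i (!p) T'
  · obtain ⟨T', rfl⟩ := ht
    rw [act_of_eq]
    exact act_of_ne P (ok_of_bottom P h).2.2
  · rw [act_of_ne P (fun T' hT' => ht ⟨T', hT'⟩)]
    have := act_of_eq P i (!p) t
    rwa [Bool.not_not] at this

theorem actList_append {A t B : List (Ed α ι)} {s : SEdge α ι} (hA : A.length = s.pre.length)
    (ht : t.length = (P.side s.i s.pos).length) :
    actList P (A ++ t ++ B) s = A ++ act P s.i s.pos t ++ B := by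
  unfold actList
  rw [← hA, ← ht]
  have e1 : (A ++ t ++ B).take A.length = A := by
    rw [List.append_assoc, List.take_left]
  have e2 : ((A ++ t ++ B).drop A.length).take t.length = t := by
    rw [List.append_assoc, List.drop_left, List.take_left]
  have e3 : (A ++ t ++ B).drop (A.length + t.length) = B := by
    rw [← List.length_append, List.drop_left]
  rw [e1, e2, e3]

/-- Splitting a path along an edge. -/
theorem exists_split {L : List (Ed α ι)} {s : SEdge α ι} (h : s.src P = L.map Prod.fst) :
    ∃ A t B, L = A ++ t ++ B ∧ A.map Prod.fst = s.pre ∧ t.map Prod.fst = P.side s.i s.pos ∧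
      B.map Prod.fst = s.post := by
  unfold SEdge.src at h
  obtain ⟨l₁, B, rfl, h1, hB⟩ := List.map_eq_append_iff.1 h.symm
  obtain ⟨A, t, rfl, hA, ht⟩ := List.map_eq_append_iff.1 h1
  exact ⟨A, t, B, rfl, hA, ht, hB⟩

theorem actList_split {A t B : List (Ed α ι)} {s : SEdge α ι} (hA : A.map Prod.fst = s.pre)
    (ht : t.map Prod.fst = P.side s.i s.pos) :
    actList P (A ++ t ++ B) s = A ++ act P s.i s.pos t ++ B :=
  actList_append P (by rw [← hA, List.length_map]) (by rw [← ht, List.length_map])

/-- Block D1: the result of a move is again an honest path which reduces to the base path. -/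
theorem actList_mem (x : List α) (L : TreeE P x) (s : SEdge α ι)
    (h : s.src P = L.1.map Prod.fst) :
    (∀ e ∈ actList P L.1 s, Ok P e.2) ∧
      Relation.ReflTransGen (Down P) (actList P L.1 s) (baseList x) := by
  obtain ⟨L, hok, hred⟩ := L
  simp only at h ⊢
  obtain ⟨A, t, B, rfl, hA, ht, hB⟩ := exists_split P h
  rw [actList_split P hA ht]
  have hokt : ∀ e ∈ t, Ok P e.2 := fun e he => hok e (by simp [he])
  constructor
  · intro e he
    rw [List.mem_append, List.mem_append] at he
    rcases he with (he | he) | he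
    · exact hok e (by simp [he])
    · exact ok_act P hokt ht e he
    · exact hok e (by simp [he])
  · by_cases hT : ∃ T', t = bottom P s.i (!s.pos) T'
    · obtain ⟨T', rfl⟩ := hT
      rw [act_of_eq]
      exact down_baseList P hred ⟨A, s.i, !s.pos, T', B, rfl, rfl⟩
    · rw [act_of_ne P (fun T' hT' => hT ⟨T', hT'⟩)]
      exact Relation.ReflTransGen.head ⟨A, s.i, s.pos, t, B, rfl, rfl⟩ hred

open Classical in
/-- The move on vertices. -/
noncomputable def TreeE.mv (x : List α) (L : TreeE P x) (s : SEdge α ι) : TreeE P x :=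
  if h : s.src P = L.1.map Prod.fst then ⟨actList P L.1 s, actList_mem P x L s h⟩ else L

theorem TreeE.mv_val (x : List α) (L : TreeE P x) (s : SEdge α ι)
    (h : s.src P = L.1.map Prod.fst) : (TreeE.mv P x L s).1 = actList P L.1 s := by
  simp [TreeE.mv, h]

/-- Block D1: the covering of the component of `x` by the paths of the universal 2-tree. -/
noncomputable def treeCov (x : List α) : Cov.{u, v, max u v} P where
  E := TreeE P x
  lab L := L.1.map Prod.fst
  mv := TreeE.mv P x
  lab_mv := by
    intro L s h
    rw [TreeE.mv_val P x L s h]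
    obtain ⟨L, hok, hred⟩ := L
    simp only at h ⊢
    obtain ⟨A, t, B, rfl, hA, ht, hB⟩ := exists_split P h
    have hokt : ∀ e ∈ t, Ok P e.2 := fun e he => hok e (by simp [he])
    rw [actList_split P hA ht, List.map_append, List.map_append, hA, map_fst_act P hokt, hB]
    rfl
  mv_inv := by
    intro L s h
    apply Subtype.ext
    have hval := TreeE.mv_val P x L s h
    obtain ⟨L, hok, hred⟩ := L
    simp only at h hval ⊢
    obtain ⟨A, t, B, rfl, hA, ht, hB⟩ := exists_split P h
    have hokt : ∀ e ∈ t, Ok P e.2 := fun e he => hok e (by simp [he])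
    rw [actList_split P hA ht] at hval
    rw [TreeE.mv_val P x _ s.inv (by
      rw [hval, List.map_append, List.map_append, hA, map_fst_act P hokt, hB]
      rfl), hval, actList_split P (s := s.inv) (t := act P s.i s.pos t) hA (map_fst_act P hokt)]
    change A ++ act P s.i (!s.pos) (act P s.i s.pos t) ++ B = _
    rw [act_act P hokt]
  mv_sq := by
    intro L a b c i j p q h
    apply Subtype.ext
    have h1 : (⟨a, i, b ++ P.side j q ++ c, p⟩ : SEdge α ι).src P = L.1.map Prod.fst := by
      rw [h]; simp [SEdge.src]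
    have h2 : (⟨a ++ P.side i p ++ b, j, c, q⟩ : SEdge α ι).src P = L.1.map Prod.fst := by
      rw [h]; simp [SEdge.src]
    have hv1 := TreeE.mv_val P x L _ h1
    have hv2 := TreeE.mv_val P x L _ h2
    obtain ⟨L, hok, hred⟩ := L
    simp only at h hv1 hv2 ⊢
    obtain ⟨M1, C, rfl, hM1, hC⟩ := List.map_eq_append_iff.1 h
    obtain ⟨M2, u, rfl, hM2, hu⟩ := List.map_eq_append_iff.1 hM1
    obtain ⟨M3, B, rfl, hM3, hB⟩ := List.map_eq_append_iff.1 hM2
    obtain ⟨A, t, rfl, hA, ht⟩ := List.map_eq_append_iff.1 hM3
    have hokt : ∀ e ∈ t, Ok P e.2 := fun e he => hok e (by simp [he])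
    have hoku : ∀ e ∈ u, Ok P e.2 := fun e he => hok e (by simp [he])
    have e1 : A ++ t ++ B ++ u ++ C = A ++ t ++ (B ++ u ++ C) := by simp only [List.append_assoc]
    have e1' := actList_split P (A := A) (t := t) (B := B ++ u ++ C)
      (s := ⟨a, i, b ++ P.side j q ++ c, p⟩) hA ht
    replace hv1 := hv1.trans ((congrArg (fun M => actList P M _) e1).trans e1')
    have e2' := actList_split P (A := A ++ t ++ B) (t := u) (B := C)
      (s := ⟨a ++ P.side i p ++ b, j, c, q⟩) (by simp [hA, ht, hB]) hu
    replace hv2 := hv2.trans e2'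
    rw [TreeE.mv_val P x _ ⟨a ++ P.side i (!p) ++ b, j, c, q⟩ (by
        rw [hv1]; simp [SEdge.src, map_fst_act P hokt, hA, hB, hu, hC]),
      TreeE.mv_val P x _ ⟨a, i, b ++ P.side j (!q) ++ c, p⟩ (by
        rw [hv2]; simp [SEdge.src, map_fst_act P hoku, hA, ht, hB, hC]), hv1, hv2]
    have e3 := actList_split P (A := A ++ act P i p t ++ B) (t := u) (B := C)
      (s := ⟨a ++ P.side i (!p) ++ b, j, c, q⟩) (by simp [hA, map_fst_act P hokt, hB]) hu
    have e4 := actList_split P (A := A) (t := t) (B := B ++ act P j q u ++ C)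
      (s := ⟨a, i, b ++ P.side j (!q) ++ c, p⟩) hA ht
    have e5 : A ++ act P i p t ++ (B ++ u ++ C) = A ++ act P i p t ++ B ++ u ++ C := by
      simp only [List.append_assoc]
    have e6 : A ++ t ++ B ++ act P j q u ++ C = A ++ t ++ (B ++ act P j q u ++ C) := by
      simp only [List.append_assoc]
    simp only at e3 e4 ⊢
    rw [e5, e3, e6, e4]
    simp only [List.append_assoc]

end Pool.Agent.DG
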