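import Pool.Agent.MP_cff99f_al.Tree

/-! Block D2: the universal covering is the tree covering. -/

namespace Pool.Agent.DG

universe u v w

variable {α : Type u} {ι : Type v} (P : Pres α ι)

/-! ### Far sides of 2-cells -/

section bottoms

theorem ti_length_bottom (i : ι) (p : Bool) (T : List (Ed α ι)) :
    (bottom P i p T).length = (P.side i (!p)).length := by simp [bottom]

theorem ti_bottom_ne_nil (i : ι) (p : Bool) (T : List (Ed α ι)) : bottom P i p T ≠ [] := by
  intro h
  have := ti_length_bottom P i p T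
  rw [h] at this
  exact P.side_ne i (!p) (List.length_eq_zero_iff.1 this.symm)

theorem ti_map_fst_bottom (i : ι) (p : Bool) (T : List (Ed α ι)) :
    (bottom P i p T).map Prod.fst = P.side i (!p) := by
  rw [bottom, List.mapIdx_eq_zipIdx_map, List.map_map]
  conv_rhs => rw [← List.zipIdx_map_fst 0 (P.side i !p)]
  apply List.map_congr_left
  intro a _
  rfl

theorem ti_getElem_bottom (i : ι) (p : Bool) (T : List (Ed α ι)) (k : ℕ)
    (hk : k < (bottom P i p T).length) :
    ((bottom P i p T)[k]).2 = Code.cell i p k (enc T) := by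
  simp [bottom]

/-- An entry of a far side which starts the other. -/
theorem ti_bottom_overlap {i j : ι} {p q : Bool} {T T' as cs B B' : List (Ed α ι)}
    (h1 : bottom P i p T = as ++ cs) (hcs : cs ≠ []) (h2 : bottom P j q T' ++ B' = cs ++ B) :
    as = [] ∧ i = j ∧ p = q ∧ T = T' := by
  obtain ⟨c, cs, rfl⟩ := List.exists_cons_of_ne_nil hcs
  have e1 : c.2 = Code.cell i p as.length (enc T) := by
    have hk : as.length < (bottom P i p T).length := by rw [h1]; simp
    rw [← ti_getElem_bottom P i p T as.length hk]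
    simp [h1]
  have e2 : c.2 = Code.cell j q 0 (enc T') := by
    have hk : 0 < (bottom P j q T').length := List.length_pos_iff.2 (ti_bottom_ne_nil P j q T')
    rw [← ti_getElem_bottom P j q T' 0 hk]
    have : (bottom P j q T')[0] = (bottom P j q T' ++ B')[0]'(by simp; omega) := by
      rw [List.getElem_append_left]
    rw [this]
    simp [h2]
  rw [e1] at e2
  simp only [Code.cell.injEq] at e2
  exact ⟨List.length_eq_zero_iff.1 e2.2.2.1, e2.1, e2.2.1, enc_injective e2.2.2.2⟩

/-- Two far sides in a list are equal or disjoint. -/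
theorem ti_bottom_disjoint {i j : ι} {p q : Bool} {T T' A A' B B' : List (Ed α ι)}
    (h : A ++ bottom P i p T ++ B = A' ++ bottom P j q T' ++ B') :
    (A = A' ∧ i = j ∧ p = q ∧ T = T' ∧ B = B') ∨
    (∃ M, A' = A ++ bottom P i p T ++ M ∧ B = M ++ bottom P j q T' ++ B') ∨
    (∃ M, A = A' ++ bottom P j q T' ++ M ∧ B' = M ++ bottom P i p T ++ B) := by
  rw [List.append_assoc, List.append_assoc, List.append_eq_append_iff] at h
  rcases h with ⟨as, h1, h2⟩ | ⟨as, h1, h2⟩
  · rw [List.append_eq_append_iff] at h2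
    rcases h2 with ⟨cs, h3, h4⟩ | ⟨cs, h3, h4⟩
    · right; left
      exact ⟨cs, by rw [h1, h3]; simp, by rw [h4]; simp⟩
    · rcases eq_or_ne cs [] with rfl | hcs
      · right; left
        refine ⟨[], ?_, ?_⟩
        · rw [h1, h3]; simp
        · simp at h4; simp [h4]
      · obtain ⟨rfl, rfl, rfl, rfl⟩ := ti_bottom_overlap P h3 hcs h4
        left
        simp only [List.nil_append] at h3
        subst h3
        simp at h4
        refine ⟨by simp [h1], rfl, rfl, rfl, h4.symm⟩
  · rw [List.append_eq_append_iff] at h2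
    rcases h2 with ⟨cs, h3, h4⟩ | ⟨cs, h3, h4⟩
    · right; right
      exact ⟨cs, by rw [h1, h3]; simp, by rw [h4]; simp⟩
    · rcases eq_or_ne cs [] with rfl | hcs
      · right; right
        refine ⟨[], ?_, ?_⟩
        · rw [h1, h3]; simp
        · simp at h4; simp [h4]
      · obtain ⟨rfl, rfl, rfl, rfl⟩ := ti_bottom_overlap P h3 hcs h4
        left
        simp only [List.nil_append] at h3
        subst h3
        simp at h4
        refine ⟨by simp [h1], rfl, rfl, rfl, h4⟩

/-- The diamond property. -/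
theorem ti_diamond {L L₁ L₂ : List (Ed α ι)} (h₁ : Down P L L₁) (h₂ : Down P L L₂) :
    L₁ = L₂ ∨ ∃ M, Down P L₁ M ∧ Down P L₂ M := by
  obtain ⟨A, i, p, T, B, rfl, rfl⟩ := h₁
  obtain ⟨A', j, q, T', B', h, rfl⟩ := h₂
  rcases ti_bottom_disjoint P h with ⟨rfl, rfl, rfl, rfl, rfl⟩ | ⟨M, rfl, rfl⟩ | ⟨M, rfl, rfl⟩
  · exact Or.inl rfl
  · right
    refine ⟨A ++ T ++ M ++ T' ++ B', ⟨A ++ T ++ M, j, q, T', B', ?_, ?_⟩,
      ⟨A, i, p, T, M ++ T' ++ B', ?_, ?_⟩⟩ <;> simp
  · right
    refine ⟨A' ++ T' ++ M ++ T ++ B, ⟨A', j, q, T', M ++ T ++ B, ?_, ?_⟩,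
      ⟨A' ++ T' ++ M, i, p, T, B, ?_, ?_⟩⟩ <;> simp

/-- The base path is irreducible. -/
theorem ti_base_normal (x : List α) (L : List (Ed α ι)) : ¬ Down P (baseList x) L := by
  rintro ⟨A, i, p, T, B, h, _⟩
  have hk : 0 < (bottom P i p T).length := List.length_pos_iff.2 (ti_bottom_ne_nil P i p T)
  have hm : (bottom P i p T)[0] ∈ (baseList x : List (Ed α ι)) := by
    rw [h]
    simp
  simp only [baseList, List.mem_mapIdx] at hm
  obtain ⟨k, hk', e⟩ := hm
  have e2 := ti_getElem_bottom P i p T 0 hk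
  rw [← e] at e2
  cases e2

theorem ti_church {L L₁ L₂ : List (Ed α ι)} (h₁ : Relation.ReflTransGen (Down P) L L₁)
    (h₂ : Relation.ReflTransGen (Down P) L L₂) :
    Relation.Join (Relation.ReflTransGen (Down P)) L₁ L₂ := by
  refine Relation.church_rosser ?_ h₁ h₂
  intro a b c hb hc
  rcases ti_diamond P hb hc with rfl | ⟨M, h1, h2⟩
  · exact ⟨b, Relation.ReflGen.refl, Relation.ReflTransGen.refl⟩
  · exact ⟨M, Relation.ReflGen.single h1, Relation.ReflTransGen.single h2⟩

theorem ti_down_base {x : List α} {L L₁ : List (Ed α ι)}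
    (h : Relation.ReflTransGen (Down P) L (baseList x)) (h₁ : Down P L L₁) :
    Relation.ReflTransGen (Down P) L₁ (baseList x) := by
  obtain ⟨M, hM1, hM2⟩ := ti_church P h (Relation.ReflTransGen.single h₁)
  rcases Relation.ReflTransGen.cases_head hM1 with rfl | ⟨M', h', _⟩
  · exact hM2
  · exact absurd h' (ti_base_normal P x M')

end bottoms

/-! ### Sizes -/

/-- The size of a code. -/
def tiSize : Code α ι → ℕ
  | Code.base _ => 0
  | Code.nil => 0
  | Code.cons _ c l => tiSize c + tiSize l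
  | Code.cell _ _ _ t => 1 + tiSize t

/-- The size of a path. -/
def tiPhi (L : List (Ed α ι)) : ℕ := (L.map fun e => tiSize e.2).sum

@[simp] theorem tiSize_enc (L : List (Ed α ι)) : tiSize (enc L) = tiPhi L := by
  induction L with
  | nil => rfl
  | cons e L ih => simp [enc, tiSize, ih, tiPhi]

@[simp] theorem tiPhi_append (L M : List (Ed α ι)) : tiPhi (L ++ M) = tiPhi L + tiPhi M := by
  simp [tiPhi]

theorem tiPhi_bottom (i : ι) (p : Bool) (T : List (Ed α ι)) :
    tiPhi T < tiPhi (bottom P i p T) := by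
  obtain ⟨a, l, h⟩ := List.exists_cons_of_ne_nil (P.side_ne i (!p))
  conv_rhs => rw [tiPhi, bottom, h]
  simp only [List.mapIdx_cons, List.map_cons, List.sum_cons, tiSize, tiSize_enc]
  omega

theorem tiPhi_down {L M : List (Ed α ι)} (h : Down P L M) : tiPhi M < tiPhi L := by
  obtain ⟨A, i, p, T, B, rfl, rfl⟩ := h
  have := tiPhi_bottom P i p T
  simp only [tiPhi_append]
  omega

/-! ### The steps of the tree covering -/

/-- `M` is obtained from `L` by removing a 2-cell, and `s` is the edge from `M` to `L`. -/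
def TiStep (L M : List (Ed α ι)) (s : SEdge α ι) : Prop :=
  ∃ (A : List (Ed α ι)) (i : ι) (p : Bool) (T B : List (Ed α ι)),
    L = A ++ bottom P i p T ++ B ∧ M = A ++ T ++ B ∧ s = ⟨A.map Prod.fst, i, B.map Prod.fst, p⟩

theorem TiStep.down {L M : List (Ed α ι)} {s : SEdge α ι} (h : TiStep P L M s) : Down P L M := by
  obtain ⟨A, i, p, T, B, h1, h2, _⟩ := h
  exact ⟨A, i, p, T, B, h1, h2⟩

theorem ti_exists_step {L M : List (Ed α ι)} (h : Down P L M) : ∃ s, TiStep P L M s := by
  obtain ⟨A, i, p, T, B, h1, h2⟩ := h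
  exact ⟨_, A, i, p, T, B, h1, h2, rfl⟩

/-- Inversion of honesty for the far side of a cell. -/
theorem ti_ok_bottom {A B T : List (Ed α ι)} {i : ι} {p : Bool}
    (h : ∀ e ∈ A ++ bottom P i p T ++ B, Ok P e.2) :
    (∀ e ∈ T, Ok P e.2) ∧ T.map Prod.fst = P.side i p ∧ ∀ T', T ≠ bottom P i (!p) T' := by
  have hk : 0 < (bottom P i p T).length := List.length_pos_iff.2 (ti_bottom_ne_nil P i p T)
  have hm : (bottom P i p T)[0] ∈ A ++ bottom P i p T ++ B := by simp
  have h1 := h _ hm
  rw [ti_getElem_bottom P i p T 0 hk] at h1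
  generalize hc : Code.cell i p 0 (enc T) = c at h1
  cases h1 with
  | base k => cases hc
  | cell i' p' j' T' h1 h2 h3 =>
    simp only [Code.cell.injEq] at hc
    obtain ⟨rfl, rfl, rfl, hc⟩ := hc
    have := enc_injective hc
    subst this
    exact ⟨h1, h2, h3⟩

theorem ti_step_ok {L M : List (Ed α ι)} {s : SEdge α ι} (h : TiStep P L M s)
    (hL : ∀ e ∈ L, Ok P e.2) : ∀ e ∈ M, Ok P e.2 := by
  obtain ⟨A, i, p, T, B, rfl, rfl, _⟩ := h
  have hT := (ti_ok_bottom P hL).1
  intro e he
  simp only [List.mem_append] at he hL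
  rcases he with (he | he) | he
  · exact hL e (Or.inl (Or.inl he))
  · exact hT e he
  · exact hL e (Or.inr he)

theorem ti_step_src {L M : List (Ed α ι)} {s : SEdge α ι} (h : TiStep P L M s)
    (hL : ∀ e ∈ L, Ok P e.2) : s.src P = M.map Prod.fst := by
  obtain ⟨A, i, p, T, B, rfl, rfl, rfl⟩ := h
  simp [SEdge.src, (ti_ok_bottom P hL).2.1]

theorem ti_step_tgt {L M : List (Ed α ι)} {s : SEdge α ι} (h : TiStep P L M s) :
    s.tgt P = L.map Prod.fst := by
  obtain ⟨A, i, p, T, B, rfl, rfl, rfl⟩ := h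
  simp [SEdge.tgt, ti_map_fst_bottom]

theorem ti_actList {A T B : List (Ed α ι)} {i : ι} {p : Bool}
    (hT : T.map Prod.fst = P.side i p) :
    actList P (A ++ T ++ B) ⟨A.map Prod.fst, i, B.map Prod.fst, p⟩ = A ++ act P i p T ++ B := by
  have hl : (P.side i p).length = T.length := by rw [← hT]; simp
  unfold actList
  simp only [List.length_map, hl]
  congr 1
  · congr 1
    · simp
    · simp
  · rw [← List.length_append]
    simp

theorem ti_step_act {L M : List (Ed α ι)} {s : SEdge α ι} (h : TiStep P L M s)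
    (hL : ∀ e ∈ L, Ok P e.2) : actList P M s = L := by
  obtain ⟨A, i, p, T, B, rfl, rfl, rfl⟩ := h
  have hT := ti_ok_bottom P hL
  rw [ti_actList P hT.2.1]
  have : act P i p T = bottom P i p T := by
    unfold act
    rw [dif_neg]
    rintro ⟨T', h⟩
    exact hT.2.2 T' h
  rw [this]

/-- Every move is a step down or a step up. -/
theorem ti_act_step {L : List (Ed α ι)} {s : SEdge α ι} (h : s.src P = L.map Prod.fst) :
    TiStep P (actList P L s) L s ∨ TiStep P L (actList P L s) s.inv := by
  obtain ⟨pre, i, post, p⟩ := s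
  simp only [SEdge.src] at h
  have h' := h.symm
  rw [List.map_eq_append_iff] at h'
  obtain ⟨AT, B, rfl, h1, rfl⟩ := h'
  rw [List.map_eq_append_iff] at h1
  obtain ⟨A, T, rfl, rfl, hT⟩ := h1
  rw [ti_actList P hT]
  by_cases hex : ∃ T', T = bottom P i (!p) T'
  · right
    have e : act P i p T = hex.choose := by
      unfold act
      rw [dif_pos hex]
    refine ⟨A, i, !p, act P i p T, B, ?_, rfl, rfl⟩
    rw [e, ← hex.choose_spec]
  · left
    have e : act P i p T = bottom P i p T := by
      unfold act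
      rw [dif_neg hex]
    exact ⟨A, i, p, T, B, by rw [e], rfl, rfl⟩

/-! ### Lifting paths to a covering -/

theorem ti_lab_foldl (X : Cov.{u, v, w} P) (l : List (SEdge α ι)) : ∀ {e : X.E} {z : List α},
    IsPath P (X.lab e) l z → X.lab (l.foldl X.mv e) = z := by
  induction l with
  | nil => intro e z h; exact h
  | cons s l ih =>
    intro e z h
    rw [List.foldl_cons]
    apply ih
    rw [X.lab_mv e s h.1]
    exact h.2

theorem ti_isPath_split {x z : List α} {l l' : List (SEdge α ι)} (h : IsPath P x (l ++ l') z) :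
    ∃ y, IsPath P x l y ∧ IsPath P y l' z := by
  induction l generalizing x with
  | nil => exact ⟨x, rfl, h⟩
  | cons s l ih =>
    obtain ⟨y, h1, h2⟩ := ih h.2
    exact ⟨y, ⟨h.1, h1⟩, h2⟩

theorem ti_foldl_elem (X : Cov.{u, v, w} P) {l l' : List (SEdge α ι)} (h : Elem P l l')
    {e : X.E} {z : List α} (hl : IsPath P (X.lab e) l z) : l.foldl X.mv e = l'.foldl X.mv e := by
  cases h with
  | cancel l₁ l₂ s =>
    obtain ⟨y, h1, h2⟩ := ti_isPath_split P hl
    have hy := ti_lab_foldl P X l₁ h1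
    simp only [List.foldl_append, List.foldl_cons]
    rw [X.mv_inv _ s (by rw [hy]; exact h2.1)]
  | square l₁ l₂ a b c i j p q =>
    obtain ⟨y, h1, h2⟩ := ti_isPath_split P hl
    have hy := ti_lab_foldl P X l₁ h1
    simp only [List.foldl_append, List.foldl_cons]
    rw [X.mv_sq _ a b c i j p q (by rw [hy, ← h2.1]; simp [SEdge.src])]

theorem ti_baseList_fst (x : List α) : (baseList x : List (Ed α ι)).map Prod.fst = x := by
  rw [baseList, List.mapIdx_eq_zipIdx_map, List.map_map]
  conv_rhs => rw [← List.zipIdx_map_fst 0 x]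
  apply List.map_congr_left
  intro a _
  rfl

theorem ti_base_lab (x : List α) : (treeCov P x).lab (TreeE.base P x) = x := ti_baseList_fst x

/-- The map from the universal covering to the tree covering. -/
noncomputable def tiMap (x : List α) (V : Vert P x) : (treeCov P x).E :=
  Quotient.lift (s := pathSetoid P x V.1)
    (fun l : PathTo P x V.1 => l.1.foldl (treeCov P x).mv (TreeE.base P x)) (by
      intro a b h
      have h' : Relation.EqvGen (fun l l' : PathTo P x V.1 => Elem P l.1 l'.1) a b := h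
      clear h
      induction h' with
      | rel a b h =>
        have ha := a.2
        refine ti_foldl_elem P (treeCov P x) h (z := V.1) ?_
        rw [ti_base_lab]
        exact ha
      | refl a => rfl
      | symm a b _ ih => exact ih.symm
      | trans a b c _ _ ih1 ih2 => exact ih1.trans ih2) V.2

theorem tiMap_mk (x : List α) {y : List α} (l : List (SEdge α ι)) (h : IsPath P x l y) :
    tiMap P x (Vert.mk P l h) = l.foldl (treeCov P x).mv (TreeE.base P x) := rfl

theorem tiMap_lab (x : List α) (V : Vert P x) : (treeCov P x).lab (tiMap P x V) = V.1 := by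
  induction V using Vert.ind with
  | _ y l hl =>
    rw [tiMap_mk]
    exact ti_lab_foldl P (treeCov P x) l (by rw [ti_base_lab]; exact hl)

theorem tiMap_mv (x : List α) (V : Vert P x) (s : SEdge α ι) (h : s.src P = V.1) :
    tiMap P x (V.mv s) = (treeCov P x).mv (tiMap P x V) s := by
  induction V using Vert.ind with
  | _ y l hl =>
    rw [Vert.mk_mv hl s h, tiMap_mk, tiMap_mk]
    exact List.foldl_append.trans rfl

/-! ### Going up -/

/-- `V` is obtained by going up from the base path to `L`. -/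
inductive TiUp (x : List α) : TreeE P x → Vert P x → Prop
  | base : TiUp x (TreeE.base P x) ⟨x, Hpt.id P x⟩
  | step (L M : TreeE P x) (s : SEdge α ι) (V : Vert P x) (h : TiStep P L.1 M.1 s)
      (hM : TiUp x M V) : TiUp x L (V.mv s)

theorem TiUp.inv {x : List α} {L : TreeE P x} {V : Vert P x} (h : TiUp P x L V) :
    (L = TreeE.base P x ∧ V = ⟨x, Hpt.id P x⟩) ∨
    ∃ (M : TreeE P x) (s : SEdge α ι) (W : Vert P x), TiStep P L.1 M.1 s ∧ TiUp P x M W ∧
      V = W.mv s := by
  cases h with
  | base => exact Or.inl ⟨rfl, rfl⟩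
  | step L M s W h hM => exact Or.inr ⟨M, s, W, h, hM, rfl⟩

theorem TiUp.lab {x : List α} {L : TreeE P x} {V : Vert P x} (h : TiUp P x L V) :
    V.1 = L.1.map Prod.fst := by
  induction h with
  | base => exact (ti_baseList_fst x).symm
  | step L M s V h hM ih =>
    have h1 : s.src P = V.1 := by rw [ih]; exact ti_step_src P h L.2.1
    have h2 : (V.mv s).1 = s.tgt P := (univCov P x).lab_mv V s h1
    rw [h2, ti_step_tgt P h]

theorem TiUp.src {x : List α} {L M : TreeE P x} {V : Vert P x} {s : SEdge α ι}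
    (h : TiUp P x M V) (hs : TiStep P L.1 M.1 s) : s.src P = V.1 := by
  rw [h.lab]; exact ti_step_src P hs L.2.1

/-- The lower end of a step as a vertex of the tree covering. -/
theorem ti_lower {x : List α} (L : TreeE P x) {M : List (Ed α ι)} {s : SEdge α ι}
    (h : TiStep P L.1 M s) : ∃ M' : TreeE P x, M'.1 = M :=
  ⟨⟨M, ti_step_ok P h L.2.1, ti_down_base P L.2.2 (h.down P)⟩, rfl⟩

theorem ti_up_exists {x : List α} (L : TreeE P x) : ∃ V, TiUp P x L V := by
  obtain ⟨L, hL, hred⟩ := L
  induction hred using Relation.ReflTransGen.head_induction_on with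
  | refl => exact ⟨_, TiUp.base⟩
  | head h h' ih =>
    obtain ⟨s, hs⟩ := ti_exists_step P h
    obtain ⟨V, hV⟩ := ih (ti_step_ok P hs hL)
    exact ⟨_, TiUp.step _ _ s V hs hV⟩

theorem ti_unique_aux {x : List α} {L M M' : TreeE P x}
    (IH : ∀ K : TreeE P x, tiPhi K.1 < tiPhi L.1 → ∀ V V', TiUp P x K V → TiUp P x K V' → V = V')
    {A N B' T T' : List (Ed α ι)} {i j : ι} {p q : Bool} {W W' : Vert P x}
    (hL : L.1 = A ++ bottom P i p T ++ N ++ bottom P j q T' ++ B')
    (hM : M.1 = A ++ T ++ N ++ bottom P j q T' ++ B')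
    (hM' : M'.1 = A ++ bottom P i p T ++ N ++ T' ++ B')
    (hW : TiUp P x M W) (hW' : TiUp P x M' W') :
    W.mv ⟨A.map Prod.fst, i, (N ++ bottom P j q T' ++ B').map Prod.fst, p⟩ =
      W'.mv ⟨(A ++ bottom P i p T ++ N).map Prod.fst, j, B'.map Prod.fst, q⟩ := by
  have sM : TiStep P M.1 (A ++ T ++ N ++ T' ++ B')
      ⟨(A ++ T ++ N).map Prod.fst, j, B'.map Prod.fst, q⟩ :=
    ⟨A ++ T ++ N, j, q, T', B', by rw [hM], rfl, rfl⟩
  have sM' : TiStep P M'.1 (A ++ T ++ N ++ T' ++ B')
      ⟨A.map Prod.fst, i, (N ++ T' ++ B').map Prod.fst, p⟩ :=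
    ⟨A, i, p, T, N ++ T' ++ B', by rw [hM']; simp, by simp, rfl⟩
  have hLM : Down P L.1 M.1 := ⟨A, i, p, T, N ++ bottom P j q T' ++ B', by rw [hL]; simp,
    by rw [hM]; simp⟩
  have hLM' : Down P L.1 M'.1 := ⟨A ++ bottom P i p T ++ N, j, q, T', B', by rw [hL],
    by rw [hM']⟩
  obtain ⟨K, hK⟩ := ti_lower P M sM
  rw [← hK] at sM sM'
  obtain ⟨U, hU⟩ := ti_up_exists P K
  have e1 : W = U.mv ⟨(A ++ T ++ N).map Prod.fst, j, B'.map Prod.fst, q⟩ :=
    IH M (tiPhi_down P hLM) _ _ hW (TiUp.step _ _ _ _ sM hU)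
  have e2 : W' = U.mv ⟨A.map Prod.fst, i, (N ++ T' ++ B').map Prod.fst, p⟩ :=
    IH M' (tiPhi_down P hLM') _ _ hW' (TiUp.step _ _ _ _ sM' hU)
  have hT : T.map Prod.fst = P.side i p := by
    have := L.2.1
    rw [hL] at this
    have h' : ∀ e ∈ A ++ bottom P i p T ++ (N ++ bottom P j q T' ++ B'), Ok P e.2 := by
      intro e he; exact this e (by simpa using he)
    exact (ti_ok_bottom P h').2.1
  have hT' : T'.map Prod.fst = P.side j q := by
    have := L.2.1
    rw [hL] at this
    exact (ti_ok_bottom P this).2.1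
  have hlab : U.1 = A.map Prod.fst ++ P.side i p ++ N.map Prod.fst ++ P.side j q ++
      B'.map Prod.fst := by
    rw [hU.lab, hK]
    simp [hT, hT']
  have key := (univCov P x).mv_sq U (A.map Prod.fst) (N.map Prod.fst) (B'.map Prod.fst) i j p q
    hlab
  have key' : (U.mv ⟨A.map Prod.fst, i, N.map Prod.fst ++ P.side j q ++ B'.map Prod.fst, p⟩).mv
      ⟨A.map Prod.fst ++ P.side i (!p) ++ N.map Prod.fst, j, B'.map Prod.fst, q⟩ =
      (U.mv ⟨A.map Prod.fst ++ P.side i p ++ N.map Prod.fst, j, B'.map Prod.fst, q⟩).mv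
      ⟨A.map Prod.fst, i, N.map Prod.fst ++ P.side j (!q) ++ B'.map Prod.fst, p⟩ := key
  rw [e1, e2]
  simp only [List.map_append, ti_map_fst_bottom, hT, hT']
  exact key'.symm

theorem ti_unique {x : List α} : ∀ (n : ℕ) (L : TreeE P x), tiPhi L.1 < n →
    ∀ V V', TiUp P x L V → TiUp P x L V' → V = V' := by
  intro n
  induction n with
  | zero => intro L h; exact absurd h (Nat.not_lt_zero _)
  | succ n ih =>
    intro L hn V V' hV hV'
    have IH : ∀ K : TreeE P x, tiPhi K.1 < tiPhi L.1 →
        ∀ V V', TiUp P x K V → TiUp P x K V' → V = V' := fun K hK => ih K (by omega)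
    rcases hV.inv P with ⟨h1, rfl⟩ | ⟨M, s, W, hs, hW, rfl⟩
    · rcases hV'.inv P with ⟨h1', rfl⟩ | ⟨M', s', W', hs', hW', rfl⟩
      · rfl
      · subst h1
        exact absurd (hs'.down P) (ti_base_normal P x _)
    · rcases hV'.inv P with ⟨h1', rfl⟩ | ⟨M', s', W', hs', hW', rfl⟩
      · subst h1'
        exact absurd (hs.down P) (ti_base_normal P x _)
      · have hd := hs.down P
        obtain ⟨A, i, p, T, B, h1, h2, rfl⟩ := hs
        obtain ⟨A', j, q, T', B', h1', h2', rfl⟩ := hs'
        rcases ti_bottom_disjoint P (h1.symm.trans h1') with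
          ⟨rfl, rfl, rfl, rfl, rfl⟩ | ⟨N, rfl, rfl⟩ | ⟨N, rfl, rfl⟩
        · have hMM : M = M' := Subtype.ext (h2.trans h2'.symm)
          subst hMM
          rw [IH M (tiPhi_down P hd) _ _ hW hW']
        · exact ti_unique_aux P (M := M) (M' := M') IH h1' (by rw [h2]; simp) (by rw [h2']) hW hW'
        · exact (ti_unique_aux P (M := M') (M' := M) IH h1 (by rw [h2']; simp) (by rw [h2])
            hW' hW).symm

theorem ti_up_map {x : List α} (V : Vert P x) : TiUp P x (tiMap P x V) V := by
  induction V using Vert.ind with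
  | _ y l hl =>
  induction l using List.reverseRecOn generalizing y with
  | nil =>
    have h : x = y := hl
    subst h
    exact TiUp.base
  | append_singleton l s ih =>
    obtain ⟨z, hz, hs⟩ := ti_isPath_split P hl
    have hsz : s.src P = z := hs.1
    have hy : s.tgt P = y := hs.2
    subst hy
    have e : Vert.mk P (l ++ [s]) hl = (Vert.mk P l hz).mv s := (Vert.mk_mv hz s hsz).symm
    rw [e]
    have hV := ih z hz
    set V := Vert.mk P l hz with hVdef
    rw [tiMap_mv P x V s hsz]
    set L := tiMap P x V with hL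
    have hlab : s.src P = L.1.map Prod.fst := by rw [hsz]; exact hV.lab
    have hmv : ((treeCov P x).mv L s).1 = actList P L.1 s := TreeE.mv_val P x L s hlab
    rcases ti_act_step P hlab with h | h
    · rw [← hmv] at h
      exact TiUp.step _ _ s V h hV
    · rw [← hmv] at h
      obtain ⟨W, hW⟩ := ti_up_exists P ((treeCov P x).mv L s)
      have h2 := TiUp.step _ _ s.inv W h hW
      have h3 : V = W.mv s.inv := ti_unique P _ L (Nat.lt_succ_self _) _ _ hV h2
      have h4 : (W.mv s.inv).mv s.inv.inv = W := (univCov P x).mv_inv W s.inv (hW.src P h)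
      rw [SEdge.inv_inv] at h4
      rw [h3, h4]
      exact hW

theorem ti_map_up {x : List α} {L : TreeE P x} {V : Vert P x} (h : TiUp P x L V) :
    tiMap P x V = L := by
  induction h with
  | base => exact tiMap_mk P x [] rfl
  | step L M s V h hM ih =>
    rw [tiMap_mv P x V s (hM.src P h), ih]
    apply Subtype.ext
    have h1 : s.src P = M.1.map Prod.fst := ti_step_src P h L.2.1
    have h2 : ((treeCov P x).mv M s).1 = actList P M.1 s := TreeE.mv_val P x M s h1
    rw [h2, ti_step_act P h L.2.1]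

theorem tiMap_bijective (x : List α) : Function.Bijective (tiMap P x) := by
  constructor
  · intro V V' h
    have h1 := ti_up_map P V
    have h2 := ti_up_map P V'
    rw [← h] at h2
    exact ti_unique P _ _ (Nat.lt_succ_self _) _ _ h1 h2
  · intro L
    obtain ⟨V, hV⟩ := ti_up_exists P L
    exact ⟨V, ti_map_up P hV⟩

theorem exists_iso (x : List α) :
    ∃ f : (univCov P x).E ≃ (treeCov P x).E,
      (∀ v, (treeCov P x).lab (f v) = (univCov P x).lab v) ∧
      (∀ v s, s.src P = (univCov P x).lab v →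
        f ((univCov P x).mv v s) = (treeCov P x).mv (f v) s) ∧
      f ⟨x, Hpt.id P x⟩ = TreeE.base P x := by
  refine ⟨Equiv.ofBijective (tiMap P x) (tiMap_bijective P x), ?_, ?_, ?_⟩
  · intro v
    exact tiMap_lab P x v
  · intro v s h
    exact tiMap_mv P x v s h
  · exact tiMap_mk P x [] rfl

end Pool.Agent.DG
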